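import Mathlib
import Pool.Agent.H99.W.Block
import Pool.Agent.H75.TwoArm.Symm

set_option autoImplicit false
open Finset

/-! # The strand graph of an in-plane world

States of the tiles (labels): open (`e ∈ w`), closed, or deleted (`e ∈ D`). The vertices of the graph are
the corners (= sides of the tiles in the tile frame). The label `e` has the sides `eW e = e` (west),
`eS e` (south), `eE e` (east), `eN e` (north) of the tile frame. A natural tile joins the corner `c` with
`lab c = e` to `nx w c`; a deleted tile (of a frozen horizontal row) joins its south and north side.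
`SG Λ D w` : only the tiles of `Λ` are used. -/

namespace Pool.Agent.H13.W

open Pool.Agent.H75.Perc Pool.Agent.H75.TwoArm Pool.Agent.H99.W

/-- west side of a tile -/
def eW (e : ℤ × ℤ) : ℤ × ℤ := (e.1, e.2)
/-- east side of a tile -/
def eE (e : ℤ × ℤ) : ℤ × ℤ := (e.1 + 1, e.2 + 1)
/-- south side of a tile -/
def eS (e : ℤ × ℤ) : ℤ × ℤ := (e.1 + 1, e.2)
/-- north side of a tile -/
def eN (e : ℤ × ℤ) : ℤ × ℤ := (e.1, e.2 + 1)

lemma lab_ne_plab (c : ℤ × ℤ) : lab c ≠ plab c := by
  obtain ⟨a, b⟩ := c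
  unfold lab plab
  rcases Int.emod_two_eq_zero_or_one a with h | h <;> rcases Int.emod_two_eq_zero_or_one b with h' | h' <;>
    simp [h, h', Prod.ext_iff] <;> omega

/-- the four sides of a tile -/
lemma side_cases (c : ℤ × ℤ) {e : ℤ × ℤ} (h : e = lab c ∨ e = plab c) :
    c = eW e ∨ c = eE e ∨ c = eS e ∨ c = eN e := by
  obtain ⟨a, b⟩ := c
  obtain ⟨x, y⟩ := e
  unfold lab plab at h
  unfold eW eE eS eN
  rcases Int.emod_two_eq_zero_or_one a with h1 | h1 <;>
    rcases Int.emod_two_eq_zero_or_one b with h2 | h2 <;>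
    simp [h1, h2, Prod.ext_iff] at h ⊢ <;> omega

lemma of_side {e : ℤ × ℤ} (he : (e.1 + e.2) % 2 = 1) (c : ℤ × ℤ)
    (h : c = eW e ∨ c = eE e ∨ c = eS e ∨ c = eN e) : e = lab c ∨ e = plab c := by
  obtain ⟨x, y⟩ := e
  simp only at he
  have hx := Int.emod_two_eq_zero_or_one x
  have hy := Int.emod_two_eq_zero_or_one y
  rcases h with rfl | rfl | rfl | rfl <;> simp only [lab, plab, eW, eE, eS, eN]
  · rcases hx with hx | hx <;> rcases hy with hy | hy
    · omega
    · simp [hx, hy, Prod.ext_iff]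
    · simp [hx, hy, Prod.ext_iff]
    · omega
  · rcases hx with hx | hx <;> rcases hy with hy | hy
    · omega
    · have e1 : (x + 1) % 2 = 1 := by omega
      have e2 : (y + 1) % 2 = 0 := by omega
      simp [e1, e2, Prod.ext_iff]
    · have e1 : (x + 1) % 2 = 0 := by omega
      have e2 : (y + 1) % 2 = 1 := by omega
      simp [e1, e2, Prod.ext_iff]
    · omega
  · rcases hx with hx | hx <;> rcases hy with hy | hy
    · omega
    · have e1 : (x + 1) % 2 = 1 := by omega
      simp [e1, hy, Prod.ext_iff]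
    · have e1 : (x + 1) % 2 = 0 := by omega
      simp [e1, hy, Prod.ext_iff]
    · omega
  · rcases hx with hx | hx <;> rcases hy with hy | hy
    · omega
    · have e2 : (y + 1) % 2 = 0 := by omega
      simp [hx, e2, Prod.ext_iff]
    · have e2 : (y + 1) % 2 = 1 := by omega
      simp [hx, e2, Prod.ext_iff]
    · omega

open Classical in
/-- the tile `e` joins the corners `c`, `d`: open labels `w`, deleted labels `D` -/
def TJ (D : Set (ℤ × ℤ)) (w : Finset (ℤ × ℤ)) (e c d : ℤ × ℤ) : Prop :=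
  (e ∈ D ∧ (e.1 + e.2) % 2 = 1 ∧ ((c = eS e ∧ d = eN e) ∨ (d = eS e ∧ c = eN e))) ∨
  (e ∉ D ∧ ((lab c = e ∧ nx w c = d) ∨ (lab d = e ∧ nx w d = c)))

variable {Λ D : Set (ℤ × ℤ)} {w : Finset (ℤ × ℤ)} {e c d : ℤ × ℤ}

lemma TJ.symm (h : TJ D w e c d) : TJ D w e d c := by
  unfold TJ at *; tauto

lemma nx_ne (w : Finset (ℤ × ℤ)) (c : ℤ × ℤ) : nx w c ≠ c := by
  intro h
  have h1 := SymmAux.plab_nx' w c
  rw [h] at h1
  exact lab_ne_plab c h1.symm

lemma TJ.ne (h : TJ D w e c d) : c ≠ d := by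
  rintro rfl
  rcases h with ⟨-, -, h | h⟩ | ⟨-, h | h⟩
  · have := h.1.symm.trans h.2
    unfold eS eN at this
    simp [Prod.ext_iff] at this
  · have := h.1.symm.trans h.2
    unfold eS eN at this
    simp [Prod.ext_iff] at this
  · exact nx_ne w c h.2
  · exact nx_ne w c h.2

/-- a tile joins only its own sides -/
lemma TJ.label (h : TJ D w e c d) : e = lab c ∨ e = plab c := by
  rcases h with ⟨-, h0, h | h⟩ | ⟨-, h | h⟩
  · exact of_side h0 c (Or.inr (Or.inr (Or.inl h.1)))
  · exact of_side h0 c (Or.inr (Or.inr (Or.inr h.2)))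
  · exact Or.inl h.1.symm
  · right
    have := SymmAux.plab_nx' w d
    rw [h.2] at this
    rw [this, h.1]

lemma nx_inj {w : Finset (ℤ × ℤ)} {a b : ℤ × ℤ} (h : nx w a = nx w b) : a = b := by
  rw [← pv_nx w a, h, pv_nx]

/-- a tile joins a side to at most one other side -/
lemma TJ.unique {d' : ℤ × ℤ} (h : TJ D w e c d) (h' : TJ D w e c d') : d = d' := by
  rcases h with ⟨hD, h0, h⟩ | ⟨hD, h⟩ <;> rcases h' with ⟨hD', h0', h'⟩ | ⟨hD', h'⟩
  · rcases h with h | h <;> rcases h' with h' | h'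
    · rw [h.2, h'.2]
    · have := h.1.symm.trans h'.2
      unfold eS eN at this
      simp [Prod.ext_iff] at this
    · have := h.2.symm.trans h'.1
      unfold eS eN at this
      simp [Prod.ext_iff] at this
    · rw [h.1, h'.1]
  · exact absurd hD hD'
  · exact absurd hD' hD
  · rcases h with h | h <;> rcases h' with h' | h'
    · rw [← h.2, ← h'.2]
    · exfalso
      have h1 := SymmAux.plab_nx' w d'
      rw [h'.2, h'.1] at h1
      exact lab_ne_plab c (h.1.trans h1.symm)
    · exfalso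
      have h1 := SymmAux.plab_nx' w d
      rw [h.2, h.1] at h1
      exact lab_ne_plab c (h'.1.trans h1.symm)
    · exact nx_inj (h.2.trans h'.2.symm)

/-- **the strand graph** of the in-plane world (open labels `w`, deleted labels `D`), tiles of `Λ` only -/
def SG (Λ D : Set (ℤ × ℤ)) (w : Finset (ℤ × ℤ)) : SimpleGraph (ℤ × ℤ) where
  Adj c d := ∃ e ∈ Λ, TJ D w e c d
  symm := ⟨fun _ _ ⟨e, he, h⟩ => ⟨e, he, h.symm⟩⟩
  loopless := ⟨fun _ ⟨_, _, h⟩ => h.ne rfl⟩

lemma SG_adj : (SG Λ D w).Adj c d ↔ ∃ e ∈ Λ, TJ D w e c d := Iff.rfl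

theorem SG_deg2 : Deg2 (SG Λ D w) := by
  rintro v a b c ⟨e1, -, h1⟩ ⟨e2, -, h2⟩ ⟨e3, -, h3⟩
  have key : ∀ {e e' x y : ℤ × ℤ}, TJ D w e v x → TJ D w e' v y → e = e' → x = y :=
    fun h h' he => by subst he; exact h.unique h'
  rcases h1.label with l1 | l1 <;> rcases h2.label with l2 | l2 <;> rcases h3.label with l3 | l3 <;>
    first
    | exact Or.inl (key h1 h2 (l1.trans l2.symm))
    | exact Or.inr (Or.inl (key h1 h3 (l1.trans l3.symm)))
    | exact Or.inr (Or.inr (key h2 h3 (l2.trans l3.symm)))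

/-- a corner one of whose tiles does not belong to `Λ` is an end -/
lemma isEnd_of_notMem (h : lab c ∉ Λ ∨ plab c ∉ Λ) : IsEnd (SG Λ D w) c := by
  rintro a b ⟨e1, he1, h1⟩ ⟨e2, he2, h2⟩
  have : e1 = e2 := by
    rcases h with h | h
    · rcases h1.label with l1 | l1
      · exact absurd (l1 ▸ he1) h
      · rcases h2.label with l2 | l2
        · exact absurd (l2 ▸ he2) h
        · rw [l1, l2]
    · rcases h1.label with l1 | l1
      · rcases h2.label with l2 | l2
        · rw [l1, l2]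
        · exact absurd (l2 ▸ he2) h
      · exact absurd (l1 ▸ he1) h
  subst this
  exact h1.unique h2

/-- a deleted tile does not join its west side -/
lemma not_TJ_eW (he : e ∈ D) : ¬ TJ D w e (eW e) d := by
  rintro (⟨-, -, h | h⟩ | ⟨h, -⟩)
  · have := h.1; unfold eW eS at this; simp [Prod.ext_iff] at this
  · have := h.2; unfold eW eN at this; simp [Prod.ext_iff] at this
  · exact h he

lemma not_TJ_eE (he : e ∈ D) : ¬ TJ D w e (eE e) d := by
  rintro (⟨-, -, h | h⟩ | ⟨h, -⟩)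
  · have := h.1; unfold eE eS at this; simp [Prod.ext_iff] at this
  · have := h.2; unfold eE eN at this; simp [Prod.ext_iff] at this
  · exact h he

/-- the west side of a deleted tile is an end -/
lemma isEnd_eW (he : e ∈ D) (ho : (e.1 + e.2) % 2 = 1) : IsEnd (SG Λ D w) (eW e) := by
  rintro a b ⟨e1, he1, h1⟩ ⟨e2, he2, h2⟩
  have h0 := of_side ho (eW e) (Or.inl rfl)
  have n1 : e1 ≠ e := fun h => not_TJ_eW he (h ▸ h1)
  have n2 : e2 ≠ e := fun h => not_TJ_eW he (h ▸ h2)
  have : e1 = e2 := by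
    rcases h1.label with l1 | l1 <;> rcases h2.label with l2 | l2 <;> rcases h0 with l0 | l0
    · exact absurd (l1.trans l0.symm) n1
    · rw [l1, l2]
    · exact absurd (l1.trans l0.symm) n1
    · exact absurd (l2.trans l0.symm) n2
    · exact absurd (l2.trans l0.symm) n2
    · exact absurd (l1.trans l0.symm) n1
    · rw [l1, l2]
    · exact absurd (l1.trans l0.symm) n1
  subst this
  exact h1.unique h2

/-- locality: the tile `e` only sees its own state -/
lemma TJ_congr {D' : Set (ℤ × ℤ)} {w' : Finset (ℤ × ℤ)} (hD : e ∈ D ↔ e ∈ D')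
    (hw : e ∉ D → (e ∈ w ↔ e ∈ w')) : TJ D w e c d ↔ TJ D' w' e c d := by
  have h1 : ∀ {a b : ℤ × ℤ}, e ∉ D → lab a = e → (nx w a = b ↔ nx w' a = b) := by
    intro a b hn ha
    unfold nx
    rw [ha]
    by_cases h : e ∈ w
    · rw [if_pos h, if_pos ((hw hn).1 h)]
    · rw [if_neg h, if_neg (fun h' => h ((hw hn).2 h'))]
  unfold TJ
  by_cases hd : e ∈ D
  · have hd' := hD.1 hd
    simp [hd, hd']
  · have hd' : e ∉ D' := fun h => hd (hD.2 h)
    simp only [hd, hd', false_and, false_or, not_false_iff, true_and]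
    constructor
    · rintro (h | h)
      · exact Or.inl ⟨h.1, (h1 hd h.1).1 h.2⟩
      · exact Or.inr ⟨h.1, (h1 hd h.1).1 h.2⟩
    · rintro (h | h)
      · exact Or.inl ⟨h.1, (h1 hd h.1).2 h.2⟩
      · exact Or.inr ⟨h.1, (h1 hd h.1).2 h.2⟩

/-- locality of the strand graph -/
lemma SG_congr {D' : Set (ℤ × ℤ)} {w' : Finset (ℤ × ℤ)} (hD : ∀ e ∈ Λ, (e ∈ D ↔ e ∈ D'))
    (hw : ∀ e ∈ Λ, e ∉ D → (e ∈ w ↔ e ∈ w')) : SG Λ D w = SG Λ D' w' := by
  ext c d
  rw [SG_adj, SG_adj]
  constructor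
  · rintro ⟨e, he, h⟩
    exact ⟨e, he, (TJ_congr (hD e he) (hw e he)).1 h⟩
  · rintro ⟨e, he, h⟩
    exact ⟨e, he, (TJ_congr (hD e he) (hw e he)).2 h⟩

/-- both sides of a joined pair are sides of the tile -/
lemma TJ.label' (h : TJ D w e c d) : e = lab d ∨ e = plab d := h.symm.label

end Pool.Agent.H13.W
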