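import Mathlib
import Pool.Agent.H13.W.Graph

set_option autoImplicit false
open Finset

/-! # The strip move

`up` = one row up in the tile frame. A natural tile moved one row up with flipped state joins the moved
sides. `Sim` : simulation of strand graphs. `StripMove` : the deleted row moves from the top of the strip
`S` to its bottom, the tiles of `S` go one row up with flipped state. -/

namespace Pool.Agent.H13.W

open Pool.Agent.H75.Perc Pool.Agent.H75.TwoArm Pool.Agent.H99.W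

/-- one row up -/
def up (c : ℤ × ℤ) : ℤ × ℤ := (c.1 - 1, c.2 + 1)

lemma up_inj {a b : ℤ × ℤ} (h : up a = up b) : a = b := by
  unfold up at h
  have h1 := congrArg Prod.fst h
  have h2 := congrArg Prod.snd h
  simp only at h1 h2
  exact Prod.ext (by omega) (by omega)

lemma up_lab (c : ℤ × ℤ) : lab (up c) = up (plab c) := by
  obtain ⟨a, b⟩ := c
  unfold up lab plab
  rcases Int.emod_two_eq_zero_or_one a with h | h <;>
    rcases Int.emod_two_eq_zero_or_one b with h' | h'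
  · have h1 : (a - 1) % 2 = 1 := by omega
    have h2 : (b + 1) % 2 = 1 := by omega
    simp [h, h', h1, h2]
  · have h1 : (a - 1) % 2 = 1 := by omega
    have h2 : (b + 1) % 2 = 0 := by omega
    simp [h, h', h1, h2]
  · have h1 : (a - 1) % 2 = 0 := by omega
    have h2 : (b + 1) % 2 = 1 := by omega
    simp [h, h', h1, h2]
  · have h1 : (a - 1) % 2 = 0 := by omega
    have h2 : (b + 1) % 2 = 0 := by omega
    simp [h, h', h1, h2]

lemma up_plab (c : ℤ × ℤ) : plab (up c) = up (lab c) := by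
  obtain ⟨a, b⟩ := c
  unfold up lab plab
  rcases Int.emod_two_eq_zero_or_one a with h | h <;>
    rcases Int.emod_two_eq_zero_or_one b with h' | h'
  · have h1 : (a - 1) % 2 = 1 := by omega
    have h2 : (b + 1) % 2 = 1 := by omega
    simp [h, h', h1, h2]
  · have h1 : (a - 1) % 2 = 1 := by omega
    have h2 : (b + 1) % 2 = 0 := by omega
    simp [h, h', h1, h2]
  · have h1 : (a - 1) % 2 = 0 := by omega
    have h2 : (b + 1) % 2 = 1 := by omega
    simp [h, h', h1, h2]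
  · have h1 : (a - 1) % 2 = 0 := by omega
    have h2 : (b + 1) % 2 = 0 := by omega
    simp [h, h', h1, h2]

lemma nxC_up_nxO (c : ℤ × ℤ) : nxC (up (nxO c)) = up c := by
  obtain ⟨a, b⟩ := c
  unfold up nxC nxO
  rcases Int.emod_two_eq_zero_or_one a with h | h <;>
    rcases Int.emod_two_eq_zero_or_one b with h' | h'
  · have h1 : (a - 1) % 2 = 1 := by omega
    have h2 : (b - 1 + 1) % 2 = 0 := by omega
    simp [h, h', h1]
  · have h1 : (a - 1 - 1) % 2 = 0 := by omega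
    have h2 : (b + 1) % 2 = 0 := by omega
    simp [h, h', h1, h2]
  · have h1 : (a + 1 - 1) % 2 = 1 := by omega
    have h2 : (b + 1) % 2 = 1 := by omega
    simp [h, h', h2]
  · have h1 : (a - 1) % 2 = 0 := by omega
    have h2 : (b + 1 + 1) % 2 = 1 := by omega
    simp [h, h', h1, h2]

lemma nxO_up_nxC (c : ℤ × ℤ) : nxO (up (nxC c)) = up c := by
  obtain ⟨a, b⟩ := c
  unfold up nxC nxO
  rcases Int.emod_two_eq_zero_or_one a with h | h <;>
    rcases Int.emod_two_eq_zero_or_one b with h' | h'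
  · have h1 : (a + 1 - 1) % 2 = 0 := by omega
    have h2 : (b + 1) % 2 = 1 := by omega
    simp [h, h', h2]
  · have h1 : (a - 1) % 2 = 1 := by omega
    have h2 : (b - 1 + 1) % 2 = 1 := by omega
    simp [h, h', h1]
  · have h1 : (a - 1) % 2 = 0 := by omega
    have h2 : (b + 1 + 1) % 2 = 0 := by omega
    simp [h, h', h1, h2]
  · have h1 : (a - 1 - 1) % 2 = 1 := by omega
    have h2 : (b + 1) % 2 = 0 := by omega
    simp [h, h', h1, h2]

variable {Λ D : Set (ℤ × ℤ)} {w w' : Finset (ℤ × ℤ)} {D' : Set (ℤ × ℤ)} {e c d : ℤ × ℤ}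

/-- a tile moved one row up with flipped state joins the moved sides -/
lemma TJ.up (hD : e ∉ D) (hD' : W.up e ∉ D') (hw : W.up e ∈ w' ↔ e ∉ w) (h : TJ D w e c d) :
    TJ D' w' (W.up e) (W.up c) (W.up d) := by
  have key : ∀ {c d : ℤ × ℤ}, lab c = e → nx w c = d →
      lab (W.up d) = W.up e ∧ nx w' (W.up d) = W.up c := by
    intro c d hc hd
    have h1 : lab (W.up d) = W.up e := by
      rw [up_lab, ← hd, SymmAux.plab_nx', hc]
    refine ⟨h1, ?_⟩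
    unfold nx at hd ⊢
    rw [h1]
    rw [hc] at hd
    by_cases he : e ∈ w
    · rw [if_pos he] at hd
      rw [if_neg (fun h => (hw.1 h) he), ← hd, nxC_up_nxO]
    · rw [if_neg he] at hd
      rw [if_pos (hw.2 he), ← hd, nxO_up_nxC]
  rcases h with ⟨h, -⟩ | ⟨-, h | h⟩
  · exact absurd h hD
  · exact Or.inr ⟨hD', Or.inr (key h.1 h.2)⟩
  · exact Or.inr ⟨hD', Or.inl (key h.1 h.2)⟩

/-- simulation of graphs -/
lemma sim {α : Type*} {G G' : SimpleGraph α} {R : α → α → Prop}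
    (h : ∀ u v u', G.Adj u v → R u u' → ∃ v', R v v' ∧ G'.Reachable u' v')
    {u v u' : α} (huv : G.Reachable u v) (hu : R u u') : ∃ v', R v v' ∧ G'.Reachable u' v' := by
  obtain ⟨p⟩ := huv
  induction p generalizing u' with
  | nil => exact ⟨u', hu, SimpleGraph.Reachable.refl _⟩
  | cons ha _ ih =>
    obtain ⟨v1, h1, h2⟩ := h _ _ _ ha hu
    obtain ⟨v2, h3, h4⟩ := ih h1
    exact ⟨v2, h3, h2.trans h4⟩

/-- `c` is a side of the tile `e` -/
def Sd (e c : ℤ × ℤ) : Prop := c = eW e ∨ c = eE e ∨ c = eS e ∨ c = eN e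

lemma TJ.sd (h : TJ D w e c d) : Sd e c := side_cases c h.label

lemma TJ.sd' (h : TJ D w e c d) : Sd e d := side_cases d h.label'

/-- one row down -/
def dn (c : ℤ × ℤ) : ℤ × ℤ := (c.1 + 1, c.2 - 1)

lemma eN_dn (e : ℤ × ℤ) : eN (dn e) = eS e := by
  unfold eN dn eS; simp

lemma up_eS (e : ℤ × ℤ) : up (eS e) = eN e := by
  unfold eN up eS; simp

lemma eS_ne_eN (e : ℤ × ℤ) : eS e ≠ eN e := by
  unfold eN eS; simp [Prod.ext_iff]

lemma eS_inj {a b : ℤ × ℤ} (h : eS a = eS b) : a = b := by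
  unfold eS at h
  have h1 := congrArg Prod.fst h
  have h2 := congrArg Prod.snd h
  simp only at h1 h2
  exact Prod.ext (by omega) (by omega)

/-- **The strip move**: outside the set of labels `Bl` the deleted row `D1` goes from the top of the strip
`S` to its bottom (`D2`), and the tiles of the strip go one row up with flipped state. -/
structure StripMove (Λ1 Λ2 D1 D2 : Set (ℤ × ℤ)) (w1 w2 : Finset (ℤ × ℤ)) (Bl S : Set (ℤ × ℤ)) :
    Prop where
  odd : ∀ e ∈ Λ1, (e.1 + e.2) % 2 = 1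
  plain : ∀ e ∈ Λ1, e ∉ Bl → e ∉ S → e ∉ D1 → e ∈ Λ2 ∧ e ∉ D2 ∧ (e ∈ w2 ↔ e ∈ w1)
  strip : ∀ e ∈ Λ1, e ∉ Bl → e ∈ S → e ∉ D1 ∧ up e ∈ Λ2 ∧ up e ∉ D2 ∧ (up e ∈ w2 ↔ e ∉ w1)
  del : ∀ e ∈ Λ1, e ∉ Bl → e ∈ D1 → (dn e ∈ S ∧ dn e ∈ Λ1 ∧ dn e ∉ Bl) ∨
    (dn e ∉ S ∧ e ∈ Λ2 ∧ e ∈ D2)
  sh1 : ∀ e ∈ Λ1, e ∉ Bl → e ∈ S → ∀ e' ∈ Λ1, e' ∉ Bl → e' ∉ S → e' ∉ D1 → ∀ c, Sd e c → Sd e' c →
    c = eS e ∧ e ∈ Λ2 ∧ e ∈ D2
  sh2 : ∀ e ∈ Λ1, e ∉ Bl → e ∈ S → ∀ e' ∈ Λ1, e' ∉ Bl → e' ∈ D1 → ∀ c, Sd e c → Sd e' c →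
    c = eS e' ∧ dn e' ∈ S

/-- the relation of the strip move -/
def SR (Λ1 D1 Bl S : Set (ℤ × ℤ)) (c c' : ℤ × ℤ) : Prop :=
  (c' = c ∧ ((∃ e ∈ Λ1, e ∉ Bl ∧ e ∉ S ∧ e ∉ D1 ∧ Sd e c) ∨
    (∃ e ∈ Λ1, e ∉ Bl ∧ e ∈ D1 ∧ (c = eN e ∨ (dn e ∉ S ∧ c = eS e))))) ∨
  (c' = up c ∧ ∃ e ∈ Λ1, e ∉ Bl ∧ e ∈ S ∧ Sd e c)

theorem StripMove.sim_step {Λ1 Λ2 D1 D2 : Set (ℤ × ℤ)} {w1 w2 : Finset (ℤ × ℤ)}
    {Bl S : Set (ℤ × ℤ)} (M : StripMove Λ1 Λ2 D1 D2 w1 w2 Bl S) {c d c' : ℤ × ℤ}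
    (h : (SG (Λ1 \ Bl) D1 w1).Adj c d) (hR : SR Λ1 D1 Bl S c c') :
    ∃ d', SR Λ1 D1 Bl S d d' ∧ (SG Λ2 D2 w2).Reachable c' d' := by
  obtain ⟨e, ⟨heΛ, heB⟩, hT⟩ := h
  have hsc := hT.sd
  have hsd := hT.sd'
  by_cases heS : e ∈ S
  · -- strip tile
    obtain ⟨h1, h2, h3, h4⟩ := M.strip e heΛ heB heS
    have hup : (SG Λ2 D2 w2).Adj (up c) (up d) := ⟨up e, h2, hT.up h1 h3 h4⟩
    have hRd : SR Λ1 D1 Bl S d (up d) := Or.inr ⟨rfl, e, heΛ, heB, heS, hsd⟩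
    rcases hR with ⟨rfl, hp | hn⟩ | ⟨rfl, -⟩
    · obtain ⟨e', k1, k2, k3, k4, k5⟩ := hp
      obtain ⟨j1, j2, j3⟩ := M.sh1 e heΛ heB heS e' k1 k2 k3 k4 _ hsc k5
      have ha : (SG Λ2 D2 w2).Adj c' (up c') := by
        refine ⟨e, j2, Or.inl ⟨j3, M.odd e heΛ, Or.inl ⟨j1, ?_⟩⟩⟩
        rw [j1, up_eS]
      exact ⟨up d, hRd, ha.reachable.trans hup.reachable⟩
    · exfalso
      obtain ⟨e', k1, k2, k3, k4⟩ := hn
      rcases k4 with k4 | ⟨k4, k5⟩
      · have := (M.sh2 e heΛ heB heS e' k1 k2 k3 _ hsc (Or.inr (Or.inr (Or.inr k4)))).1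
        exact eS_ne_eN e' (this.symm.trans k4)
      · exact k4 (M.sh2 e heΛ heB heS e' k1 k2 k3 _ hsc (Or.inr (Or.inr (Or.inl k5)))).2
    · exact ⟨up d, hRd, hup.reachable⟩
  · by_cases heD : e ∈ D1
    · -- deleted tile
      have hcd : (c = eS e ∧ d = eN e) ∨ (d = eS e ∧ c = eN e) := by
        rcases hT with ⟨-, -, h⟩ | ⟨h, -⟩
        · exact h
        · exact absurd heD h
      have hNN : ∀ x, x = eN e → SR Λ1 D1 Bl S x x := fun x hx =>
        Or.inl ⟨rfl, Or.inr ⟨e, heΛ, heB, heD, Or.inl hx⟩⟩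
      rcases M.del e heΛ heB heD with ⟨s1, s2, s3⟩ | ⟨s1, s2, s3⟩
      · rcases hcd with ⟨rfl, rfl⟩ | ⟨rfl, rfl⟩
        · -- from the south side to the north side
          refine ⟨eN e, hNN _ rfl, ?_⟩
          have hdn : Sd (dn e) (eS e) := Or.inr (Or.inr (Or.inr (eN_dn e).symm))
          rcases hR with ⟨rfl, hp | hn⟩ | ⟨rfl, -⟩
          · exfalso
            obtain ⟨e', k1, k2, k3, k4, k5⟩ := hp
            have := (M.sh1 (dn e) s2 s3 s1 e' k1 k2 k3 k4 _ hdn k5).1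
            exact eS_ne_eN (dn e) (this.symm.trans (eN_dn e).symm)
          · exfalso
            obtain ⟨e', k1, k2, k3, k4⟩ := hn
            rcases k4 with k4 | ⟨k4, k5⟩
            · have := (M.sh2 (dn e) s2 s3 s1 e' k1 k2 k3 _ hdn
                (Or.inr (Or.inr (Or.inr k4)))).1
              exact eS_ne_eN e' (this.symm.trans k4)
            · exact k4 (eS_inj k5 ▸ s1)
          · rw [up_eS]
        · -- from the north side to the south side
          have hdn : Sd (dn e) (eS e) := Or.inr (Or.inr (Or.inr (eN_dn e).symm))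
          refine ⟨up (eS e), Or.inr ⟨rfl, dn e, s2, s3, s1, hdn⟩, ?_⟩
          rw [up_eS]
          rcases hR with ⟨rfl, -⟩ | ⟨rfl, e', k1, k2, k3, k4⟩
          · exact SimpleGraph.Reachable.refl _
          · exfalso
            have := (M.sh2 e' k1 k2 k3 e heΛ heB heD _ k4 (Or.inr (Or.inr (Or.inr rfl)))).1
            exact eS_ne_eN e this.symm
      · have ha : (SG Λ2 D2 w2).Adj c d := ⟨e, s2, Or.inl ⟨s3, M.odd e heΛ, hcd⟩⟩
        have hRd : SR Λ1 D1 Bl S d d := by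
          rcases hcd with ⟨-, h⟩ | ⟨h, -⟩
          · exact hNN d h
          · exact Or.inl ⟨rfl, Or.inr ⟨e, heΛ, heB, heD, Or.inr ⟨s1, h⟩⟩⟩
        rcases hR with ⟨rfl, -⟩ | ⟨rfl, e', k1, k2, k3, k4⟩
        · exact ⟨d, hRd, ha.reachable⟩
        · exfalso
          exact s1 (M.sh2 e' k1 k2 k3 e heΛ heB heD _ k4 hsc).2
    · -- plain tile
      obtain ⟨h1, h2, h3⟩ := M.plain e heΛ heB heS heD
      have ha : (SG Λ2 D2 w2).Adj c d := by
        refine ⟨e, h1, (TJ_congr ?_ ?_).1 hT⟩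
        · exact ⟨fun h => absurd h heD, fun h => absurd h h2⟩
        · exact fun _ => h3.symm
      have hRd : SR Λ1 D1 Bl S d d := Or.inl ⟨rfl, Or.inl ⟨e, heΛ, heB, heS, heD, hsd⟩⟩
      rcases hR with ⟨rfl, -⟩ | ⟨rfl, e', k1, k2, k3, k4⟩
      · exact ⟨d, hRd, ha.reachable⟩
      · obtain ⟨j1, j2, j3⟩ := M.sh1 e' k1 k2 k3 e heΛ heB heS heD _ k4 hsc
        have hb : (SG Λ2 D2 w2).Adj (up c) c := by
          refine ⟨e', j2, Or.inl ⟨j3, M.odd e' k1, Or.inr ⟨j1, ?_⟩⟩⟩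
          rw [j1, up_eS]
        exact ⟨d, hRd, hb.reachable.trans ha.reachable⟩

theorem StripMove.reach {Λ1 Λ2 D1 D2 : Set (ℤ × ℤ)} {w1 w2 : Finset (ℤ × ℤ)}
    {Bl S : Set (ℤ × ℤ)} (M : StripMove Λ1 Λ2 D1 D2 w1 w2 Bl S) {c x c' : ℤ × ℤ}
    (h : (SG (Λ1 \ Bl) D1 w1).Reachable c x) (hR : SR Λ1 D1 Bl S c c') :
    ∃ x', SR Λ1 D1 Bl S x x' ∧ (SG Λ2 D2 w2).Reachable c' x' :=
  sim (fun _ _ _ h hR => M.sim_step h hR) h hR

/-- the part of a path after its last visit of `K` -/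
lemma last_in {α : Type*} {G : SimpleGraph α} {K : Set α} {z x : α} (hz : z ∈ K) (hx : x ∉ K)
    (h : G.Reachable z x) : ∃ u ∈ K, ∃ G' : SimpleGraph α,
      (∀ a b, G'.Adj a b ↔ G.Adj a b ∧ (a ∉ K ∨ b ∉ K)) ∧ G'.Reachable u x := by
  let G' : SimpleGraph α :=
    { Adj := fun a b => G.Adj a b ∧ (a ∉ K ∨ b ∉ K)
      symm := ⟨fun a b h => ⟨h.1.symm, h.2.symm⟩⟩
      loopless := ⟨fun a h => G.loopless.irrefl a h.1⟩ }
  have key : ∀ (a b : α) (p : G.Walk a b), b ∉ K →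
      (∃ u ∈ K, G'.Reachable u b) ∨ (a ∉ K ∧ G'.Reachable a b) := by
    intro a b p
    induction p with
    | nil => exact fun hb => Or.inr ⟨hb, SimpleGraph.Reachable.refl _⟩
    | @cons a1 a2 a3 ha _ ih =>
      intro hb
      rcases ih hb with h | ⟨h1, h2⟩
      · exact Or.inl h
      · by_cases hk : a1 ∈ K
        · left
          refine ⟨a1, hk, ?_⟩
          have : G'.Adj a1 a2 := ⟨ha, Or.inr h1⟩
          exact this.reachable.trans h2
        · right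
          refine ⟨hk, ?_⟩
          have : G'.Adj a1 a2 := ⟨ha, Or.inr h1⟩
          exact this.reachable.trans h2
  obtain ⟨p⟩ := h
  rcases key z x p hx with ⟨u, hu, h⟩ | ⟨h, -⟩
  · exact ⟨u, hu, G', fun _ _ => Iff.rfl, h⟩
  · exact absurd hz h

/-- corners at the labels of `Bl` -/
def KB (Bl : Set (ℤ × ℤ)) : Set (ℤ × ℤ) := {c | lab c ∈ Bl ∨ plab c ∈ Bl}

/-- **Comparison of two worlds by a strip move and a block in the second world.** -/
theorem StripMove.far {Λ1 Λ2 D1 D2 : Set (ℤ × ℤ)} {w1 w2 : Finset (ℤ × ℤ)}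
    {Bl S : Set (ℤ × ℤ)} (M : StripMove Λ1 Λ2 D1 D2 w1 w2 Bl S) {z z' x x' b : ℤ × ℤ}
    {I : Set (ℤ × ℤ)}
    (hI : ∀ u v, u ∈ I → v ∉ I → (SG Λ2 D2 w2).Adj u v → v = b)
    (hK : ∀ c ∈ KB Bl, ∀ c', SR Λ1 D1 Bl S c c' → c' ∈ I)
    (hzK : z ∈ KB Bl) (hz'I : z' ∈ I) (hxK : x ∉ KB Bl) (hxI : x ∉ I) (hx'I : x' ∉ I)
    (hxx : ∀ c', SR Λ1 D1 Bl S x c' → c' = x)
    (ex : IsEnd (SG Λ2 D2 w2) x) (ex' : IsEnd (SG Λ2 D2 w2) x')
    (h : (SG Λ1 D1 w1).Reachable z x) (h' : (SG Λ2 D2 w2).Reachable z' x') : x = x' := by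
  obtain ⟨u, hu, G', hG', hr⟩ := last_in hzK hxK h
  -- the last part uses only tiles outside `Bl`
  have hle : ∀ a b, G'.Adj a b → (SG (Λ1 \ Bl) D1 w1).Adj a b := by
    intro a b hab
    obtain ⟨⟨e, he, hT⟩, hk⟩ := (hG' a b).1 hab
    refine ⟨e, ⟨he, fun heB => ?_⟩, hT⟩
    rcases hk with hk | hk
    · apply hk
      rcases hT.label with h | h
      · exact Or.inl (h ▸ heB)
      · exact Or.inr (h ▸ heB)
    · apply hk
      rcases hT.label' with h | h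
      · exact Or.inl (h ▸ heB)
      · exact Or.inr (h ▸ heB)
  have hr2 : (SG (Λ1 \ Bl) D1 w1).Reachable u x :=
    hr.mono (fun a b hab => hle a b hab)
  -- the first step gives a related vertex
  have hne : u ≠ x := fun h => hxK (h ▸ hu)
  obtain ⟨p⟩ := hr2
  cases p with
  | nil => exact absurd rfl hne
  | @cons _ v _ ha q =>
    have hru : ∃ u', SR Λ1 D1 Bl S u u' := by
      obtain ⟨e, ⟨heΛ, heB⟩, hT⟩ := ha
      by_cases heS : e ∈ S
      · exact ⟨_, Or.inr ⟨rfl, e, heΛ, heB, heS, hT.sd⟩⟩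
      · by_cases heD : e ∈ D1
        · have hcd : (u = eS e ∧ v = eN e) ∨ (v = eS e ∧ u = eN e) := by
            rcases hT with ⟨-, -, h⟩ | ⟨h, -⟩
            · exact h
            · exact absurd heD h
          rcases M.del e heΛ heB heD with ⟨s1, s2, s3⟩ | ⟨s1, s2, s3⟩
          · rcases hcd with ⟨h1, h2⟩ | ⟨h1, h2⟩
            · refine ⟨_, Or.inr ⟨rfl, dn e, s2, s3, s1, ?_⟩⟩
              rw [h1]
              exact Or.inr (Or.inr (Or.inr (eN_dn e).symm))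
            · exact ⟨_, Or.inl ⟨rfl, Or.inr ⟨e, heΛ, heB, heD, Or.inl h2⟩⟩⟩
          · rcases hcd with ⟨h1, h2⟩ | ⟨h1, h2⟩
            · exact ⟨_, Or.inl ⟨rfl, Or.inr ⟨e, heΛ, heB, heD, Or.inr ⟨s1, h1⟩⟩⟩⟩
            · exact ⟨_, Or.inl ⟨rfl, Or.inr ⟨e, heΛ, heB, heD, Or.inl h2⟩⟩⟩
        · exact ⟨_, Or.inl ⟨rfl, Or.inl ⟨e, heΛ, heB, heS, heD, hT.sd⟩⟩⟩
    obtain ⟨u', hu'⟩ := hru
    obtain ⟨x1, hx1, hr3⟩ := M.reach (SimpleGraph.Reachable.trans ha.reachable ⟨q⟩) hu'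
    rw [hxx x1 hx1] at hr3
    have hu'I : u' ∈ I := hK u hu u' hu'
    obtain ⟨a1, -, -, hb, k1⟩ := last_exit hI hu'I hxI hr3
    obtain ⟨a2, ha2, hab2, -, k2⟩ := last_exit hI hz'I hx'I h'
    -- `b` is an end outside `I`
    have eb : IsEnd (off (SG Λ2 D2 w2) I) b := by
      intro p1 p2 h1 h2
      rcases (SG_deg2 (Λ := Λ2) (D := D2) (w := w2)) b a2 p1 p2 hab2.symm h1.1 h2.1 with h | h | h
      · exact absurd (h ▸ ha2) h1.2.2
      · exact absurd (h ▸ ha2) h2.2.2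
      · exact h
    by_cases hbx : b = x
    · -- the strand ends at `b`
      by_cases hbx' : b = x'
      · rw [← hbx, hbx']
      · exfalso
        -- `b = x` is an end of the graph with a neighbour inside
        subst hbx
        obtain ⟨p⟩ := k2
        cases p with
        | nil => exact hbx' rfl
        | @cons _ v2 _ ha3 _ =>
          have := ex a2 v2 hab2.symm ha3.1
          exact ha3.2.2 (this ▸ ha2)
    · rcases ends_two (SG_deg2.off I) eb (ex.off I) (ex'.off I) k1 k2 hbx with h | h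
      · exfalso
        subst h
        obtain ⟨p⟩ := k1
        cases p with
        | nil => exact hbx rfl
        | @cons _ v2 _ ha3 _ =>
          have := ex' a2 v2 hab2.symm ha3.1
          exact ha3.2.2 (this ▸ ha2)
      · exact h.symm

end Pool.Agent.H13.W
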