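import Mathlib
import Pool.Agent.H58.W.NP
import Pool.Agent.H5.C3.Gen

set_option autoImplicit false
open Finset Filter Topology

/-! # Route W, top of W-D: Cardy's formula for generic shapes from fine plates and natural = plates -/

namespace Pool.Agent.H13.W

open Pool.Agent.Q1.M4 (Cell)
open Pool.Agent.H21.FM (Shape qn)
open Pool.Agent.H19.RH (Cht lam)
open Pool.Agent.H13.Q1.Four (cardy)
open Pool.Agent.H14.FM (ic)
open Pool.Agent.H50.W (rf qpl)
open Pool.Agent.H58.W (plV EndSt NearSt)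
open Pool.Agent.H5.C3 (Gen StShapeG)

open Classical in
/-- **The sides of the chords**: the horizontal side between the cells `(X, Y - 1)` and `(X, Y)` of `Q`
is in a chord iff the maximal inner segment which contains it ends on the right at a reflex corner. -/
noncomputable def chG (Q : Finset Cell) : Finset Cell := Q.filter fun c =>
  (c.1, c.2 - 1) ∈ Q ∧ ∃ b : ℤ, c.1 < b ∧
    (∀ x, c.1 ≤ x → x < b → (x, c.2) ∈ Q ∧ (x, c.2 - 1) ∈ Q) ∧
    ¬ ((b, c.2) ∈ Q ↔ (b, c.2 - 1) ∈ Q)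

/-- **Output of W-E**: the pivotal bounds for the blocks of the chords of a generic shape. -/
def StNP : Prop := ∀ S : Shape, Gen S.P.Q → ∃ (b : ℤ) (hb : ∀ c ∈ chG S.P.Q, c.1 < b),
  EndSt S (chG S.P.Q) b hb ∧ NearSt S (chG S.P.Q) b hb

/-- **Output of W-D (S4)**: Cardy's formula for generic shapes cut by chords of fine fair plates. -/
def StPl : Prop := ∀ S : Shape, Gen S.P.Q → ∀ φ : ℂ → ℂ, Cht S.P ic ic φ → ∀ b : ℤ,
  (∀ c ∈ chG S.P.Q, c.1 < b) → ∀ N1 : ℕ, 0 < N1 → ∀ ε > (0 : ℝ), ∃ m0 : ℕ, ∀ m ≥ m0,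
    ∃ M0 : ℕ, ∀ M' ≥ M0, ∀ hM : 0 < N1 * m * M', ∃ h0 : ℕ, ∀ h ≥ h0,
      |qpl (rf S (N1 * m * M') hM) h (plV (chG S.P.Q) b (N1 * m) M') -
        cardy (lam S.P ic ic S.m2 S.m3 S.m4 φ)| ≤ ε

/-- **Top of W-D.** -/
theorem stShapeG_of (hNP : StNP) (hPl : StPl) : StShapeG := by
  intro S hS φ hφ ε hε
  obtain ⟨b, hb, hE, hN⟩ := hNP S hS
  obtain ⟨N1, hN1, m1, hm1⟩ := Pool.Agent.H58.W.np S (chG S.P.Q) b hb hE hN (half_pos hε)
  obtain ⟨m2, hm2⟩ := hPl S hS φ hφ b hb N1 hN1 (ε / 2) (half_pos hε)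
  set m := max (max m1 m2) 1 with hm
  have hmp : 0 < m := lt_of_lt_of_le one_pos (le_max_right _ _)
  obtain ⟨M1, hM1⟩ := hm1 m ((le_max_left _ _).trans (le_max_left _ _))
  obtain ⟨M2, hM2⟩ := hm2 m ((le_max_right _ _).trans (le_max_left _ _))
  set M' := max (max M1 M2) 1 with hM'
  have hMp : 0 < M' := lt_of_lt_of_le one_pos (le_max_right _ _)
  have hM : 0 < N1 * m * M' := Nat.mul_pos (Nat.mul_pos hN1 hmp) hMp
  obtain ⟨h1, hh1⟩ := hM1 M' ((le_max_left _ _).trans (le_max_left _ _))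
  obtain ⟨h2, hh2⟩ := hM2 M' ((le_max_right _ _).trans (le_max_left _ _)) hM
  refine ⟨N1 * m * M', hM, ?_⟩
  filter_upwards [eventually_ge_atTop (max h1 h2)] with h hh
  have k1 := hh1 h ((le_max_left _ _).trans hh) hM
  have k2 := hh2 h ((le_max_right _ _).trans hh)
  calc |qn S (N1 * m * M' * h) - cardy (lam S.P ic ic S.m2 S.m3 S.m4 φ)|
      ≤ |qn S (N1 * m * M' * h) - qpl (rf S (N1 * m * M') hM) h (plV (chG S.P.Q) b (N1 * m) M')| +
        |qpl (rf S (N1 * m * M') hM) h (plV (chG S.P.Q) b (N1 * m) M') -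
          cardy (lam S.P ic ic S.m2 S.m3 S.m4 φ)| := by
        have e : qn S (N1 * m * M' * h) - cardy (lam S.P ic ic S.m2 S.m3 S.m4 φ) =
          (qn S (N1 * m * M' * h) -
            qpl (rf S (N1 * m * M') hM) h (plV (chG S.P.Q) b (N1 * m) M')) +
          (qpl (rf S (N1 * m * M') hM) h (plV (chG S.P.Q) b (N1 * m) M') -
            cardy (lam S.P ic ic S.m2 S.m3 S.m4 φ)) := by ring
        rw [e]
        exact abs_add_le _ _
    _ ≤ ε := by linarith

end Pool.Agent.H13.W
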