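import Mathlib
import Pool.Agent.H47.W.Room4
import Pool.Agent.H82.W.Simu

set_option autoImplicit false
open Finset

/-! # Solid rectangles, part 1: strands of one world

Tile coordinates: tile `(x, y)` = label `vt x y = lt (x, y)`; west side `vt x y`, east side `vt (x + 1) y`, south
side `hz x y`, north side `hz x (y + 1)`.

`K` = tiles `xl ≤ x < xb`, `ya ≤ y < yb`. State of the line `Y` in the tile column `x` : `σ x Y` (`true` = open): a
natural tile `(x, y)` is open iff `σ x y`, and `σ x (y + 1) = σ x y`; a deleted tile flips: `σ x (y + 1) = !σ x y`.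
A ring of thickness one around `K` obeys the same rule (columns `xl - 1` and `xb`, rows `ya - 1` and `yb`; the
tiles of the ring need not belong to `Λ`).

Every side circles a node (lattice point of the tile frame): `hz x Y` the node `(κ, Y)`, `κ = x` or `x + 1`;
`vt X y` the node `(X, y)` or `(X, y + 1)`.

Types of the columns `X` (`CT`): `junk`: the two sides of the column have the same state at the lines `ya` and `yb`
(anything between); `gap`: different states on all lines; `up d` : same states for `Y ≤ d`, different for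
`d < Y` (the end `vt X d` of a strand which goes up); `lo d` : different for `Y ≤ d`, same for `d < Y`.

`Solid.closed` : the junk sides are closed under the tiles, the column is kept. `Solid.zig` : all sides of the
strand of a column are joined. -/

namespace Pool.Agent.H13.W

open Pool.Agent.H75.Perc Pool.Agent.H75.TwoArm Pool.Agent.H99.W Pool.Agent.H47.W

namespace Sol

/-- type of a column -/
inductive CT where
  | junk : CT
  | gap : CT
  | up (d : ℤ) : CT
  | lo (d : ℤ) : CT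

/-- the strand of the column passes the node at the line `Y` -/
def CT.nj : CT → ℤ → Prop
  | .junk, _ => False
  | .gap, _ => True
  | .up d, Y => d ≤ Y
  | .lo d, Y => Y ≤ d + 1

/-- parity of the circled nodes -/
def pb (s : Bool) : ℤ := if s then 1 else 0

/-- column circled by `hz x Y` -/
def kap (σ : ℤ → ℤ → Bool) (x Y : ℤ) : ℤ := if (x + Y) % 2 = pb (σ x Y) then x else x + 1

/-- line circled by `vt X y` -/
def rho (σ : ℤ → ℤ → Bool) (X y : ℤ) : ℤ := if (X + y) % 2 = pb (σ X y) then y else y + 1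

/-- circled node -/
def nd (σ : ℤ → ℤ → Bool) (c : ℤ × ℤ) : ℤ × ℤ :=
  if (c.1 + c.2) % 2 = 0 then
    (kap σ ((c.1 + c.2) / 2 - 1) (c.2 - (c.1 + c.2) / 2), c.2 - (c.1 + c.2) / 2)
  else ((c.1 + c.2) / 2, rho σ ((c.1 + c.2) / 2) (c.2 - (c.1 + c.2) / 2 - 1))

variable {σ : ℤ → ℤ → Bool}

lemma nd_hz (x Y : ℤ) : nd σ (hz x Y) = (kap σ x Y, Y) := by
  unfold nd hz
  have h1 : (x + 1 - Y + (x + 1 + Y)) % 2 = 0 := by omega
  have h2 : (x + 1 - Y + (x + 1 + Y)) / 2 = x + 1 := by omega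
  simp only [h1, h2, if_true]
  have h3 : x + 1 + Y - (x + 1) = Y := by ring
  have h4 : x + 1 - 1 = x := by ring
  rw [h3, h4]

lemma nd_vt (x y : ℤ) : nd σ (vt x y) = (x, rho σ x y) := by
  unfold nd vt
  have h1 : ¬ (x - y + (x + y + 1)) % 2 = 0 := by omega
  have h2 : (x - y + (x + y + 1)) / 2 = x := by omega
  simp only [h1, h2, if_false]
  have h3 : x + y + 1 - x - 1 = y := by ring
  rw [h3]

/-- the column condition -/
def ColOK (σ : ℤ → ℤ → Bool) (ya yb X : ℤ) : CT → Prop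
  | .junk => σ (X - 1) ya = σ X ya ∧ σ (X - 1) yb = σ X yb
  | .gap => ∀ Y, ya ≤ Y → Y ≤ yb → σ (X - 1) Y ≠ σ X Y
  | .up d => ya < d ∧ d < yb ∧ (∀ Y, ya ≤ Y → Y ≤ d → σ (X - 1) Y = σ X Y) ∧
      (∀ Y, d < Y → Y ≤ yb → σ (X - 1) Y ≠ σ X Y) ∧ σ X (d - 1) = σ X d
  | .lo d => ya ≤ d ∧ d + 2 ≤ yb ∧ (∀ Y, ya ≤ Y → Y ≤ d → σ (X - 1) Y ≠ σ X Y) ∧
      (∀ Y, d < Y → Y ≤ yb → σ (X - 1) Y = σ X Y) ∧ σ X (d + 2) = σ X (d + 1)

/-- **A solid rectangle.** -/
structure Solid (Λ D : Set (ℤ × ℤ)) (w : Finset (ℤ × ℤ)) (xl xb ya yb : ℤ) (σ : ℤ → ℤ → Bool)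
    (ct : ℤ → CT) : Prop where
  hx : xl ≤ xb
  hy : ya ≤ yb
  rule : ∀ x y, xl - 1 ≤ x → x ≤ xb → ya - 1 ≤ y → y ≤ yb → vt x y ∈ Λ →
    (vt x y ∈ D ∧ σ x (y + 1) ≠ σ x y) ∨
      (vt x y ∉ D ∧ σ x (y + 1) = σ x y ∧ (vt x y ∈ w ↔ σ x y = true))
  inL : ∀ x y, xl ≤ x → x < xb → ya ≤ y → y < yb → vt x y ∈ Λ
  lo : ∀ x, xl - 1 ≤ x → x ≤ xb → σ x (ya - 1) = σ x ya
  hi : ∀ x, xl - 1 ≤ x → x ≤ xb → σ x (yb + 1) = σ x yb
  jl : ct xl = .junk
  jr : ct xb = .junk
  col : ∀ X, xl ≤ X → X ≤ xb → ColOK σ ya yb X (ct X)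

/-- node of the box -/
def Box (xl xb ya yb X Y : ℤ) : Prop := xl ≤ X ∧ X ≤ xb ∧ ya ≤ Y ∧ Y ≤ yb

/-- the node does not belong to the junk -/
def NJ (xl xb ya yb : ℤ) (ct : ℤ → CT) (p : ℤ × ℤ) : Prop :=
  Box xl xb ya yb p.1 p.2 → (ct p.1).nj p.2

variable {Λ D : Set (ℤ × ℤ)} {w : Finset (ℤ × ℤ)} {xl xb ya yb : ℤ} {ct : ℤ → CT}

lemma bool_ne {a b : Bool} (h : a ≠ b) : pb a = 1 - pb b := by
  cases a <;> cases b <;> simp_all [pb]

lemma bool_ne3 {a b c : Bool} (h : a ≠ b) (h' : b ≠ c) : a = c := by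
  cases a <;> cases b <;> cases c <;> simp_all

lemma pb_cases (s : Bool) : pb s = 0 ∨ pb s = 1 := by
  cases s <;> simp [pb]

/-- where the strand of a column begins or ends, all four states are equal -/
theorem Solid.n1 (H : Solid Λ D w xl xb ya yb σ ct) {X y : ℤ} (hX : xl ≤ X) (hX' : X ≤ xb)
    (hy : ya - 1 ≤ y) (hy' : y ≤ yb)
    (h : ¬ (NJ xl xb ya yb ct (X, y) ↔ NJ xl xb ya yb ct (X, y + 1))) :
    σ (X - 1) y = σ X y ∧ σ (X - 1) (y + 1) = σ X y ∧ σ X (y + 1) = σ X y := by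
  have hc := H.col X hX hX'
  have hyy := H.hy
  have l1 := H.lo X (by omega) hX'
  have l2 := H.lo (X - 1) (by omega) (by omega)
  have h1 := H.hi X (by omega) hX'
  have h2 := H.hi (X - 1) (by omega) (by omega)
  unfold NJ Box at h
  simp only at h
  rcases eq_or_lt_of_le hy with rfl | hy1
  · -- the bottom ring row
    have e0 : ya - 1 + 1 = ya := by ring
    rw [e0] at h ⊢
    have hb : σ (X - 1) ya = σ X ya := by
      cases hct : ct X with
      | junk => rw [hct] at hc; exact hc.1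
      | gap => exfalso; rw [hct] at h; apply h; simp only [CT.nj]; tauto
      | up d => rw [hct] at hc; exact hc.2.2.1 ya le_rfl hc.1.le
      | lo d =>
        exfalso; rw [hct] at h hc; apply h; simp only [CT.nj]
        have := hc.1
        constructor
        · intro _ _; omega
        · intro _ h; omega
    rw [l1, l2, hb]
    exact ⟨rfl, rfl, rfl⟩
  rcases eq_or_lt_of_le hy' with rfl | hy2
  · have hb : σ (X - 1) y = σ X y := by
      cases hct : ct X with
      | junk => rw [hct] at hc; exact hc.2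
      | gap => exfalso; rw [hct] at h; apply h; simp only [CT.nj]; tauto
      | up d =>
        exfalso; rw [hct] at h hc; apply h; simp only [CT.nj]
        have := hc.2.1
        constructor
        · intro _ h; omega
        · intro _ h; omega
      | lo d => rw [hct] at hc; exact hc.2.2.2.1 y (by have := hc.2.1; omega) le_rfl
    rw [h1, h2, hb]
    exact ⟨rfl, rfl, rfl⟩
  cases hct : ct X with
  | junk => exfalso; rw [hct] at h; apply h; simp only [CT.nj]; constructor <;> intro h <;> exfalso <;> exact h (by omega)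
  | gap => exfalso; rw [hct] at h; apply h; simp only [CT.nj]; tauto
  | up d =>
    rw [hct] at h hc
    simp only [CT.nj] at h
    have hd : y + 1 = d := by
      by_contra hne
      apply h
      constructor
      · intro h3 _
        have := h3 (by omega)
        omega
      · intro h3 _
        have := h3 (by omega)
        omega
    subst hd
    have e1 := hc.2.2.1 y (by omega) (by omega)
    have e2 := hc.2.2.1 (y + 1) (by omega) (by omega)
    have e3 := hc.2.2.2.2
    have e0 : y + 1 - 1 = y := by ring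
    rw [e0] at e3
    refine ⟨e1, ?_, ?_⟩
    · rw [e2, e3]
    · rw [e3]
  | lo d =>
    rw [hct] at h hc
    simp only [CT.nj] at h
    have hd : y = d + 1 := by
      by_contra hne
      apply h
      constructor
      · intro h3 _
        have := h3 (by omega)
        omega
      · intro h3 _
        have := h3 (by omega)
        omega
    subst hd
    have e1 := hc.2.2.2.1 (d + 1) (by omega) (by omega)
    have e2 := hc.2.2.2.1 (d + 2) (by omega) (by omega)
    have e3 := hc.2.2.2.2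
    have e0 : d + 1 + 1 = d + 2 := by ring
    rw [e0]
    refine ⟨e1, ?_, ?_⟩
    · rw [e2, e3]
    · rw [e3]

/-- the arcs of a natural tile, state `s` -/
lemma arcs {s : Bool} {x y : ℤ} (h0 : vt x y ∉ D) (hs : vt x y ∈ w ↔ s = true) {c d : ℤ × ℤ}
    (h : TJ D w (vt x y) c d) :
    ((x + y) % 2 = pb s ∧ ((c = vt x y ∧ d = hz x y) ∨ (c = hz x y ∧ d = vt x y) ∨
      (c = vt (x + 1) y ∧ d = hz x (y + 1)) ∨ (c = hz x (y + 1) ∧ d = vt (x + 1) y))) ∨
    ((x + y) % 2 ≠ pb s ∧ ((c = vt x y ∧ d = hz x (y + 1)) ∨ (c = hz x (y + 1) ∧ d = vt x y) ∨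
      (c = vt (x + 1) y ∧ d = hz x y) ∨ (c = hz x y ∧ d = vt (x + 1) y))) := by
  have ho := vt_odd x y
  have e1 : (vt x y).1 % 2 = (x + y) % 2 := by
    show (x - y) % 2 = (x + y) % 2
    omega
  by_cases hp : (x + y) % 2 = pb s
  · left
    refine ⟨hp, ?_⟩
    have hA : (vt x y).1 % 2 = 1 ↔ vt x y ∈ w := by
      rw [e1, hp, hs]; cases s <;> simp [pb]
    have := Pool.Agent.H82.W.TJ_B ho h0 hA h
    rw [eS_vt, eW_vt, eE_vt, eN_vt] at this
    tauto
  · right
    refine ⟨hp, ?_⟩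
    have hA : (vt x y).1 % 2 = 1 ↔ vt x y ∉ w := by
      rw [e1, hs]
      rcases pb_cases s with h2 | h2 <;> cases s <;> simp_all [pb]
    have := Pool.Agent.H82.W.TJ_A ho h0 hA h
    rw [eS_vt, eW_vt, eE_vt, eN_vt] at this
    tauto

/-- **The local lemma**: a tile joins sides of the same column, and keeps the junk. -/
theorem Solid.local (H : Solid Λ D w xl xb ya yb σ ct) {x y : ℤ} (hx : xl - 1 ≤ x) (hx' : x ≤ xb)
    (hy : ya - 1 ≤ y) (hy' : y ≤ yb) (hL : vt x y ∈ Λ) {c d : ℤ × ℤ} (h : TJ D w (vt x y) c d) :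
    (nd σ c).1 = (nd σ d).1 ∧ (NJ xl xb ya yb ct (nd σ c) ↔ NJ xl xb ya yb ct (nd σ d)) := by
  -- lines of the west side
  -- lines of the east side
  have hE : ∀ Y, (x + 1 + Y) % 2 = pb (σ x y) → (Y = y ∨ Y = y + 1) →
      (NJ xl xb ya yb ct (x + 1, rho σ (x + 1) y) ↔ NJ xl xb ya yb ct (x + 1, Y)) := by
    intro Y hp hY
    by_cases hxb : x = xb
    · unfold NJ Box; constructor <;> intro _ h <;> simp only at h <;> omega
    have hn := H.n1 (X := x + 1) (y := y) (by omega) (by omega) hy hy'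
    have e0 : x + 1 - 1 = x := by ring
    rw [e0] at hn
    by_cases hiff : (NJ xl xb ya yb ct (x + 1, y) ↔ NJ xl xb ya yb ct (x + 1, y + 1))
    · unfold rho
      split_ifs <;> rcases hY with rfl | rfl <;> tauto
    · have := (hn hiff).1
      unfold rho
      rw [← this]
      rcases hY with rfl | rfl
      · rw [if_pos hp]
      · rw [if_neg]
        have := pb_cases (σ x y)
        omega
  rcases H.rule x y hx hx' hy hy' hL with ⟨hD, hs⟩ | ⟨hD, hs, hw⟩
  · -- a deleted tile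
    have hSN : (c = hz x y ∧ d = hz x (y + 1)) ∨ (d = hz x y ∧ c = hz x (y + 1)) := by
      rcases h with ⟨-, -, h⟩ | ⟨h, -⟩
      · rw [eS_vt, eN_vt] at h; exact h
      · exact absurd hD h
    have hk : kap σ x (y + 1) = kap σ x y := by
      unfold kap
      have h1 := bool_ne hs
      have h2 := pb_cases (σ x y)
      rw [h1]
      split_ifs <;> omega
    have hn : NJ xl xb ya yb ct (kap σ x y, y) ↔ NJ xl xb ya yb ct (kap σ x y, y + 1) := by
      by_contra hcon
      have hk1 : kap σ x y = x ∨ kap σ x y = x + 1 := by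
        unfold kap; split_ifs <;> simp
      by_cases hr : xl ≤ kap σ x y ∧ kap σ x y ≤ xb
      · have := H.n1 hr.1 hr.2 hy hy' hcon
        rcases hk1 with hk1 | hk1 <;> rw [hk1] at this
        · exact hs this.2.2
        · have e0 : x + 1 - 1 = x := by ring
          rw [e0] at this
          exact hs (this.2.1.trans this.1.symm)
      · apply hcon
        unfold NJ Box
        simp only
        constructor <;> intro _ h3 <;> exact absurd ⟨h3.1, h3.2.1⟩ hr
    rcases hSN with ⟨rfl, rfl⟩ | ⟨rfl, rfl⟩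
    · rw [nd_hz, nd_hz, hk]; exact ⟨rfl, hn⟩
    · rw [nd_hz, nd_hz, hk]; exact ⟨rfl, hn.symm⟩
  · rcases arcs hD hw h with ⟨hp, h⟩ | ⟨hp, h⟩
    · have hk : kap σ x y = x := by unfold kap; rw [if_pos hp]
      have hk' : kap σ x (y + 1) = x + 1 := by
        unfold kap; rw [hs, if_neg]
        have := pb_cases (σ x y)
        omega
      have hr : rho σ x y = y := by unfold rho; rw [if_pos hp]
      have hE1 := hE (y + 1) (by omega) (Or.inr rfl)
      rcases h with ⟨rfl, rfl⟩ | ⟨rfl, rfl⟩ | ⟨rfl, rfl⟩ | ⟨rfl, rfl⟩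
      · rw [nd_vt, nd_hz, hk, hr]; simp
      · rw [nd_vt, nd_hz, hk, hr]; simp
      · rw [nd_vt, nd_hz, hk']; exact ⟨rfl, hE1⟩
      · rw [nd_vt, nd_hz, hk']; exact ⟨rfl, hE1.symm⟩
    · have hk : kap σ x y = x + 1 := by unfold kap; rw [if_neg hp]
      have hk' : kap σ x (y + 1) = x := by
        unfold kap; rw [hs, if_pos]
        have := pb_cases (σ x y)
        omega
      have hr : rho σ x y = y + 1 := by unfold rho; rw [if_neg hp]
      have hE1 := hE y (by have := pb_cases (σ x y); omega) (Or.inl rfl)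
      rcases h with ⟨rfl, rfl⟩ | ⟨rfl, rfl⟩ | ⟨rfl, rfl⟩ | ⟨rfl, rfl⟩
      · rw [nd_vt, nd_hz, hk', hr]; simp
      · rw [nd_vt, nd_hz, hk', hr]; simp
      · rw [nd_vt, nd_hz, hk]; exact ⟨rfl, hE1⟩
      · rw [nd_vt, nd_hz, hk]; exact ⟨rfl, hE1.symm⟩

/-- the tiles of a side which circles a node of the box -/
lemma Solid.tile_of_box (H : Solid Λ D w xl xb ya yb σ ct) {c e : ℤ × ℤ}
    (hb : Box xl xb ya yb (nd σ c).1 (nd σ c).2) (he : e = lab c ∨ e = plab c) :
    ∃ x y, e = vt x y ∧ xl - 1 ≤ x ∧ x ≤ xb ∧ ya - 1 ≤ y ∧ y ≤ yb := by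
  unfold Box at hb
  rcases hz_or_vt c with ⟨x, y, rfl⟩ | ⟨x, y, rfl⟩
  · rw [nd_hz] at hb
    simp only at hb
    have hk : kap σ x y = x ∨ kap σ x y = x + 1 := by unfold kap; split_ifs <;> simp
    have h2 : e = vt x y ∨ e = vt x (y - 1) := by
      rcases tiles_hz x y with ⟨h1, h2⟩ | ⟨h1, h2⟩ <;> rw [h1, h2] at he <;> tauto
    rcases h2 with rfl | rfl
    · exact ⟨x, y, rfl, by omega, by omega, by omega, by omega⟩
    · exact ⟨x, y - 1, rfl, by omega, by omega, by omega, by omega⟩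
  · rw [nd_vt] at hb
    simp only at hb
    have hk : rho σ x y = y ∨ rho σ x y = y + 1 := by unfold rho; split_ifs <;> simp
    have h2 : e = vt x y ∨ e = vt (x - 1) y := by
      rcases tiles_vt x y with ⟨h1, h2⟩ | ⟨h1, h2⟩ <;> rw [h1, h2] at he <;> tauto
    rcases h2 with rfl | rfl
    · exact ⟨x, y, rfl, by omega, by omega, by omega, by omega⟩
    · exact ⟨x - 1, y, rfl, by omega, by omega, by omega, by omega⟩

lemma not_NJ {p : ℤ × ℤ} (h : ¬ NJ xl xb ya yb ct p) : Box xl xb ya yb p.1 p.2 ∧ ¬ (ct p.1).nj p.2 := by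
  unfold NJ at h
  push Not at h
  exact h

/-- **The junk is closed.** -/
theorem Solid.closed (H : Solid Λ D w xl xb ya yb σ ct) {c d : ℤ × ℤ}
    (h : (SG Λ D w).Adj c d) : NJ xl xb ya yb ct (nd σ c) ↔ NJ xl xb ya yb ct (nd σ d) := by
  have key : ∀ c d, (SG Λ D w).Adj c d → ¬ NJ xl xb ya yb ct (nd σ c) →
      ¬ NJ xl xb ya yb ct (nd σ d) := by
    rintro c d ⟨e, he, h⟩ hc
    obtain ⟨x, y, rfl, h1, h2, h3, h4⟩ := H.tile_of_box (not_NJ hc).1 h.label
    exact fun h' => hc ((H.local h1 h2 h3 h4 he h).2.2 h')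
  have h1 := key c d h
  have h2 := key d c h.symm
  tauto

theorem Solid.closed' (H : Solid Λ D w xl xb ya yb σ ct) {c d : ℤ × ℤ}
    (h : (SG Λ D w).Reachable c d) : NJ xl xb ya yb ct (nd σ c) ↔ NJ xl xb ya yb ct (nd σ d) := by
  obtain ⟨p⟩ := h
  induction p with
  | nil => rfl
  | cons h _ ih => exact (H.closed h).trans ih

/-! ### The strand of a column -/

lemma arcWS {s : Bool} {x y : ℤ} (h0 : vt x y ∉ D) (hs : vt x y ∈ w ↔ s = true)
    (hp : (x + y) % 2 = pb s) : TJ D w (vt x y) (vt x y) (hz x y) := by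
  rcases tile_cases (w := w) h0 (vt_odd x y) with ⟨h1, -⟩ | ⟨h1, -⟩ <;> rw [eW_vt] at h1
  · rw [eN_vt] at h1
    exfalso
    rcases arcs h0 hs h1 with ⟨-, h⟩ | ⟨h, -⟩
    · rcases h with ⟨-, h⟩ | ⟨h, -⟩ | ⟨h, -⟩ | ⟨h, -⟩
      · have := hz_inj h; omega
      · exact hz_ne_vt _ _ _ _ h.symm
      · have := vt_inj h; omega
      · exact hz_ne_vt _ _ _ _ h.symm
    · exact h hp
  · rw [eS_vt] at h1; exact h1

lemma arcEN {s : Bool} {x y : ℤ} (h0 : vt x y ∉ D) (hs : vt x y ∈ w ↔ s = true)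
    (hp : (x + y) % 2 = pb s) : TJ D w (vt x y) (vt (x + 1) y) (hz x (y + 1)) := by
  rcases tile_cases (w := w) h0 (vt_odd x y) with ⟨-, h1⟩ | ⟨-, h1⟩ <;> rw [eE_vt] at h1
  · rw [eS_vt] at h1
    exfalso
    rcases arcs h0 hs h1 with ⟨-, h⟩ | ⟨h, -⟩
    · rcases h with ⟨h, -⟩ | ⟨-, h⟩ | ⟨h, -⟩ | ⟨h, -⟩
      · exact hz_ne_vt _ _ _ _ h
      · have := vt_inj h; omega
      · exact hz_ne_vt _ _ _ _ h
      · have := hz_inj h; omega
    · exact h hp
  · rw [eN_vt] at h1; exact h1.symm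

lemma arcWN {s : Bool} {x y : ℤ} (h0 : vt x y ∉ D) (hs : vt x y ∈ w ↔ s = true)
    (hp : (x + y) % 2 ≠ pb s) : TJ D w (vt x y) (vt x y) (hz x (y + 1)) := by
  rcases tile_cases (w := w) h0 (vt_odd x y) with ⟨h1, -⟩ | ⟨h1, -⟩ <;> rw [eW_vt] at h1
  · rw [eN_vt] at h1; exact h1
  · rw [eS_vt] at h1
    exfalso
    rcases arcs h0 hs h1 with ⟨h, -⟩ | ⟨-, h⟩
    · exact hp h
    · rcases h with ⟨-, h⟩ | ⟨h, -⟩ | ⟨h, -⟩ | ⟨h, -⟩
      · have := hz_inj h; omega
      · exact hz_ne_vt _ _ _ _ h.symm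
      · have := vt_inj h; omega
      · exact hz_ne_vt _ _ _ _ h.symm

lemma arcES {s : Bool} {x y : ℤ} (h0 : vt x y ∉ D) (hs : vt x y ∈ w ↔ s = true)
    (hp : (x + y) % 2 ≠ pb s) : TJ D w (vt x y) (vt (x + 1) y) (hz x y) := by
  rcases tile_cases (w := w) h0 (vt_odd x y) with ⟨-, h1⟩ | ⟨-, h1⟩ <;> rw [eE_vt] at h1
  · rw [eS_vt] at h1; exact h1.symm
  · rw [eN_vt] at h1
    exfalso
    rcases arcs h0 hs h1 with ⟨h, -⟩ | ⟨-, h⟩
    · exact hp h
    · rcases h with ⟨h, -⟩ | ⟨-, h⟩ | ⟨h, -⟩ | ⟨h, -⟩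
      · exact hz_ne_vt _ _ _ _ h
      · have := vt_inj h; omega
      · exact hz_ne_vt _ _ _ _ h
      · have := hz_inj h; omega

/-- the side of the strand of a gap at the line `Y` -/
def hcor (σ : ℤ → ℤ → Bool) (X Y : ℤ) : ℤ × ℤ :=
  if (X + Y) % 2 = pb (σ X Y) then hz X Y else hz (X - 1) Y

lemma reach_TJ {e c d : ℤ × ℤ} (he : e ∈ Λ) (h : TJ D w e c d) : (SG Λ D w).Reachable c d :=
  SimpleGraph.Adj.reachable ⟨e, he, h⟩

lemma reach_del {x y : ℤ} (he : vt x y ∈ Λ) (hD : vt x y ∈ D) :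
    (SG Λ D w).Reachable (hz x y) (hz x (y + 1)) := by
  have := TJ_del (w := w) hD (vt_odd x y)
  rw [eS_vt, eN_vt] at this
  exact reach_TJ he this

/-- states of the tile of `K` -/
lemma Solid.st (H : Solid Λ D w xl xb ya yb σ ct) {x y : ℤ} (hx : xl ≤ x) (hx' : x < xb)
    (hy : ya ≤ y) (hy' : y < yb) : vt x y ∈ Λ ∧ ((vt x y ∈ D ∧ pb (σ x (y + 1)) = 1 - pb (σ x y)) ∨
      (vt x y ∉ D ∧ σ x (y + 1) = σ x y ∧ (vt x y ∈ w ↔ σ x y = true))) := by
  refine ⟨H.inL x y hx hx' hy hy', ?_⟩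
  rcases H.rule x y (by omega) (by omega) (by omega) (by omega) (H.inL x y hx hx' hy hy') with h | h
  · left; exact ⟨h.1, bool_ne h.2⟩
  · right; exact h

lemma pb_inj {a b : Bool} (h : pb a = pb b) : a = b := by
  cases a <;> cases b <;> simp_all [pb]

/-- one line of a gap -/
theorem Solid.gapstep (H : Solid Λ D w xl xb ya yb σ ct) {X y : ℤ} (hX : xl < X) (hX' : X < xb)
    (hy : ya ≤ y) (hy' : y < yb) (h1 : σ (X - 1) y ≠ σ X y) (h2 : σ (X - 1) (y + 1) ≠ σ X (y + 1)) :
    (SG Λ D w).Reachable (hcor σ X y) (hcor σ X (y + 1)) := by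
  obtain ⟨hL, hl⟩ := H.st (x := X) (y := y) (by omega) (by omega) (by omega) (by omega)
  obtain ⟨hL', hl'⟩ := H.st (x := X - 1) (y := y) (by omega) (by omega) (by omega) (by omega)
  have b1 := bool_ne h1
  have b2 := bool_ne h2
  have c1 := pb_cases (σ X y)
  have c2 := pb_cases (σ (X - 1) y)
  have e0 : X - 1 + 1 = X := by ring
  unfold hcor
  rcases hl with ⟨hD, hs⟩ | ⟨hD, hs, hw⟩
  · rcases hl' with ⟨hD', hs'⟩ | ⟨hD', hs', hw'⟩
    · by_cases hp : (X + y) % 2 = pb (σ X y)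
      · rw [if_pos hp, if_pos (by omega)]
        exact reach_del hL hD
      · rw [if_neg hp, if_neg (by omega)]
        exact reach_del hL' hD'
    · exfalso
      rw [hs'] at b2
      omega
  · rcases hl' with ⟨hD', hs'⟩ | ⟨hD', hs', hw'⟩
    · exfalso
      rw [hs] at b2
      omega
    · by_cases hp : (X + y) % 2 = pb (σ X y)
      · rw [if_pos hp, if_neg (by rw [hs]; omega)]
        have a1 := arcWS hD hw hp
        have a2 := arcEN hD' hw' (by omega)
        rw [e0] at a2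
        exact (reach_TJ hL a1).symm.trans (reach_TJ hL' a2)
      · rw [if_neg hp, if_pos (by rw [hs]; omega)]
        have a1 := arcWN hD hw hp
        have a2 := arcES hD' hw' (by omega)
        rw [e0] at a2
        exact (reach_TJ hL' a2).symm.trans (reach_TJ hL a1)

/-- a run of lines of a gap -/
theorem Solid.run (H : Solid Λ D w xl xb ya yb σ ct) {X : ℤ} (hX : xl < X) (hX' : X < xb) {a b : ℤ}
    (ha : ya ≤ a) (hab : a ≤ b) (hb : b ≤ yb) (h : ∀ Y, a ≤ Y → Y ≤ b → σ (X - 1) Y ≠ σ X Y) :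
    (SG Λ D w).Reachable (hcor σ X a) (hcor σ X b) := by
  induction b, hab using Int.le_induction with
  | base => exact SimpleGraph.Reachable.refl _
  | succ b hab ih =>
    refine (ih (by omega) (fun Y h1 h2 => h Y h1 (by omega))).trans ?_
    exact H.gapstep hX hX' (by omega) (by omega) (h b hab (by omega)) (h (b + 1) (by omega) le_rfl)

/-- an end of the type `up d` -/
theorem Solid.upstep (H : Solid Λ D w xl xb ya yb σ ct) {X d : ℤ} (hX : xl < X) (hX' : X < xb)
    (hd : ya < d) (hd' : d < yb) (h0 : σ (X - 1) (d - 1) = σ X (d - 1)) (h1 : σ (X - 1) d = σ X d)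
    (h2 : σ (X - 1) (d + 1) ≠ σ X (d + 1)) (h3 : σ X (d - 1) = σ X d) :
    (SG Λ D w).Reachable (vt X d) (hcor σ X (d + 1)) ∧
      ((X + d) % 2 = pb (σ X d) → (SG Λ D w).Reachable (vt X d) (hz X d) ∧
        (SG Λ D w).Reachable (vt X d) (hz (X - 1) d)) := by
  obtain ⟨hL, hl⟩ := H.st (x := X) (y := d) (by omega) (by omega) (by omega) (by omega)
  obtain ⟨hL', hl'⟩ := H.st (x := X - 1) (y := d) (by omega) (by omega) (by omega) (by omega)
  obtain ⟨kL, kl⟩ := H.st (x := X) (y := d - 1) (by omega) (by omega) (by omega) (by omega)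
  obtain ⟨kL', kl'⟩ := H.st (x := X - 1) (y := d - 1) (by omega) (by omega) (by omega) (by omega)
  have b2 := bool_ne h2
  have c1 := pb_cases (σ X d)
  have e0 : X - 1 + 1 = X := by ring
  have e1 : d - 1 + 1 = d := by ring
  rw [e1] at kl kl'
  have hD1 : vt X (d - 1) ∉ D ∧ (vt X (d - 1) ∈ w ↔ σ X d = true) := by
    rcases kl with ⟨-, h⟩ | ⟨h4, -, h5⟩
    · rw [h3] at h; omega
    · rw [h3] at h5; exact ⟨h4, h5⟩
  have hD2 : vt (X - 1) (d - 1) ∉ D ∧ (vt (X - 1) (d - 1) ∈ w ↔ σ X d = true) := by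
    rcases kl' with ⟨-, h⟩ | ⟨h4, -, h5⟩
    · rw [h0, h3, h1] at h; omega
    · rw [h0, h3] at h5; exact ⟨h4, h5⟩
  -- the turn under the node
  have turn : (X + d) % 2 = pb (σ X d) → (SG Λ D w).Reachable (hz X d) (hz (X - 1) d) := by
    intro hp
    have a1 := arcWN hD1.1 hD1.2 (by omega)
    have a2 := arcEN hD2.1 hD2.2 (by omega)
    rw [e1] at a1
    rw [e0, e1] at a2
    exact (reach_TJ kL a1).symm.trans (reach_TJ kL' a2)
  unfold hcor
  rcases hl with ⟨hD, hs⟩ | ⟨hD, hs, hw⟩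
  · rcases hl' with ⟨hD', hs'⟩ | ⟨hD', hs', hw'⟩
    · exfalso
      rw [h1] at hs'; omega
    · -- left natural, right deleted
      rw [h1] at hw'
      by_cases hp : (X + d) % 2 = pb (σ X d)
      · rw [if_pos (by omega)]
        have a1 := arcES hD' hw' (by omega)
        rw [e0] at a1
        have r1 := reach_TJ hL' a1
        have r2 := r1.trans (turn hp).symm
        exact ⟨r2.trans (reach_del hL hD), fun _ => ⟨r2, r1⟩⟩
      · rw [if_neg (by omega)]
        have a1 := arcEN hD' hw' (by omega)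
        rw [e0] at a1
        exact ⟨reach_TJ hL' a1, fun h => absurd h hp⟩
  · rcases hl' with ⟨hD', hs'⟩ | ⟨hD', hs', hw'⟩
    · -- left deleted, right natural
      by_cases hp : (X + d) % 2 = pb (σ X d)
      · rw [if_neg (by rw [hs]; omega)]
        have r1 := reach_TJ hL (arcWS hD hw hp)
        have r2 := r1.trans (turn hp)
        exact ⟨r2.trans (reach_del hL' hD'), fun _ => ⟨r1, r2⟩⟩
      · rw [if_pos (by rw [hs]; omega)]
        exact ⟨reach_TJ hL (arcWN hD hw hp), fun h => absurd h hp⟩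
    · exfalso
      rw [hs, hs', h1] at b2; omega

/-- an end of the type `lo d` -/
theorem Solid.lostep (H : Solid Λ D w xl xb ya yb σ ct) {X d : ℤ} (hX : xl < X) (hX' : X < xb)
    (hd : ya ≤ d) (hd' : d + 2 ≤ yb) (h0 : σ (X - 1) (d + 2) = σ X (d + 2))
    (h1 : σ (X - 1) (d + 1) = σ X (d + 1))
    (h2 : σ (X - 1) d ≠ σ X d) (h3 : σ X (d + 2) = σ X (d + 1)) :
    (SG Λ D w).Reachable (vt X d) (hcor σ X d) ∧
      ((X + (d + 1)) % 2 = pb (σ X (d + 1)) → (SG Λ D w).Reachable (vt X d) (hz X (d + 1)) ∧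
        (SG Λ D w).Reachable (vt X d) (hz (X - 1) (d + 1))) := by
  obtain ⟨hL, hl⟩ := H.st (x := X) (y := d) (by omega) (by omega) (by omega) (by omega)
  obtain ⟨hL', hl'⟩ := H.st (x := X - 1) (y := d) (by omega) (by omega) (by omega) (by omega)
  obtain ⟨kL, kl⟩ := H.st (x := X) (y := d + 1) (by omega) (by omega) (by omega) (by omega)
  obtain ⟨kL', kl'⟩ := H.st (x := X - 1) (y := d + 1) (by omega) (by omega) (by omega) (by omega)
  have b2 := bool_ne h2
  have c1 := pb_cases (σ X (d + 1))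
  have e0 : X - 1 + 1 = X := by ring
  have e1 : d + 1 + 1 = d + 2 := by ring
  rw [e1] at kl kl'
  have hD1 : vt X (d + 1) ∉ D ∧ (vt X (d + 1) ∈ w ↔ σ X (d + 1) = true) := by
    rcases kl with ⟨-, h⟩ | ⟨h4, -, h5⟩
    · rw [h3] at h; omega
    · exact ⟨h4, h5⟩
  have hD2 : vt (X - 1) (d + 1) ∉ D ∧ (vt (X - 1) (d + 1) ∈ w ↔ σ X (d + 1) = true) := by
    rcases kl' with ⟨-, h⟩ | ⟨h4, -, h5⟩
    · rw [h0, h3, h1] at h; omega
    · rw [h1] at h5; exact ⟨h4, h5⟩
  -- the turn above the node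
  have turn : (X + (d + 1)) % 2 = pb (σ X (d + 1)) →
      (SG Λ D w).Reachable (hz X (d + 1)) (hz (X - 1) (d + 1)) := by
    intro hp
    have a1 := arcWS hD1.1 hD1.2 (by omega)
    have a2 := arcES hD2.1 hD2.2 (by omega)
    rw [e0] at a2
    exact (reach_TJ kL a1).symm.trans (reach_TJ kL' a2)
  unfold hcor
  rcases hl with ⟨hD, hs⟩ | ⟨hD, hs, hw⟩
  · rcases hl' with ⟨hD', hs'⟩ | ⟨hD', hs', hw'⟩
    · exfalso
      rw [h1] at hs'; omega
    · -- left natural, right deleted
      have f1 : σ (X - 1) d = σ X (d + 1) := by rw [← hs', h1]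
      rw [f1] at hw' b2
      by_cases hp : (X + (d + 1)) % 2 = pb (σ X (d + 1))
      · rw [if_pos (by omega)]
        have a1 := arcEN hD' hw' (by omega)
        rw [e0] at a1
        have r1 := reach_TJ hL' a1
        have r2 := r1.trans (turn hp).symm
        exact ⟨r2.trans (reach_del hL hD).symm, fun _ => ⟨r2, r1⟩⟩
      · rw [if_neg (by omega)]
        have a1 := arcES hD' hw' (by omega)
        rw [e0] at a1
        exact ⟨reach_TJ hL' a1, fun h => absurd h hp⟩
  · rcases hl' with ⟨hD', hs'⟩ | ⟨hD', hs', hw'⟩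
    · -- left deleted, right natural
      rw [hs]
      by_cases hp : (X + (d + 1)) % 2 = pb (σ X (d + 1))
      · rw [hs] at hp
        rw [if_neg (by omega)]
        have r1 := reach_TJ hL (arcWN hD hw (by omega))
        have r2 := r1.trans (turn (by rw [hs]; omega))
        exact ⟨r2.trans (reach_del hL' hD').symm, fun _ => ⟨r1, r2⟩⟩
      · rw [hs] at hp
        have := pb_cases (σ X d)
        rw [if_pos (by omega)]
        exact ⟨reach_TJ hL (arcWS hD hw (by omega)), fun h => absurd h hp⟩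
    · exfalso
      rw [← hs, ← hs', h1] at b2; omega

/-- `c` is a side of the strand of the column `X` -/
def St (D : Set (ℤ × ℤ)) (ya yb : ℤ) (σ : ℤ → ℤ → Bool) (ct : ℤ → CT) (X : ℤ) (c : ℤ × ℤ) : Prop :=
  (∃ x Y, c = hz x Y ∧ kap σ x Y = X ∧ ya ≤ Y ∧ Y ≤ yb ∧ (ct X).nj Y) ∨
    ∃ y, c = vt X y ∧ ya ≤ y ∧ y < yb ∧ (ct X).nj (rho σ X y) ∧ (vt X y ∉ D ∨ vt (X - 1) y ∉ D)

/-- base point of the strand -/
def rep (ya : ℤ) (σ : ℤ → ℤ → Bool) (ct : ℤ → CT) (X : ℤ) : ℤ × ℤ :=
  match ct X with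
  | .junk => hcor σ X ya
  | .gap => hcor σ X ya
  | .up d => vt X d
  | .lo d => vt X d

lemma eq_hcor {x X Y : ℤ} (h : σ (X - 1) Y ≠ σ X Y) (hk : kap σ x Y = X) : hz x Y = hcor σ X Y := by
  have b := bool_ne h
  have c := pb_cases (σ X Y)
  unfold kap at hk
  unfold hcor
  split_ifs at hk with h1
  · subst hk; rw [if_pos h1]
  · have : x = X - 1 := by omega
    subst this
    rw [if_neg (by omega)]

lemma Solid.zig_hz (H : Solid Λ D w xl xb ya yb σ ct) {X : ℤ} (hX : xl < X) (hX' : X < xb) {x Y : ℤ}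
    (hk : kap σ x Y = X) (hY : ya ≤ Y) (hY' : Y ≤ yb) (hn : (ct X).nj Y) :
    (SG Λ D w).Reachable (rep ya σ ct X) (hz x Y) := by
  have hc := H.col X hX.le hX'.le
  cases hct : ct X with
  | junk => rw [hct] at hn; exact absurd hn (by simp [CT.nj])
  | gap =>
    rw [hct] at hc
    have : rep ya σ ct X = hcor σ X ya := by unfold rep; rw [hct]
    rw [this, eq_hcor (hc Y hY hY') hk]
    exact H.run hX hX' le_rfl hY hY' (fun Z h1 h2 => hc Z h1 (by omega))
  | up d =>
    rw [hct] at hc hn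
    have : rep ya σ ct X = vt X d := by unfold rep; rw [hct]
    rw [this]
    have hn' : d ≤ Y := hn
    have hs := H.upstep hX hX' hc.1 hc.2.1 (hc.2.2.1 _ (by have := hc.1; omega) (by omega))
      (hc.2.2.1 d hc.1.le le_rfl) (hc.2.2.2.1 _ (by omega) (by have := hc.2.1; omega)) hc.2.2.2.2
    rcases eq_or_lt_of_le hn' with rfl | hlt
    · have e1 := hc.2.2.1 d hc.1.le le_rfl
      unfold kap at hk
      split_ifs at hk with h1
      · subst hk; exact (hs.2 h1).1
      · have hx : x = X - 1 := by omega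
        subst hx
        rw [e1] at h1
        have := pb_cases (σ X d)
        exact (hs.2 (by omega)).2
    · rw [eq_hcor (hc.2.2.2.1 Y hlt hY') hk]
      exact hs.1.trans (H.run hX hX' (by have := hc.1; omega) (by omega) hY'
        (fun Z h1 h2 => hc.2.2.2.1 Z (by omega) (by omega)))
  | lo d =>
    rw [hct] at hc hn
    have : rep ya σ ct X = vt X d := by unfold rep; rw [hct]
    rw [this]
    have hn' : Y ≤ d + 1 := hn
    have hs := H.lostep hX hX' hc.1 hc.2.1 (hc.2.2.2.1 _ (by omega) (by have := hc.2.1; omega))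
      (hc.2.2.2.1 (d + 1) (by omega) (by have := hc.2.1; omega)) (hc.2.2.1 _ hc.1 le_rfl) hc.2.2.2.2
    rcases eq_or_lt_of_le hn' with rfl | hlt
    · have e1 := hc.2.2.2.1 (d + 1) (by omega) hY'
      unfold kap at hk
      split_ifs at hk with h1
      · subst hk; exact (hs.2 h1).1
      · have hx : x = X - 1 := by omega
        subst hx
        rw [e1] at h1
        have := pb_cases (σ X (d + 1))
        exact (hs.2 (by omega)).2
    · rw [eq_hcor (hc.2.2.1 Y hY (by omega)) hk]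
      exact hs.1.trans (H.run hX hX' hY (by omega) (by have := hc.2.1; omega)
        (fun Z h1 h2 => hc.2.2.1 Z (by omega) (by omega))).symm

/-- **All sides of the strand of a column are joined.** -/
theorem Solid.zig (H : Solid Λ D w xl xb ya yb σ ct) {X : ℤ} (hX : xl < X) (hX' : X < xb) {c : ℤ × ℤ}
    (h : St D ya yb σ ct X c) : (SG Λ D w).Reachable (rep ya σ ct X) c := by
  rcases h with ⟨x, Y, rfl, hk, hY, hY', hn⟩ | ⟨y, rfl, hy, hy', hn, hD⟩
  · exact H.zig_hz hX hX' hk hY hY' hn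
  · -- the neighbour in the natural tile
    have key : ∀ x, xl ≤ x → x < xb → vt x y ∉ D → (∃ s Z, (s = x) ∧ (Z = y ∨ Z = y + 1) ∧
        TJ D w (vt x y) (vt X y) (hz s Z)) → (SG Λ D w).Reachable (rep ya σ ct X) (vt X y) := by
      rintro x hx hx' hDx ⟨s, Z, rfl, hZ, hT⟩
      have hL := H.inL s y hx hx' hy hy'
      obtain ⟨l1, l2⟩ := H.local (by omega) (by omega) (by omega) (by omega) hL hT
      rw [nd_vt, nd_hz] at l1 l2
      simp only at l1
      have hr : rho σ X y = y ∨ rho σ X y = y + 1 := by unfold rho; split_ifs <;> simp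
      have : NJ xl xb ya yb ct (kap σ s Z, Z) := by
        rw [← l2]
        unfold NJ
        intro _
        exact hn
      have h3 : (ct X).nj Z := by
        have := this ⟨by simp only; omega, by simp only; omega, by simp only; omega, by simp only; omega⟩
        simp only at this
        rw [← l1] at this
        exact this
      exact (H.zig_hz hX hX' l1.symm (by omega) (by omega) h3).trans (reach_TJ hL hT).symm
    rcases hD with hD | hD
    · apply key X (by omega) hX' hD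
      obtain ⟨-, hl⟩ := H.st (x := X) (y := y) (by omega) (by omega) hy hy'
      rcases hl with ⟨h, -⟩ | ⟨-, -, hw⟩
      · exact absurd h hD
      · by_cases hp : (X + y) % 2 = pb (σ X y)
        · exact ⟨X, y, rfl, Or.inl rfl, arcWS hD hw hp⟩
        · exact ⟨X, y + 1, rfl, Or.inr rfl, arcWN hD hw hp⟩
    · apply key (X - 1) (by omega) (by omega) hD
      obtain ⟨-, hl⟩ := H.st (x := X - 1) (y := y) (by omega) (by omega) hy hy'
      have e0 : X - 1 + 1 = X := by ring
      rcases hl with ⟨h, -⟩ | ⟨-, -, hw⟩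
      · exact absurd h hD
      · by_cases hp : (X - 1 + y) % 2 = pb (σ (X - 1) y)
        · have := arcEN hD hw hp
          rw [e0] at this
          exact ⟨X - 1, y + 1, rfl, Or.inr rfl, this⟩
        · have := arcES hD hw hp
          rw [e0] at this
          exact ⟨X - 1, y, rfl, Or.inl rfl, this⟩

theorem Solid.zig2 (H : Solid Λ D w xl xb ya yb σ ct) {X : ℤ} (hX : xl < X) (hX' : X < xb) {c d : ℤ × ℤ}
    (h : St D ya yb σ ct X c) (h' : St D ya yb σ ct X d) : (SG Λ D w).Reachable c d :=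
  (H.zig hX hX' h).symm.trans (H.zig hX hX' h')

/-- the end of a column of the type `up d` or `lo d` -/
theorem Solid.St_end (H : Solid Λ D w xl xb ya yb σ ct) {X : ℤ} (hX : xl < X) (hX' : X < xb) {d : ℤ}
    (h : ct X = .up d ∨ ct X = .lo d) : St D ya yb σ ct X (vt X d) := by
  have hc := H.col X hX.le hX'.le
  right
  have hr : rho σ X d = d ∨ rho σ X d = d + 1 := by unfold rho; split_ifs <;> simp
  have hdel : ∀ (h1 : ya ≤ d) (h2 : d < yb)
      (h3 : (σ (X - 1) d = σ X d) ↔ ¬ (σ (X - 1) (d + 1) = σ X (d + 1))),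
      vt X d ∉ D ∨ vt (X - 1) d ∉ D := by
    intro h1 h2 h3
    by_contra hcon
    push Not at hcon
    obtain ⟨-, hl⟩ := H.st (x := X) (y := d) (by omega) (by omega) h1 h2
    obtain ⟨-, hl'⟩ := H.st (x := X - 1) (y := d) (by omega) (by omega) h1 h2
    rcases hl with ⟨-, hs⟩ | ⟨hh, -⟩
    · rcases hl' with ⟨-, hs'⟩ | ⟨hh, -⟩
      · by_cases h4 : σ (X - 1) d = σ X d
        · have := bool_ne (h3.1 h4)
          rw [h4] at hs'
          have := pb_cases (σ X d)
          omega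
        · have h5 : σ (X - 1) (d + 1) = σ X (d + 1) := by tauto
          have := bool_ne h4
          rw [h5] at hs'
          have := pb_cases (σ X d)
          omega
      · exact hh hcon.2
    · exact hh hcon.1
  rcases h with h | h
  · rw [h] at hc
    obtain ⟨h1, h2, h3, h4, h5⟩ := hc
    refine ⟨d, rfl, h1.le, h2, ?_, hdel h1.le h2 ?_⟩
    · rw [h]; show d ≤ _; omega
    · have a1 := h3 d h1.le le_rfl
      have a2 := h4 (d + 1) (by omega) (by omega)
      tauto
  · rw [h] at hc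
    obtain ⟨h1, h2, h3, h4, h5⟩ := hc
    refine ⟨d, rfl, h1, by omega, ?_, hdel h1 (by omega) ?_⟩
    · rw [h]; show _ ≤ d + 1; omega
    · have a1 := h3 d h1 le_rfl
      have a2 := h4 (d + 1) (by omega) (by omega)
      tauto

end Sol

end Pool.Agent.H13.W
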