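import Mathlib
import Pool.Agent.H13.W.Solid

set_option autoImplicit false
open Finset

/-! # Solid rectangles, part 2: two worlds which agree outside of a solid rectangle

`Pair` : both worlds are solid in `K` (columns of the same types, ends may be at different lines) and agree outside.
`Im u u'` : `u'` = side of world 2 which corresponds to `u` : the same side outside of `K` (not junk), or any side
of the strand of the same column (ends : `Pair.Im_end`). `Pair.reach` : connections agree. `Pair.junk` : the junk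
is not joined to the rest. `Pair.count` : the numbers of passages through a line agree. -/

namespace Pool.Agent.H13.W

open Pool.Agent.H75.Perc Pool.Agent.H75.TwoArm Pool.Agent.H99.W Pool.Agent.H47.W

namespace Sol

/-- inner sides -/
def Inn (xl xb ya yb : ℤ) (c : ℤ × ℤ) : Prop :=
  (∃ x Y, c = hz x Y ∧ xl ≤ x ∧ x < xb ∧ ya < Y ∧ Y < yb) ∨
    ∃ X y, c = vt X y ∧ xl ≤ X ∧ X ≤ xb ∧ ya ≤ y ∧ y < yb

variable {xl xb ya yb : ℤ}

lemma Inn_hz {x Y : ℤ} : Inn xl xb ya yb (hz x Y) ↔ xl ≤ x ∧ x < xb ∧ ya < Y ∧ Y < yb := by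
  constructor
  · rintro (⟨x', Y', h, h1⟩ | ⟨x', Y', h, -⟩)
    · obtain ⟨rfl, rfl⟩ := hz_inj h; exact h1
    · exact absurd h (hz_ne_vt _ _ _ _)
  · intro h; exact Or.inl ⟨x, Y, rfl, h⟩

lemma Inn_vt {X y : ℤ} : Inn xl xb ya yb (vt X y) ↔ xl ≤ X ∧ X ≤ xb ∧ ya ≤ y ∧ y < yb := by
  constructor
  · rintro (⟨x', Y', h, -⟩ | ⟨x', Y', h, h1⟩)
    · exact absurd h.symm (hz_ne_vt _ _ _ _)
    · obtain ⟨rfl, rfl⟩ := vt_inj h; exact h1
  · intro h; exact Or.inr ⟨X, y, rfl, h⟩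

variable {Λ D Λ1 Λ2 D1 D2 : Set (ℤ × ℤ)} {w w1 w2 : Finset (ℤ × ℤ)} {σ σ1 σ2 : ℤ → ℤ → Bool}
  {ct ct1 ct2 : ℤ → CT}

lemma Solid.nj_bot (H : Solid Λ D w xl xb ya yb σ ct) {X : ℤ} (hX : xl ≤ X) (hX' : X ≤ xb) :
    (ct X).nj ya ↔ σ (X - 1) ya ≠ σ X ya := by
  have hc := H.col X hX hX'
  have hy := H.hy
  cases hct : ct X with
  | junk => rw [hct] at hc; simp [CT.nj, hc.1]
  | gap => rw [hct] at hc; simp only [CT.nj, true_iff]; exact hc ya le_rfl hy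
  | up d =>
    rw [hct] at hc
    have h1 := hc.2.2.1 ya le_rfl hc.1.le
    have h2 := hc.1
    simp only [CT.nj, h1, ne_eq, not_true, iff_false]
    omega
  | lo d =>
    rw [hct] at hc
    have h1 := hc.2.2.1 ya le_rfl hc.1
    have h2 := hc.1
    simp only [CT.nj, h1, ne_eq, not_false_iff, iff_true]
    omega

lemma Solid.nj_top (H : Solid Λ D w xl xb ya yb σ ct) {X : ℤ} (hX : xl ≤ X) (hX' : X ≤ xb) :
    (ct X).nj yb ↔ σ (X - 1) yb ≠ σ X yb := by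
  have hc := H.col X hX hX'
  have hy := H.hy
  cases hct : ct X with
  | junk => rw [hct] at hc; simp [CT.nj, hc.2]
  | gap => rw [hct] at hc; simp only [CT.nj, true_iff]; exact hc yb hy le_rfl
  | up d =>
    rw [hct] at hc
    have h2 := hc.2.1
    have h1 := hc.2.2.2.1 yb h2 le_rfl
    simp only [CT.nj, h1, ne_eq, not_false_iff, iff_true]
    omega
  | lo d =>
    rw [hct] at hc
    have h2 := hc.2.1
    have h1 := hc.2.2.2.1 yb (by omega) le_rfl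
    simp only [CT.nj, h1, ne_eq, not_true, iff_false]
    omega

/-- **Two worlds which agree outside of a solid rectangle.** -/
structure Pair (Λ1 Λ2 D1 D2 : Set (ℤ × ℤ)) (w1 w2 : Finset (ℤ × ℤ)) (xl xb ya yb : ℤ)
    (σ1 σ2 : ℤ → ℤ → Bool) (ct1 ct2 : ℤ → CT) : Prop where
  s1 : Solid Λ1 D1 w1 xl xb ya yb σ1 ct1
  s2 : Solid Λ2 D2 w2 xl xb ya yb σ2 ct2
  out : ∀ x y, ¬ (xl ≤ x ∧ x < xb ∧ ya ≤ y ∧ y < yb) → (vt x y ∈ Λ1 ↔ vt x y ∈ Λ2) ∧
    (vt x y ∈ Λ1 → (vt x y ∈ D1 ↔ vt x y ∈ D2) ∧ (vt x y ∉ D1 → (vt x y ∈ w1 ↔ vt x y ∈ w2)))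
  bot : ∀ x, xl - 1 ≤ x → x ≤ xb → σ1 x ya = σ2 x ya
  top : ∀ x, xl - 1 ≤ x → x ≤ xb → σ1 x yb = σ2 x yb
  lft : ∀ Y, ya ≤ Y → Y ≤ yb → σ1 (xl - 1) Y = σ2 (xl - 1) Y
  rgt : ∀ Y, ya ≤ Y → Y ≤ yb → σ1 xb Y = σ2 xb Y

theorem Pair.symm (P : Pair Λ1 Λ2 D1 D2 w1 w2 xl xb ya yb σ1 σ2 ct1 ct2) :
    Pair Λ2 Λ1 D2 D1 w2 w1 xl xb ya yb σ2 σ1 ct2 ct1 where
  s1 := P.s2
  s2 := P.s1
  out x y h := by
    obtain ⟨h1, h2⟩ := P.out x y h
    refine ⟨h1.symm, fun h3 => ?_⟩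
    obtain ⟨h4, h5⟩ := h2 (h1.2 h3)
    exact ⟨h4.symm, fun h6 => (h5 (fun h7 => h6 (h4.1 h7))).symm⟩
  bot x h h' := (P.bot x h h').symm
  top x h h' := (P.top x h h').symm
  lft x h h' := (P.lft x h h').symm
  rgt x h h' := (P.rgt x h h').symm

lemma Pair.nj_bot (P : Pair Λ1 Λ2 D1 D2 w1 w2 xl xb ya yb σ1 σ2 ct1 ct2) {X : ℤ} (hX : xl ≤ X)
    (hX' : X ≤ xb) : (ct1 X).nj ya ↔ (ct2 X).nj ya := by
  rw [P.s1.nj_bot hX hX', P.s2.nj_bot hX hX', P.bot (X - 1) (by omega) (by omega),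
    P.bot X (by omega) hX']

lemma Pair.nj_top (P : Pair Λ1 Λ2 D1 D2 w1 w2 xl xb ya yb σ1 σ2 ct1 ct2) {X : ℤ} (hX : xl ≤ X)
    (hX' : X ≤ xb) : (ct1 X).nj yb ↔ (ct2 X).nj yb := by
  rw [P.s1.nj_top hX hX', P.s2.nj_top hX hX', P.top (X - 1) (by omega) (by omega),
    P.top X (by omega) hX']

/-- nodes outside agree -/
lemma Pair.node (P : Pair Λ1 Λ2 D1 D2 w1 w2 xl xb ya yb σ1 σ2 ct1 ct2) {c : ℤ × ℤ}
    (hi : ¬ Inn xl xb ya yb c) (hb : Box xl xb ya yb (nd σ1 c).1 (nd σ1 c).2) :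
    nd σ2 c = nd σ1 c ∧ ((ct1 (nd σ1 c).1).nj (nd σ1 c).2 ↔ (ct2 (nd σ1 c).1).nj (nd σ1 c).2) := by
  unfold Box at hb
  have jl1 := P.s1.jl
  have jl2 := P.s2.jl
  have jr1 := P.s1.jr
  have jr2 := P.s2.jr
  have hyy := P.s1.hy
  rcases hz_or_vt c with ⟨x, y, rfl⟩ | ⟨x, y, rfl⟩
  · rw [nd_hz] at hb ⊢
    rw [nd_hz]
    simp only at hb ⊢
    rw [Inn_hz] at hi
    have hk : kap σ1 x y = x ∨ kap σ1 x y = x + 1 := by unfold kap; split_ifs <;> simp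
    have hx : xl - 1 ≤ x ∧ x ≤ xb := by omega
    have hs : σ1 x y = σ2 x y := by
      by_cases h1 : y = ya
      · rw [h1]; exact P.bot x hx.1 hx.2
      by_cases h2 : y = yb
      · rw [h2]; exact P.top x hx.1 hx.2
      by_cases h3 : x = xl - 1
      · rw [h3]; exact P.lft y hb.2.2.1 hb.2.2.2
      have h4 : x = xb := by omega
      rw [h4]; exact P.rgt y hb.2.2.1 hb.2.2.2
    have hk2 : kap σ2 x y = kap σ1 x y := by unfold kap; rw [hs]
    refine ⟨by rw [hk2], ?_⟩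
    by_cases h1 : y = ya
    · rw [h1] at hb ⊢; exact P.nj_bot hb.1 hb.2.1
    by_cases h2 : y = yb
    · rw [h2] at hb ⊢; exact P.nj_top hb.1 hb.2.1
    by_cases h3 : x = xl - 1
    · have : kap σ1 x y = xl := by omega
      rw [this, jl1, jl2]
    · have : kap σ1 x y = xb := by omega
      rw [this, jr1, jr2]
  · rw [nd_vt] at hb ⊢
    rw [nd_vt]
    simp only at hb ⊢
    rw [Inn_vt] at hi
    have hk : rho σ1 x y = y ∨ rho σ1 x y = y + 1 := by unfold rho; split_ifs <;> simp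
    have hy : y = ya - 1 ∨ y = yb := by omega
    have hs : σ1 x y = σ2 x y := by
      rcases hy with rfl | rfl
      · rw [P.s1.lo x (by omega) (by omega), P.s2.lo x (by omega) (by omega)]
        exact P.bot x (by omega) (by omega)
      · exact P.top x (by omega) (by omega)
    have hk2 : rho σ2 x y = rho σ1 x y := by unfold rho; rw [hs]
    refine ⟨by rw [hk2], ?_⟩
    rcases hy with h1 | h1
    · have : rho σ1 x y = ya := by omega
      rw [this]; exact P.nj_bot hb.1 hb.2.1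
    · have : rho σ1 x y = yb := by omega
      rw [this]; exact P.nj_top hb.1 hb.2.1

/-- the junk agrees outside -/
lemma Pair.eqJ (P : Pair Λ1 Λ2 D1 D2 w1 w2 xl xb ya yb σ1 σ2 ct1 ct2) {c : ℤ × ℤ}
    (hi : ¬ Inn xl xb ya yb c) :
    NJ xl xb ya yb ct1 (nd σ1 c) ↔ NJ xl xb ya yb ct2 (nd σ2 c) := by
  by_cases hb : Box xl xb ya yb (nd σ1 c).1 (nd σ1 c).2
  · obtain ⟨h1, h2⟩ := P.node hi hb
    unfold NJ
    rw [h1, h2]
  · by_cases hb' : Box xl xb ya yb (nd σ2 c).1 (nd σ2 c).2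
    · obtain ⟨h1, h2⟩ := P.symm.node hi hb'
      unfold NJ
      rw [h1, h2]
    · unfold NJ
      constructor
      · intro _ h; exact absurd h hb'
      · intro _ h; exact absurd h hb

lemma St_col {X : ℤ} {c : ℤ × ℤ} (h : St D ya yb σ ct X c) :
    (nd σ c).1 = X ∧ (ct X).nj (nd σ c).2 := by
  rcases h with ⟨x, Y, rfl, hk, -, -, hn⟩ | ⟨y, rfl, -, -, hn, -⟩
  · rw [nd_hz]; exact ⟨hk, hn⟩
  · rw [nd_vt]; exact ⟨rfl, hn⟩

lemma St_NJ {X : ℤ} {c : ℤ × ℤ} (h : St D ya yb σ ct X c) : NJ xl xb ya yb ct (nd σ c) := by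
  obtain ⟨h1, h2⟩ := St_col h
  intro _
  rw [h1]; exact h2

/-- a side of a strand which is not an inner side -/
lemma Pair.St_out (P : Pair Λ1 Λ2 D1 D2 w1 w2 xl xb ya yb σ1 σ2 ct1 ct2) {X : ℤ} (hX : xl < X)
    (hX' : X < xb) {c : ℤ × ℤ} (h : St D1 ya yb σ1 ct1 X c) (hi : ¬ Inn xl xb ya yb c) :
    St D2 ya yb σ2 ct2 X c := by
  obtain ⟨h1, h2⟩ := St_col h
  rcases h with ⟨x, Y, rfl, hk, hY, hY', hn⟩ | ⟨y, rfl, hy, hy', hn, -⟩
  · left
    rw [nd_hz] at h1 h2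
    obtain ⟨g1, g2⟩ := P.node hi (by rw [nd_hz]; exact ⟨by simp only; omega, by simp only; omega, hY, hY'⟩)
    rw [nd_hz] at g1 g2
    simp only at g2
    rw [nd_hz] at g1
    have g3 := congrArg Prod.fst g1
    simp only at g3
    rw [hk] at g2
    exact ⟨x, Y, rfl, g3.trans hk, hY, hY', g2.1 hn⟩
  · exfalso
    apply hi
    rw [Inn_vt]
    exact ⟨hX.le, hX'.le, hy, hy'⟩

open Classical in
/-- image of a side -/
noncomputable def rh (xl xb ya yb : ℤ) (σ1 σ2 : ℤ → ℤ → Bool) (ct2 : ℤ → CT) (c : ℤ × ℤ) : ℤ × ℤ :=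
  if Inn xl xb ya yb c then rep ya σ2 ct2 (nd σ1 c).1 else c

lemma Pair.St_rh (P : Pair Λ1 Λ2 D1 D2 w1 w2 xl xb ya yb σ1 σ2 ct1 ct2) {X : ℤ} (hX : xl < X)
    (hX' : X < xb) {c : ℤ × ℤ} (h : St D1 ya yb σ1 ct1 X c) :
    (SG Λ2 D2 w2).Reachable (rep ya σ2 ct2 X) (rh xl xb ya yb σ1 σ2 ct2 c) := by
  unfold rh
  split_ifs with hi
  · rw [(St_col h).1]
  · exact P.s2.zig hX hX' (P.St_out hX hX' h hi)

/-- sides of a tile of `K` in the strand of a column -/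
lemma Solid.side_St (H : Solid Λ D w xl xb ya yb σ ct) {x y : ℤ} (hx : xl ≤ x) (hx' : x < xb)
    (hy : ya ≤ y) (hy' : y < yb) {c d : ℤ × ℤ} (hT : TJ D w (vt x y) c d)
    (hn : NJ xl xb ya yb ct (nd σ c)) :
    xl < (nd σ c).1 ∧ (nd σ c).1 < xb ∧ St D ya yb σ ct (nd σ c).1 c := by
  have hside := side_cases c hT.label
  rw [eW_vt, eE_vt, eS_vt, eN_vt] at hside
  have hbox : Box xl xb ya yb (nd σ c).1 (nd σ c).2 := by
    have hk : ∀ Y, kap σ x Y = x ∨ kap σ x Y = x + 1 := by intro Y; unfold kap; split_ifs <;> simp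
    have hr : ∀ X, rho σ X y = y ∨ rho σ X y = y + 1 := by intro Y; unfold rho; split_ifs <;> simp
    unfold Box
    rcases hside with rfl | rfl | rfl | rfl
    · rw [nd_vt]; have := hr x; simp only; omega
    · rw [nd_vt]; have := hr (x + 1); simp only; omega
    · rw [nd_hz]; have := hk y; simp only; omega
    · rw [nd_hz]; have := hk (y + 1); simp only; omega
  have hnj := hn hbox
  have h1 : (nd σ c).1 ≠ xl := by
    intro h; rw [h, H.jl] at hnj; exact hnj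
  have h2 : (nd σ c).1 ≠ xb := by
    intro h; rw [h, H.jr] at hnj; exact hnj
  unfold Box at hbox
  refine ⟨by omega, by omega, ?_⟩
  have hvt : ∀ X, c = vt X y → St D ya yb σ ct (nd σ c).1 c := by
    intro X hc
    right
    subst hc
    rw [nd_vt] at hnj ⊢
    refine ⟨y, rfl, hy, hy', hnj, ?_⟩
    have hD : vt x y ∉ D := by
      intro hD
      rcases hT with ⟨-, -, h⟩ | ⟨h, -⟩
      · rw [eS_vt, eN_vt] at h
        rcases h with h | h
        · exact hz_ne_vt _ _ _ _ h.1.symm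
        · exact hz_ne_vt _ _ _ _ h.2.symm
      · exact h hD
    rcases hside with h | h | h | h
    · obtain ⟨rfl, -⟩ := vt_inj h
      exact Or.inl hD
    · obtain ⟨rfl, -⟩ := vt_inj h
      right
      have e0 : x + 1 - 1 = x := by ring
      simp only
      rw [e0]; exact hD
    · exact absurd h.symm (hz_ne_vt _ _ _ _)
    · exact absurd h.symm (hz_ne_vt _ _ _ _)
  rcases hside with h | h | h | h
  · exact hvt x h
  · exact hvt (x + 1) h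
  · left
    subst h
    rw [nd_hz] at hnj ⊢
    exact ⟨x, y, rfl, rfl, by omega, by omega, hnj⟩
  · left
    subst h
    rw [nd_hz] at hnj ⊢
    exact ⟨x, y + 1, rfl, rfl, by omega, by omega, hnj⟩

theorem Pair.sim (P : Pair Λ1 Λ2 D1 D2 w1 w2 xl xb ya yb σ1 σ2 ct1 ct2) {c d : ℤ × ℤ}
    (h : (SG Λ1 D1 w1).Adj c d) (hn : NJ xl xb ya yb ct1 (nd σ1 c)) :
    (SG Λ2 D2 w2).Reachable (rh xl xb ya yb σ1 σ2 ct2 c) (rh xl xb ya yb σ1 σ2 ct2 d) := by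
  have hn' := (P.s1.closed h).1 hn
  obtain ⟨e, he, hT⟩ := h
  have hodd : (e.1 + e.2) % 2 = 1 := by
    rcases hT.label with h | h
    · rw [h]; exact lab_odd' c
    · rw [h]
      rcases hz_or_vt c with ⟨x, y, rfl⟩ | ⟨x, y, rfl⟩
      · rcases tiles_hz x y with ⟨-, h2⟩ | ⟨-, h2⟩ <;> rw [h2] <;> exact vt_odd _ _
      · rcases tiles_vt x y with ⟨-, h2⟩ | ⟨-, h2⟩ <;> rw [h2] <;> exact vt_odd _ _
  obtain ⟨x, y, rfl⟩ := exists_vt hodd
  by_cases hK : xl ≤ x ∧ x < xb ∧ ya ≤ y ∧ y < yb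
  · obtain ⟨k1, k2, k3, k4⟩ := hK
    obtain ⟨l1, l2⟩ := P.s1.local (by omega) (by omega) (by omega) (by omega) he hT
    obtain ⟨a1, a2, a3⟩ := P.s1.side_St k1 k2 k3 k4 hT hn
    obtain ⟨b1, b2, b3⟩ := P.s1.side_St k1 k2 k3 k4 hT.symm hn'
    have r1 := P.St_rh a1 a2 a3
    have r2 := P.St_rh b1 b2 b3
    rw [← l1] at r2
    exact r1.symm.trans r2
  · -- a tile outside
    have key : ∀ c d, TJ D1 w1 (vt x y) c d → NJ xl xb ya yb ct1 (nd σ1 c) → ¬ Inn xl xb ya yb c := by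
      intro c d hT hn hi
      have hside := side_cases c hT.label
      rw [eW_vt, eE_vt, eS_vt, eN_vt] at hside
      have hvt : ∀ X, (X = x ∨ X = x + 1) → c = vt X y → False := by
        intro X hX hc
        subst hc
        rw [Inn_vt] at hi
        rw [nd_vt] at hn
        have hr : rho σ1 X y = y ∨ rho σ1 X y = y + 1 := by unfold rho; split_ifs <;> simp
        have := hn ⟨hi.1, hi.2.1, by simp only; omega, by simp only; omega⟩
        simp only at this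
        have hX2 : X = xl ∨ X = xb := by omega
        rcases hX2 with rfl | rfl
        · rw [P.s1.jl] at this; exact this
        · rw [P.s1.jr] at this; exact this
      rcases hside with h | h | h | h
      · exact hvt x (Or.inl rfl) h
      · exact hvt (x + 1) (Or.inr rfl) h
      · subst h; rw [Inn_hz] at hi; omega
      · subst h; rw [Inn_hz] at hi; omega
    have h1 := key c d hT hn
    have h2 := key d c hT.symm hn'
    unfold rh
    rw [if_neg h1, if_neg h2]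
    obtain ⟨o1, o2⟩ := P.out x y hK
    obtain ⟨o3, o4⟩ := o2 he
    exact reach_TJ (o1.1 he) ((TJ_congr o3 o4).1 hT)

theorem Pair.simR (P : Pair Λ1 Λ2 D1 D2 w1 w2 xl xb ya yb σ1 σ2 ct1 ct2) {c d : ℤ × ℤ}
    (h : (SG Λ1 D1 w1).Reachable c d) (hn : NJ xl xb ya yb ct1 (nd σ1 c)) :
    (SG Λ2 D2 w2).Reachable (rh xl xb ya yb σ1 σ2 ct2 c) (rh xl xb ya yb σ1 σ2 ct2 d) := by
  obtain ⟨p⟩ := h
  induction p with
  | nil => exact SimpleGraph.Reachable.refl _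
  | cons h _ ih => exact (P.sim h hn).trans (ih ((P.s1.closed h).1 hn))

/-- corresponding sides -/
def Im (D1 D2 : Set (ℤ × ℤ)) (xl xb ya yb : ℤ) (σ1 σ2 : ℤ → ℤ → Bool) (ct1 ct2 : ℤ → CT)
    (u u' : ℤ × ℤ) : Prop :=
  (¬ Inn xl xb ya yb u ∧ NJ xl xb ya yb ct1 (nd σ1 u) ∧ u' = u) ∨
    ∃ X, xl < X ∧ X < xb ∧ St D1 ya yb σ1 ct1 X u ∧ St D2 ya yb σ2 ct2 X u'

lemma Im.nj {u u' : ℤ × ℤ} (h : Im D1 D2 xl xb ya yb σ1 σ2 ct1 ct2 u u') :
    NJ xl xb ya yb ct1 (nd σ1 u) := by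
  rcases h with ⟨-, h, -⟩ | ⟨X, -, -, h, -⟩
  · exact h
  · exact St_NJ h

lemma Pair.Im_symm (P : Pair Λ1 Λ2 D1 D2 w1 w2 xl xb ya yb σ1 σ2 ct1 ct2) {u u' : ℤ × ℤ}
    (h : Im D1 D2 xl xb ya yb σ1 σ2 ct1 ct2 u u') : Im D2 D1 xl xb ya yb σ2 σ1 ct2 ct1 u' u := by
  rcases h with ⟨h1, h2, rfl⟩ | ⟨X, h1, h2, h3, h4⟩
  · exact Or.inl ⟨h1, (P.eqJ h1).1 h2, rfl⟩
  · exact Or.inr ⟨X, h1, h2, h4, h3⟩

lemma Pair.Im_rh (P : Pair Λ1 Λ2 D1 D2 w1 w2 xl xb ya yb σ1 σ2 ct1 ct2) {u u' : ℤ × ℤ}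
    (h : Im D1 D2 xl xb ya yb σ1 σ2 ct1 ct2 u u') :
    (SG Λ2 D2 w2).Reachable (rh xl xb ya yb σ1 σ2 ct2 u) u' := by
  rcases h with ⟨h1, h2, rfl⟩ | ⟨X, h1, h2, h3, h4⟩
  · unfold rh
    rw [if_neg h1]
  · exact (P.St_rh h1 h2 h3).symm.trans (P.s2.zig h1 h2 h4)

/-- **Connections agree.** -/
theorem Pair.reach (P : Pair Λ1 Λ2 D1 D2 w1 w2 xl xb ya yb σ1 σ2 ct1 ct2) {u u' v v' : ℤ × ℤ}
    (hu : Im D1 D2 xl xb ya yb σ1 σ2 ct1 ct2 u u') (hv : Im D1 D2 xl xb ya yb σ1 σ2 ct1 ct2 v v') :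
    (SG Λ1 D1 w1).Reachable u v ↔ (SG Λ2 D2 w2).Reachable u' v' := by
  constructor
  · intro h
    exact ((P.Im_rh hu).symm.trans (P.simR h hu.nj)).trans (P.Im_rh hv)
  · intro h
    have hu' := P.Im_symm hu
    have hv' := P.Im_symm hv
    exact ((P.symm.Im_rh hu').symm.trans (P.symm.simR h hu'.nj)).trans (P.symm.Im_rh hv')

/-- a side outside of the rectangle and its ring corresponds to itself -/
lemma Im_far {u : ℤ × ℤ} (hi : ¬ Inn xl xb ya yb u)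
    (hb : ¬ Box xl xb ya yb (nd σ1 u).1 (nd σ1 u).2) : Im D1 D2 xl xb ya yb σ1 σ2 ct1 ct2 u u :=
  Or.inl ⟨hi, fun h => absurd h hb, rfl⟩

/-- the ends of the same column correspond -/
lemma Pair.Im_end (P : Pair Λ1 Λ2 D1 D2 w1 w2 xl xb ya yb σ1 σ2 ct1 ct2) {X d d' : ℤ} (hX : xl < X)
    (hX' : X < xb) (h : ct1 X = .up d ∨ ct1 X = .lo d) (h' : ct2 X = .up d' ∨ ct2 X = .lo d') :
    Im D1 D2 xl xb ya yb σ1 σ2 ct1 ct2 (vt X d) (vt X d') :=
  Or.inr ⟨X, hX, hX', P.s1.St_end hX hX' h, P.s2.St_end hX hX' h'⟩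

/-! ### Passages through a line -/

lemma Solid.St_rep (H : Solid Λ D w xl xb ya yb σ ct) {X : ℤ} (hX : xl < X) (hX' : X < xb)
    (h : ct X ≠ .junk) : St D ya yb σ ct X (rep ya σ ct X) := by
  have hc := H.col X hX.le hX'.le
  unfold rep
  cases hct : ct X with
  | junk => exact absurd hct h
  | up d => exact H.St_end hX hX' (Or.inl hct)
  | lo d => exact H.St_end hX hX' (Or.inr hct)
  | gap =>
    simp only
    rw [hct] at hc
    have b := bool_ne (hc ya le_rfl H.hy)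
    have c1 := pb_cases (σ X ya)
    left
    have hn : (ct X).nj ya := by rw [hct]; trivial
    by_cases hp : (X + ya) % 2 = pb (σ X ya)
    · refine ⟨X, ya, by unfold hcor; rw [if_pos hp], by unfold kap; rw [if_pos hp], le_rfl, H.hy, hn⟩
    · refine ⟨X - 1, ya, by unfold hcor; rw [if_neg hp], ?_, le_rfl, H.hy, hn⟩
      unfold kap
      rw [if_neg (by omega)]; ring

/-- abscissa of the strand of a gap on the line `Y` -/
def xa (σ : ℤ → ℤ → Bool) (Y X : ℤ) : ℤ := if (X + Y) % 2 = pb (σ X Y) then X else X - 1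

lemma kap_xa {X Y : ℤ} (h : σ (X - 1) Y ≠ σ X Y) : kap σ (xa σ Y X) Y = X := by
  have b := bool_ne h
  have c1 := pb_cases (σ X Y)
  unfold xa
  split_ifs with hp
  · unfold kap; rw [if_pos hp]
  · unfold kap; rw [if_neg (by omega)]; ring

lemma xa_kap {x X Y : ℤ} (h : σ (X - 1) Y ≠ σ X Y) (hk : kap σ x Y = X) : xa σ Y X = x := by
  have := eq_hcor h hk
  unfold hcor at this
  unfold xa
  split_ifs at this ⊢
  · exact (hz_inj this).1.symm
  · exact (hz_inj this).1.symm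

lemma Pair.ct_gap (P : Pair Λ1 Λ2 D1 D2 w1 w2 xl xb ya yb σ1 σ2 ct1 ct2) {X : ℤ} (hX : xl ≤ X)
    (hX' : X ≤ xb) (h : ct1 X = .gap) : ct2 X = .gap := by
  have h1 := (P.nj_bot hX hX').1 (by rw [h]; trivial)
  have h2 := (P.nj_top hX hX').1 (by rw [h]; trivial)
  have hc := P.s2.col X hX hX'
  cases hct : ct2 X with
  | junk => rw [hct] at h1; exact absurd h1 (by simp [CT.nj])
  | gap => rfl
  | up d =>
    rw [hct] at h1 hc
    have h3 : d ≤ ya := h1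
    have := hc.1
    omega
  | lo d =>
    rw [hct] at h2 hc
    have h3 : yb ≤ d + 1 := h2
    have := hc.2.1
    omega

lemma Pair.ct_junk (P : Pair Λ1 Λ2 D1 D2 w1 w2 xl xb ya yb σ1 σ2 ct1 ct2) {X : ℤ} (hX : xl ≤ X)
    (hX' : X ≤ xb) (h : ct1 X = .junk) : ct2 X = .junk := by
  have h1 := (P.nj_bot hX hX').2
  have h2 := (P.nj_top hX hX').2
  rw [h] at h1 h2
  have hc := P.s2.col X hX hX'
  cases hct : ct2 X with
  | junk => rfl
  | gap => rw [hct] at h1; exact absurd (h1 trivial) (by simp [CT.nj])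
  | up d =>
    rw [hct] at h2 hc
    have := hc.2.1
    exact absurd (h2 (show d ≤ yb by omega)) (by simp [CT.nj])
  | lo d =>
    rw [hct] at h1 hc
    have := hc.1
    exact absurd (h1 (show ya ≤ d + 1 by omega)) (by simp [CT.nj])

/-- **The numbers of passages of a strand through a line to the left of `x1` agree**, if all columns to the left
of `x1` are gaps or junk and the strand is not the strand of the column `x1`. `T` = targets. -/
theorem Pair.count (P : Pair Λ1 Λ2 D1 D2 w1 w2 xl xb ya yb σ1 σ2 ct1 ct2) {Y x1 : ℤ} (hY : ya ≤ Y)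
    (hY' : Y ≤ yb) (h1 : x1 ≤ xb) (hg : ∀ X, xl < X → X < x1 → ct1 X = .gap ∨ ct1 X = .junk)
    {T : Set (ℤ × ℤ)} (hT : ∀ t ∈ T, ¬ Inn xl xb ya yb t ∧ NJ xl xb ya yb ct1 (nd σ1 t))
    (hx1 : ∀ t ∈ T, ∀ c, xl < x1 → St D1 ya yb σ1 ct1 x1 c → ¬ (SG Λ1 D1 w1).Reachable c t) :
    Set.ncard {x : ℤ | x < x1 ∧ ∃ t ∈ T, (SG Λ1 D1 w1).Reachable (hz x Y) t} =
      Set.ncard {x : ℤ | x < x1 ∧ ∃ t ∈ T, (SG Λ2 D2 w2).Reachable (hz x Y) t} := by
  -- one direction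
  have key : ∀ (Λ1 Λ2 D1 D2 : Set (ℤ × ℤ)) (w1 w2 : Finset (ℤ × ℤ)) (σ1 σ2 : ℤ → ℤ → Bool)
      (ct1 ct2 : ℤ → CT) (P : Pair Λ1 Λ2 D1 D2 w1 w2 xl xb ya yb σ1 σ2 ct1 ct2)
      (hg : ∀ X, xl < X → X < x1 → ct1 X = .gap ∨ ct1 X = .junk)
      (hT : ∀ t ∈ T, ¬ Inn xl xb ya yb t ∧ NJ xl xb ya yb ct1 (nd σ1 t))
      (hx1 : ∀ t ∈ T, ∀ c, xl < x1 → St D1 ya yb σ1 ct1 x1 c → ¬ (SG Λ1 D1 w1).Reachable c t),
      ∀ x, x < x1 → (∃ t ∈ T, (SG Λ1 D1 w1).Reachable (hz x Y) t) →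
        (x < xl ∧ ∃ t ∈ T, (SG Λ2 D2 w2).Reachable (hz x Y) t) ∨
        (xl ≤ x ∧ xl < kap σ1 x Y ∧ kap σ1 x Y < x1 ∧ ct1 (kap σ1 x Y) = .gap ∧
          ct2 (kap σ1 x Y) = .gap ∧ ∃ t ∈ T, (SG Λ2 D2 w2).Reachable (hz (xa σ2 Y (kap σ1 x Y)) Y) t) := by
    intro Λ1 Λ2 D1 D2 w1 w2 σ1 σ2 ct1 ct2 P hg hT hx1 x hx ⟨t, ht, hr⟩
    have hn : NJ xl xb ya yb ct1 (nd σ1 (hz x Y)) := (P.s1.closed' hr).2 (hT t ht).2
    have ht' : Im D1 D2 xl xb ya yb σ1 σ2 ct1 ct2 t t := Or.inl ⟨(hT t ht).1, (hT t ht).2, rfl⟩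
    by_cases hxl : x < xl
    · left
      refine ⟨hxl, t, ht, ?_⟩
      have hu : Im D1 D2 xl xb ya yb σ1 σ2 ct1 ct2 (hz x Y) (hz x Y) := by
        left
        refine ⟨?_, hn, rfl⟩
        rw [Inn_hz]; omega
      exact (P.reach hu ht').1 hr
    · right
      rw [nd_hz] at hn
      have hk : kap σ1 x Y = x ∨ kap σ1 x Y = x + 1 := by unfold kap; split_ifs <;> simp
      have hnj := hn ⟨by simp only; omega, by simp only; omega, hY, hY'⟩
      simp only at hnj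
      have n1 : kap σ1 x Y ≠ xl := by
        intro h; rw [h, P.s1.jl] at hnj; exact hnj
      have n2 : kap σ1 x Y ≠ xb := by
        intro h; rw [h, P.s1.jr] at hnj; exact hnj
      have hst : St D1 ya yb σ1 ct1 (kap σ1 x Y) (hz x Y) :=
        Or.inl ⟨x, Y, rfl, rfl, hY, hY', hnj⟩
      have n3 : kap σ1 x Y ≠ x1 := by
        intro h
        rw [h] at hst
        exact hx1 t ht _ (by omega) hst hr
      have hgap : ct1 (kap σ1 x Y) = .gap := by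
        rcases hg (kap σ1 x Y) (by omega) (by omega) with h | h
        · exact h
        · rw [h] at hnj; exact absurd hnj (by simp [CT.nj])
      have hgap2 := P.ct_gap (by omega) (by omega) hgap
      have hd2 : σ2 (kap σ1 x Y - 1) Y ≠ σ2 (kap σ1 x Y) Y := by
        have := P.s2.col (kap σ1 x Y) (by omega) (by omega)
        rw [hgap2] at this
        exact this Y hY hY'
      have hst2 : St D2 ya yb σ2 ct2 (kap σ1 x Y) (hz (xa σ2 Y (kap σ1 x Y)) Y) :=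
        Or.inl ⟨_, Y, rfl, kap_xa hd2, hY, hY', by rw [hgap2]; trivial⟩
      refine ⟨by omega, by omega, by omega, hgap, hgap2, t, ht, ?_⟩
      exact (P.reach (Or.inr ⟨_, by omega, by omega, hst, hst2⟩) ht').1 hr
  have K1 := key Λ1 Λ2 D1 D2 w1 w2 σ1 σ2 ct1 ct2 P hg hT hx1
  have hT2 : ∀ t ∈ T, ¬ Inn xl xb ya yb t ∧ NJ xl xb ya yb ct2 (nd σ2 t) :=
    fun t ht => ⟨(hT t ht).1, (P.eqJ (hT t ht).1).1 (hT t ht).2⟩
  have hg2 : ∀ X, xl < X → X < x1 → ct2 X = .gap ∨ ct2 X = .junk := by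
    intro X h2 h3
    rcases hg X h2 h3 with h | h
    · exact Or.inl (P.ct_gap h2.le (by omega) h)
    · exact Or.inr (P.ct_junk h2.le (by omega) h)
  have hx2 : ∀ t ∈ T, ∀ c, xl < x1 → St D2 ya yb σ2 ct2 x1 c → ¬ (SG Λ2 D2 w2).Reachable c t := by
    intro t ht c hl hst hr
    have hne2 : ct2 x1 ≠ .junk := by
      intro h
      have := (St_col hst).2
      rw [h] at this
      exact this
    have hxb : x1 ≠ xb := by
      intro h
      rw [h, P.s2.jr] at hne2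
      exact hne2 rfl
    have hne1 : ct1 x1 ≠ .junk := fun h => hne2 (P.ct_junk hl.le h1 h)
    have hst1 := P.s1.St_rep hl (by omega) hne1
    exact hx1 t ht _ hl hst1 ((P.reach (Or.inr ⟨x1, hl, by omega, hst1, hst⟩)
      (Or.inl ⟨(hT t ht).1, (hT t ht).2, rfl⟩)).2 hr)
  have K2 := key Λ2 Λ1 D2 D1 w2 w1 σ2 σ1 ct2 ct1 P.symm hg2 hT2 hx2
  have dif : ∀ (Λ D : Set (ℤ × ℤ)) (w : Finset (ℤ × ℤ)) (σ : ℤ → ℤ → Bool) (ct : ℤ → CT)
      (H : Solid Λ D w xl xb ya yb σ ct) (X : ℤ), xl < X → X < x1 → ct X = .gap →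
      σ (X - 1) Y ≠ σ X Y := by
    intro Λ D w σ ct H X h2 h3 h4
    have := H.col X h2.le (by omega)
    rw [h4] at this
    exact this Y hY hY'
  have hxa : ∀ (σ : ℤ → ℤ → Bool) (X : ℤ), xa σ Y X = X ∨ xa σ Y X = X - 1 := by
    intro σ X; unfold xa; split_ifs <;> simp
  refine Set.ncard_congr (fun x _ => if x < xl then x else xa σ2 Y (kap σ1 x Y)) ?_ ?_ ?_
  · intro x hx
    rcases K1 x hx.1 hx.2 with ⟨h2, h3⟩ | ⟨h2, h3, h4, h5, h6, h7⟩
    · rw [if_pos h2]; exact ⟨hx.1, h3⟩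
    · rw [if_neg (by omega)]
      have := hxa σ2 (kap σ1 x Y)
      exact ⟨by omega, h7⟩
  · intro x x' hx hx' heq
    rcases K1 x hx.1 hx.2 with ⟨h2, h3⟩ | ⟨h2, h3, h4, h5, h6, h7⟩ <;>
      rcases K1 x' hx'.1 hx'.2 with ⟨g2, g3⟩ | ⟨g2, g3, g4, g5, g6, g7⟩
    · rw [if_pos h2, if_pos g2] at heq; exact heq
    · rw [if_pos h2, if_neg (by omega)] at heq
      have := hxa σ2 (kap σ1 x' Y)
      omega
    · rw [if_neg (by omega), if_pos g2] at heq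
      have := hxa σ2 (kap σ1 x Y)
      omega
    · rw [if_neg (by omega), if_neg (by omega)] at heq
      have a1 := kap_xa (dif _ _ _ _ _ P.s2 _ h3 h4 h6)
      have a2 := kap_xa (dif _ _ _ _ _ P.s2 _ g3 g4 g6)
      rw [heq, a2] at a1
      have b1 := xa_kap (dif _ _ _ _ _ P.s1 _ h3 h4 h5) rfl
      have b2 := xa_kap (dif _ _ _ _ _ P.s1 _ g3 g4 g5) rfl
      rw [← b1, ← b2, a1]
  · intro x hx
    rcases K2 x hx.1 hx.2 with ⟨h2, h3⟩ | ⟨h2, h3, h4, h5, h6, h7⟩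
    · exact ⟨x, ⟨hx.1, h3⟩, by rw [if_pos h2]⟩
    · have c1 := hxa σ1 (kap σ2 x Y)
      refine ⟨xa σ1 Y (kap σ2 x Y), ⟨by omega, h7⟩, ?_⟩
      rw [if_neg (by omega), kap_xa (dif _ _ _ _ _ P.s1 _ h3 h4 h6)]
      exact xa_kap (dif _ _ _ _ _ P.s2 _ h3 h4 h5) rfl

end Sol

end Pool.Agent.H13.W
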