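import Mathlib
import Pool.Agent.H13.W.Solid
import Pool.Agent.H82.W.S3

set_option autoImplicit false
open Finset

/-! # Two small tools for StChd

`Simu.extend` : a simulation may be enlarged by pairs `(x i, y i)` if `x i` has an image which is joined to `y i` in
world 2. `toggle` : the state of a tile all of whose sides are junk is irrelevant. `diag_toggle` : at a convex corner
(upper right) whose two wall layer tiles are open the state of the diagonal tile is irrelevant. -/

namespace Pool.Agent.H82.W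

section
variable {α β ι : Type*} {G1 G1o : SimpleGraph α} {K : Set α} {G2 : SimpleGraph β} {R : α → β → Prop}

/-- **Additional pairs in a simulation.** -/
theorem Simu.extend (M : Simu G1 G1o K G2 R) {x : ι → α} {y : ι → β}
    (h : ∀ i, ∃ c', R (x i) c' ∧ G2.Reachable c' (y i)) :
    Simu G1 G1o K G2 (fun c c' => R c c' ∨ ∃ i, c = x i ∧ c' = y i) where
  split := M.split
  step := by
    rintro c d c' hadj (hR | ⟨i, rfl, rfl⟩)
    · obtain ⟨d', h1, h2⟩ := M.step c d c' hadj hR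
      exact ⟨d', Or.inl h1, h2⟩
    · obtain ⟨c'', h1, h2⟩ := h i
      obtain ⟨d', h3, h4⟩ := M.step _ d c'' hadj h1
      exact ⟨d', Or.inl h3, h2.symm.trans h4⟩
  ex := by
    intro c hc d hadj
    obtain ⟨c', h1⟩ := M.ex c hc d hadj
    exact ⟨c', Or.inl h1⟩
  uniq := by
    rintro c c' c'' (h1 | ⟨i, h1, h1'⟩) (h2 | ⟨j, h2, h2'⟩)
    · exact M.uniq c c' c'' h1 h2
    · obtain ⟨e, h3, h4⟩ := h j
      subst h2 h2'
      exact (M.uniq _ _ _ h1 h3).trans h4
    · obtain ⟨e, h3, h4⟩ := h i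
      subst h1 h1'
      exact h4.symm.trans (M.uniq _ _ _ h3 h2)
    · obtain ⟨e, h3, h4⟩ := h i
      obtain ⟨e', h5, h6⟩ := h j
      subst h1' h2'
      rw [← h1] at h3
      rw [← h2] at h5
      exact h4.symm.trans ((M.uniq _ _ _ h3 h5).trans h6)

end

end Pool.Agent.H82.W

namespace Pool.Agent.H13.W

open Pool.Agent.H75.Perc Pool.Agent.H75.TwoArm Pool.Agent.H99.W Pool.Agent.H47.W

variable {Λ D : Set (ℤ × ℤ)} {w1 w2 : Finset (ℤ × ℤ)}

/-- **A tile whose sides are junk is irrelevant**, one direction. -/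
theorem toggle1 {e : ℤ × ℤ} {J : Set (ℤ × ℤ)}
    (hw : ∀ e' ∈ Λ, e' ≠ e → e' ∉ D → (e' ∈ w1 ↔ e' ∈ w2))
    (hJ : ∀ c d, (SG Λ D w1).Adj c d → (c ∈ J ↔ d ∈ J))
    (he : ∀ c, c = eW e ∨ c = eE e ∨ c = eS e ∨ c = eN e → c ∈ J) {u v : ℤ × ℤ} (hu : u ∉ J)
    (h : (SG Λ D w1).Reachable u v) : (SG Λ D w2).Reachable u v := by
  obtain ⟨p⟩ := h
  induction p with
  | nil => exact SimpleGraph.Reachable.refl _
  | @cons u v w hadj _ ih =>
    have hv : v ∉ J := fun h => hu ((hJ u v hadj).2 h)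
    refine SimpleGraph.Reachable.trans ?_ (ih hv)
    obtain ⟨e', he', hT⟩ := hadj
    have hne : e' ≠ e := by
      rintro rfl
      exact hu (he u (side_cases u hT.label))
    exact SimpleGraph.Adj.reachable ⟨e', he', (TJ_congr Iff.rfl (hw e' he' hne)).1 hT⟩

/-- **A tile whose sides are junk is irrelevant.** -/
theorem toggle {e : ℤ × ℤ} {J : Set (ℤ × ℤ)}
    (hw : ∀ e' ∈ Λ, e' ≠ e → e' ∉ D → (e' ∈ w1 ↔ e' ∈ w2))
    (hJ : ∀ c d, (SG Λ D w1).Adj c d → (c ∈ J ↔ d ∈ J))
    (hJ' : ∀ c d, (SG Λ D w2).Adj c d → (c ∈ J ↔ d ∈ J))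
    (he : ∀ c, c = eW e ∨ c = eE e ∨ c = eS e ∨ c = eN e → c ∈ J) {u v : ℤ × ℤ} (hu : u ∉ J) :
    (SG Λ D w1).Reachable u v ↔ (SG Λ D w2).Reachable u v :=
  ⟨toggle1 hw hJ he hu, toggle1 (fun e' h1 h2 h3 => (hw e' h1 h2 h3).symm) hJ' he hu⟩

/-- junk sides at an upper right convex corner `(X, Y)` with open walls -/
def dJ (X Y : ℤ) : Set (ℤ × ℤ) :=
  {c | c = vt X Y ∨ c = hz X Y ∨ c = hz X (Y + 1) ∨ c = vt (X + 1) Y ∨ c = hz (X - 1) (Y + 1) ∨
    c = vt (X + 1) (Y - 1)}

lemma dJ_closed {X Y : ℤ} {w : Finset (ℤ × ℤ)} (hp : (X + Y) % 2 = 0) (ha : vt (X - 1) Y ∉ D)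
    (ha' : vt (X - 1) Y ∈ w) (hb : vt X (Y - 1) ∉ D) (hb' : vt X (Y - 1) ∈ w)
    (h1 : vt (X - 1) (Y + 1) ∉ Λ) (h2 : vt X (Y + 1) ∉ Λ) (h3 : vt (X + 1) Y ∉ Λ)
    (h4 : vt (X + 1) (Y - 1) ∉ Λ) {c d : ℤ × ℤ} (h : (SG Λ D w).Adj c d) :
    c ∈ dJ X Y ↔ d ∈ dJ X Y := by
  have key : ∀ c d, (SG Λ D w).Adj c d → c ∈ dJ X Y → d ∈ dJ X Y := by
    rintro c d ⟨e, he, hT⟩ hc
    have hside := side_cases d hT.label'
    -- the tile
    have htile : e = vt X Y ∨ e = vt (X - 1) Y ∨ e = vt X (Y - 1) := by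
      have hlab := hT.label
      have cv : ∀ x y, c = vt x y → e = vt x y ∨ e = vt (x - 1) y := by
        rintro x y rfl
        rcases tiles_vt x y with ⟨h5, h6⟩ | ⟨h5, h6⟩ <;> rw [h5, h6] at hlab <;> tauto
      have ch : ∀ x y, c = hz x y → e = vt x y ∨ e = vt x (y - 1) := by
        rintro x y rfl
        rcases tiles_hz x y with ⟨h5, h6⟩ | ⟨h5, h6⟩ <;> rw [h5, h6] at hlab <;> tauto
      have e1 : X + 1 - 1 = X := by ring
      have e2 : Y + 1 - 1 = Y := by ring
      rcases hc with hc | hc | hc | hc | hc | hc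
      · rcases cv _ _ hc with h | h <;> tauto
      · rcases ch _ _ hc with h | h <;> tauto
      · rcases ch _ _ hc with h | h
        · exact absurd (h ▸ he) h2
        · rw [e2] at h; tauto
      · rcases cv _ _ hc with h | h
        · exact absurd (h ▸ he) h3
        · rw [e1] at h; tauto
      · rcases ch _ _ hc with h | h
        · exact absurd (h ▸ he) h1
        · rw [e2] at h; tauto
      · rcases cv _ _ hc with h | h
        · exact absurd (h ▸ he) h4
        · rw [e1] at h; tauto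
    rcases htile with rfl | rfl | rfl
    · rw [eW_vt, eE_vt, eS_vt, eN_vt] at hside
      unfold dJ
      rcases hside with h | h | h | h <;> simp [h]
    · -- the layer tile to the left
      have e1 : X - 1 + 1 = X := by ring
      rcases Sol.arcs (s := true) ha (by simp [ha']) hT with ⟨-, h⟩ | ⟨h, -⟩
      · rw [e1] at h
        rcases h with ⟨g1, g2⟩ | ⟨g1, g2⟩ | ⟨g1, g2⟩ | ⟨g1, g2⟩
        · exfalso
          subst g1
          rcases hc with hc | hc | hc | hc | hc | hc
          · have := vt_inj hc; omega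
          · exact hz_ne_vt _ _ _ _ hc.symm
          · exact hz_ne_vt _ _ _ _ hc.symm
          · have := vt_inj hc; omega
          · exact hz_ne_vt _ _ _ _ hc.symm
          · have := vt_inj hc; omega
        · exfalso
          subst g1
          rcases hc with hc | hc | hc | hc | hc | hc
          · exact hz_ne_vt _ _ _ _ hc
          · have := hz_inj hc; omega
          · have := hz_inj hc; omega
          · exact hz_ne_vt _ _ _ _ hc
          · have := hz_inj hc; omega
          · exact hz_ne_vt _ _ _ _ hc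
        · unfold dJ; simp [g2]
        · unfold dJ; simp [g2]
      · exfalso
        apply h
        simp only [Sol.pb, if_true]
        omega
    · -- the layer tile below
      have e1 : Y - 1 + 1 = Y := by ring
      rcases Sol.arcs (s := true) hb (by simp [hb']) hT with ⟨-, h⟩ | ⟨h, -⟩
      · rw [e1] at h
        rcases h with ⟨g1, g2⟩ | ⟨g1, g2⟩ | ⟨g1, g2⟩ | ⟨g1, g2⟩
        · exfalso
          subst g1
          rcases hc with hc | hc | hc | hc | hc | hc
          · have := vt_inj hc; omega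
          · exact hz_ne_vt _ _ _ _ hc.symm
          · exact hz_ne_vt _ _ _ _ hc.symm
          · have := vt_inj hc; omega
          · exact hz_ne_vt _ _ _ _ hc.symm
          · have := vt_inj hc; omega
        · exfalso
          subst g1
          rcases hc with hc | hc | hc | hc | hc | hc
          · exact hz_ne_vt _ _ _ _ hc
          · have := hz_inj hc; omega
          · have := hz_inj hc; omega
          · exact hz_ne_vt _ _ _ _ hc
          · have := hz_inj hc; omega
          · exact hz_ne_vt _ _ _ _ hc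
        · unfold dJ; simp [g2]
        · unfold dJ; simp [g2]
      · exfalso
        apply h
        simp only [Sol.pb, if_true]
        omega
  exact ⟨key c d h, key d c h.symm⟩

/-- **The diagonal tile at an upper right convex corner with open walls is irrelevant.** -/
theorem diag_toggle {X Y : ℤ} (hp : (X + Y) % 2 = 0) (ha : vt (X - 1) Y ∉ D)
    (ha' : vt (X - 1) Y ∈ w1) (hal : vt (X - 1) Y ∈ Λ) (hb : vt X (Y - 1) ∉ D)
    (hb' : vt X (Y - 1) ∈ w1) (hbl : vt X (Y - 1) ∈ Λ)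
    (h1 : vt (X - 1) (Y + 1) ∉ Λ) (h2 : vt X (Y + 1) ∉ Λ) (h3 : vt (X + 1) Y ∉ Λ)
    (h4 : vt (X + 1) (Y - 1) ∉ Λ)
    (hw : ∀ e' ∈ Λ, e' ≠ vt X Y → e' ∉ D → (e' ∈ w1 ↔ e' ∈ w2)) {u v : ℤ × ℤ} (hu : u ∉ dJ X Y) :
    (SG Λ D w1).Reachable u v ↔ (SG Λ D w2).Reachable u v := by
  have ha2 : vt (X - 1) Y ∈ w2 := by
    refine (hw _ hal ?_ ha).1 ha'
    intro h; have := vt_inj h; omega
  have hb2 : vt X (Y - 1) ∈ w2 := by
    refine (hw _ hbl ?_ hb).1 hb'
    intro h; have := vt_inj h; omega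
  refine toggle hw (fun c d h => dJ_closed hp ha ha' hb hb' h1 h2 h3 h4 h)
    (fun c d h => dJ_closed hp ha ha2 hb hb2 h1 h2 h3 h4 h) ?_ hu
  intro c hc
  rw [eW_vt, eE_vt, eS_vt, eN_vt] at hc
  unfold dJ
  rcases hc with h | h | h | h <;> simp [h]

end Pool.Agent.H13.W
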