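import Mathlib
import Pool.Agent.H78.W.VG
import Pool.Agent.H45.W.Sym
import Pool.Agent.H82.W.Simu

set_option autoImplicit false
set_option linter.unusedVariables false
open Finset

/-! # StChd, the down move (V5): from the world of an end in the wide room to the canonical world `WL`

78's picture `G : Pic κ`. `Bk G xa ρ` = block of tiles `xa ≤ x < xs`, `|y - Yc| < ρ`. The strip `SD G p` : right of
`xs`, from the row above `p` to the row `Yd` (over the chord), to the bottom of the tooth, to the row `YF` behind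
the tooth. It goes one row down, with flipped states. `Dn` : numbers. Results: `Dn.lm` (82's LMove), `Dn.move`
(45's DownMove for corresponding configurations), `Dn.simu` (82's Simu). -/

namespace Pool.Agent.H13.W

open Pool.Agent.H75.Perc Pool.Agent.H75.TwoArm Pool.Agent.H99.W
open Pool.Agent.H33.Q1 (lt tt lt_odd tt_lt lt_tt lt_inj)
open Pool.Agent.H45.W (DownMove SRd sw sw_sw swS swF SG_sw reach_sw SR_sw swS_diff)
open Pool.Agent.H82.W (WD LMove Cor Simu SG_split exists_SR SR_uniq fl)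
open Pool.Agent.H19.W (cx cy lt_cc cx_lt cy_lt cx_dn cy_dn cx_up cy_up ea we cx_ea cy_ea cx_we cy_we
  shared odd_dn odd_up tile_ext)
open Pool.Agent.H78.W

/-- down moves are simulations -/
theorem simu_dn {Λ1 Λ2 D1 D2 : Set (ℤ × ℤ)} {w1 w2 : Finset (ℤ × ℤ)} {Bl S : Set (ℤ × ℤ)}
    (M : DownMove Λ1 Λ2 D1 D2 w1 w2 Bl S) :
    Simu (SG Λ1 D1 w1) (SG (Λ1 \ Bl) D1 w1) (KB Bl) (SG Λ2 D2 w2) (SRd Λ1 D1 Bl S) where
  split _ _ h := SG_split h
  step _ _ _ h hR := M.sim_step h hR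
  ex c _ d h := by
    obtain ⟨u', hu⟩ := exists_SR M.sw (u := sw c) (v := sw d) (by rw [← swS_diff]; exact SG_sw.2 h)
    exact ⟨sw u', by rw [← SR_sw, sw_sw]; exact hu⟩
  uniq c c' c'' h h' := by
    have := SR_uniq M.sw (SR_sw.2 h) (SR_sw.2 h')
    exact reach_sw.1 this

lemma dn_lt (x y : ℤ) : dn (lt (x, y)) = lt (x, y - 1) := by
  unfold dn lt; ext <;> simp only <;> ring

lemma up_lt' (x y : ℤ) : up (lt (x, y)) = lt (x, y + 1) := by
  unfold up lt; ext <;> simp only <;> ring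

lemma ea_lt (x y : ℤ) : ea (lt (x, y)) = lt (x + 1, y) := by
  unfold ea lt; ext <;> simp only <;> ring

lemma we_lt (x y : ℤ) : we (lt (x, y)) = lt (x - 1, y) := by
  unfold we lt; ext <;> simp only <;> ring

lemma xor_f {a b : Prop} (h : ¬ b) : Xor a b ↔ a := by unfold Xor; tauto
lemma xor_t {a b : Prop} (h : b) : Xor a b ↔ ¬ a := by unfold Xor; tauto
lemma xor_f' {a b : Prop} (h : ¬ a) : Xor a b ↔ b := by unfold Xor; tauto
lemma xor_t' {a b : Prop} (h : a) : Xor a b ↔ ¬ b := by unfold Xor; tauto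

variable {κ : Type*}

/-- the block of the picture -/
def Bk (G : Pic κ) (xa ρ : ℤ) : Set (ℤ × ℤ) :=
  {e | xa ≤ cx e ∧ cx e < G.xs ∧ G.Yc - ρ ≤ cy e ∧ cy e < G.Yc + ρ}

/-- the strip of the down move -/
def SD (G : Pic κ) (p : ℤ × ℤ) : Set (ℤ × ℤ) :=
  {e | G.xs ≤ cx e ∧ cx e ≤ G.xw ∧ p.2 < cy e ∧ cy e ≤ G.tp G.Yd (cx e)}

open Classical in
/-- images of the labels -/
noncomputable def mvd (S : Set (ℤ × ℤ)) (e : ℤ × ℤ) : ℤ × ℤ := if e ∈ S then dn e else e

/-- **Numbers of the down move.** -/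
structure Dn (G : Pic κ) (xl H xa ρ : ℤ) (p : ℤ × ℤ) : Prop where
  ok : G.Ok xl H
  h2 : 2 ≤ G.h
  xla : xl ≤ xa
  p1 : xa ≤ p.1
  p1' : p.1 < G.xs
  p2 : G.Yc - ρ ≤ p.2
  rH : ρ ≤ H
  Yr : G.Yd < G.Yc + ρ
  pT : ∀ x, G.xs ≤ x → x < G.xe → p.2 < G.Yc - G.T x

section mem
variable {G : Pic κ} {xl H : ℤ}

/-- tiles of the strand graph right of `xl`, in the band -/
lemma memL (hG : G.Ok xl H) {x y : ℤ} (hx : xl ≤ x) (hx' : x ≤ G.xw) (hy : G.Yc - H ≤ y)
    (hy' : y < G.Yc + H) : lt (x, y) ∈ G.Λ ↔ x < G.xe ∨ y ≤ G.Yc ∨ x = G.xe ∨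
      (G.P = true ∧ G.xt - 1 ≤ x) := by
  have a1 := hG.xet
  have a2 := hG.xtw
  by_cases h1 : x < G.xe
  · have := hG.sub (hG.gl x y hx h1 hy hy')
    tauto
  by_cases h2 : x < G.xt
  · by_cases h3 : y < G.Yc
    · have := hG.sub (hG.gb x y (by omega) (by omega) hy h3)
      have : y ≤ G.Yc := h3.le
      tauto
    · rw [(hG.gt x y (by omega) h2 (by omega) hy').2]
      constructor
      · rintro (h | h | ⟨h, h'⟩)
        · exact Or.inr (Or.inr (Or.inl h))
        · exact Or.inr (Or.inl h.le)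
        · exact Or.inr (Or.inr (Or.inr ⟨h, by omega⟩))
      · rintro (h | h | h | ⟨h, h'⟩)
        · exact absurd h h1
        · exact Or.inr (Or.inl (by omega))
        · exact Or.inl h
        · exact Or.inr (Or.inr ⟨h, by omega⟩)
  by_cases h3 : x < G.xw
  · have hP : G.P = true := by
      by_contra hP
      have := hG.xtw' (by simpa using hP)
      omega
    have : lt (x, y) ∈ G.Λ := by
      by_cases h4 : y < G.Yc
      · exact hG.sub (hG.gb x y (by omega) h3 hy h4)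
      · exact hG.sub (hG.gp hP x y (by omega) h3 (by omega) hy')
    have h5 : G.P = true ∧ G.xt - 1 ≤ x := ⟨hP, by omega⟩
    tauto
  · have hxw : x = G.xw := by omega
    subst hxw
    rw [(hG.gw y hy hy').2]
    constructor
    · rintro (h | h)
      · exact Or.inr (Or.inl h)
      · exact Or.inr (Or.inr (Or.inr ⟨h, by omega⟩))
    · rintro (h | h | h | ⟨h, -⟩)
      · omega
      · exact Or.inl h
      · omega
      · exact Or.inr h

/-- random tiles -/
lemma memE (hG : G.Ok xl H) {x y : ℤ} (hx : xl ≤ x) (hx' : x ≤ G.xw) (hy : G.Yc - H ≤ y)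
    (hy' : y < G.Yc + H) : lt (x, y) ∈ G.E ↔ x < G.xe ∨ (x < G.xw ∧ (y < G.Yc ∨
      (G.P = true ∧ G.xt ≤ x))) := by
  have a1 := hG.xet
  have a2 := hG.xtw
  by_cases h1 : x < G.xe
  · have := hG.gl x y hx h1 hy hy'
    tauto
  by_cases h3 : x < G.xw
  · by_cases h4 : y < G.Yc
    · have := hG.gb x y (by omega) h3 hy h4
      tauto
    · by_cases h2 : x < G.xt
      · have := (hG.gt x y (by omega) h2 (by omega) hy').1
        constructor
        · intro h; exact absurd h this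
        · rintro (h | ⟨-, h | ⟨-, h⟩⟩) <;> omega
      · have hP : G.P = true := by
          by_contra hP
          have := hG.xtw' (by simpa using hP)
          omega
        have := hG.gp hP x y (by omega) h3 (by omega) hy'
        have h5 : G.xt ≤ x := by omega
        tauto
  · have hxw : x = G.xw := by omega
    subst hxw
    have := (hG.gw y hy hy').1
    constructor
    · intro h; exact absurd h this
    · rintro (h | ⟨h, -⟩) <;> omega

lemma mem_KW {r : ℤ} {e : ℤ × ℤ} : e ∈ G.KW r ↔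
    Xor (e ∈ G.W0) (e ∈ G.Λ ∧ e ∉ G.E ∧ cx e = G.xw ∧ r < cy e ∧ cy e < G.Yc) := by
  classical
  unfold Pic.KW
  rw [mem_symmDiff, mem_filter, mem_sdiff, and_assoc]
  exact Iff.rfl

lemma mem_KN {t : ℤ} {e : ℤ × ℤ} : e ∈ G.KN t ↔
    Xor (e ∈ G.W0) (e ∈ G.Λ ∧ e ∉ G.E ∧ G.tog t (cx e) (cy e)) := by
  classical
  unfold Pic.KN
  rw [mem_symmDiff, mem_filter, mem_sdiff, and_assoc]
  exact Iff.rfl

lemma KW_E (hG : G.Ok xl H) {r : ℤ} {e : ℤ × ℤ} (he : e ∈ G.E) : e ∉ G.KW r := by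
  rw [mem_KW, xor_f' (fun h => hG.dis e h he)]
  exact fun h => h.2.1 he

lemma KN_E (hG : G.Ok xl H) {t : ℤ} {e : ℤ × ℤ} (he : e ∈ G.E) : e ∉ G.KN t := by
  rw [mem_KN, xor_f' (fun h => hG.dis e h he)]
  exact fun h => h.2.1 he

lemma mem_Rt {x y : ℤ} : lt (x, y) ∈ G.Rt ↔ lt (x, y) ∈ G.E ∧ y = G.Yc - 1 ∧ G.xe ≤ x ∧ x < G.xt := by
  unfold Pic.Rt
  rw [mem_filter, cx_lt, cy_lt]

lemma mem_FL {x y : ℤ} : lt (x, y) ∈ G.FL ↔ lt (x, y) ∈ G.E ∧ G.xs ≤ x ∧ x < G.xe ∧
    G.Yc - G.T x - 1 ≤ y ∧ y < G.Yd := by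
  unfold Pic.FL
  rw [mem_filter, cx_lt, cy_lt]

/-- the top of the strip -/
lemma tp_cases (t x : ℤ) : (x ≤ G.xe ∧ G.tp t x = t) ∨
    (G.xe < x ∧ (G.P = true ∧ G.xt - 1 ≤ x) ∧ G.tp t x = G.YF) ∨
    (G.xe < x ∧ ¬ (G.P = true ∧ G.xt - 1 ≤ x) ∧ G.tp t x = G.Yc) := by
  unfold Pic.tp
  split_ifs with h1 h2
  · exact Or.inl ⟨h1, rfl⟩
  · exact Or.inr (Or.inl ⟨by omega, h2, rfl⟩)
  · exact Or.inr (Or.inr ⟨by omega, h2, rfl⟩)

end mem

namespace Dn

variable {G : Pic κ} {xl H xa ρ : ℤ} {p : ℤ × ℤ}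

lemma nums (N : Dn G xl H xa ρ p) : p.2 + 4 < G.Yc ∧ G.Yc - H ≤ p.2 ∧ G.Yd < G.Yc + H ∧
    G.Yc + 2 ≤ G.Yd ∧ xl ≤ p.1 ∧ xl ≤ G.xs ∧ G.xs < G.xe ∧ G.xe + 4 ≤ G.xt ∧ G.xt ≤ G.xw := by
  have h1 := N.ok.th G.xs N.ok.xls N.ok.xse
  have h2 := N.pT G.xs le_rfl N.ok.xse
  have h3 := N.h2
  have h4 := N.p2
  have h5 := N.rH
  have h6 := N.Yr
  have h7 := N.xla
  have h8 := N.p1
  have h9 := N.ok.xls
  have h10 := N.ok.xse
  have h11 := N.ok.xtw
  have h12 := N.ok.xet
  have h13 : G.Yd = G.Yc + G.h := rfl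
  have hxt : G.xe + 4 ≤ G.xt := by
    obtain ⟨a, ha⟩ := (N.ok.dm.trans N.ok.dxe)
    obtain ⟨b, hb⟩ := N.ok.dxt
    have hab : a < b := by
      by_contra hcon
      push Not at hcon
      have : 2 * (G.h : ℤ) * b ≤ 2 * (G.h : ℤ) * a := by
        apply mul_le_mul_of_nonneg_left hcon; positivity
      omega
    have : 2 * (G.h : ℤ) * (a + 1) ≤ 2 * (G.h : ℤ) * b := by
      apply mul_le_mul_of_nonneg_left (by omega); positivity
    have h14 : 2 * (G.h : ℤ) * (a + 1) = G.xe + 2 * (G.h : ℤ) := by rw [ha]; ring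
    omega
  have hH := N.ok.YF1
  have hH2 := N.ok.YF2
  exact ⟨by omega, by omega, by omega, by omega, by omega, h9, h10, hxt, h11⟩

/-- membership in the strip -/
lemma mem_S {x y : ℤ} : lt (x, y) ∈ SD G p ↔ G.xs ≤ x ∧ x ≤ G.xw ∧ p.2 < y ∧ y ≤ G.tp G.Yd x := by
  show (G.xs ≤ cx (lt (x, y)) ∧ _) ↔ _
  rw [cx_lt, cy_lt]

lemma mem_Bk {x y : ℤ} : lt (x, y) ∈ Bk G xa ρ ↔ xa ≤ x ∧ x < G.xs ∧ G.Yc - ρ ≤ y ∧ y < G.Yc + ρ := by
  show (xa ≤ cx (lt (x, y)) ∧ _) ↔ _
  rw [cx_lt, cy_lt]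

lemma mem_D1 {x y : ℤ} : lt (x, y) ∈ (G.WW p).D ↔ y = p.2 ∧ p.1 ≤ x ∧ x ≤ G.xw := by
  show ((lt (x, y)).1 + (lt (x, y)).2) % 2 = 1 ∧ _ ↔ _
  rw [cx_lt, cy_lt]
  have := lt_odd (x, y)
  tauto

lemma mem_D2 {x y : ℤ} : lt (x, y) ∈ G.WL.D ↔ (y = G.Yd ∧ G.xs ≤ x ∧ x ≤ G.xe) ∨
    (G.P = true ∧ y = G.YF ∧ G.xt - 1 ≤ x ∧ x ≤ G.xw) := by
  show ((lt (x, y)).1 + (lt (x, y)).2) % 2 = 1 ∧ _ ↔ _
  rw [cx_lt, cy_lt]
  have := lt_odd (x, y)
  tauto

lemma tp_lt (N : Dn G xl H xa ρ p) (x : ℤ) : G.Yc ≤ G.tp G.Yd x ∧ G.tp G.Yd x + 1 < G.Yc + H := by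
  have h1 := N.nums
  have h2 := N.ok.YF1
  have h3 := N.ok.YF2
  rcases tp_cases (G := G) G.Yd x with ⟨-, h⟩ | ⟨-, -, h⟩ | ⟨-, -, h⟩ <;> rw [h] <;> omega

/-- the image of a tile of the strip is a tile of the strand graph -/
lemma dn_mem (N : Dn G xl H xa ρ p) {x y : ℤ} (hL : lt (x, y) ∈ G.Λ) (hS : lt (x, y) ∈ SD G p) :
    lt (x, y - 1) ∈ G.Λ := by
  have h1 := N.nums
  rw [mem_S] at hS
  have h2 := N.tp_lt x
  rw [memL N.ok (by omega) (by omega) (by omega) (by omega)] at hL ⊢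
  rcases hL with h | h | h | h
  · exact Or.inl h
  · exact Or.inr (Or.inl (by omega))
  · exact Or.inr (Or.inr (Or.inl h))
  · exact Or.inr (Or.inr (Or.inr h))

/-- the image of a tile of the strip is not deleted -/
lemma dn_D (N : Dn G xl H xa ρ p) {x y : ℤ} (hS : lt (x, y) ∈ SD G p) : lt (x, y - 1) ∉ G.WL.D := by
  have h1 := N.nums
  have h3 := N.ok.YF1
  rw [mem_S] at hS
  rw [mem_D2]
  rintro (⟨g1, g2, g3⟩ | ⟨g1, g2, g3, g4⟩)
  · rcases tp_cases (G := G) G.Yd x with ⟨h4, h⟩ | ⟨h4, -, h⟩ | ⟨h4, -, h⟩ <;> omega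
  · rcases tp_cases (G := G) G.Yd x with ⟨h4, h⟩ | ⟨h4, -, h⟩ | ⟨h4, h5, h⟩
    · omega
    · omega
    · exact h5 ⟨g1, g3⟩

/-- deleted tiles of the canonical world are in the strip -/
lemma D2_S (N : Dn G xl H xa ρ p) {x y : ℤ} (h : lt (x, y) ∈ G.WL.D) : lt (x, y) ∈ SD G p := by
  have h1 := N.nums
  have h3 := N.ok.YF1
  rw [mem_D2] at h
  rw [mem_S]
  rcases tp_cases (G := G) G.Yd x with ⟨h4, h5⟩ | ⟨h4, h6, h5⟩ | ⟨h4, h6, h5⟩ <;> rw [h5]
  · rcases h with h | ⟨g1, g2, g3, g4⟩ <;> omega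
  · rcases h with h | ⟨g1, g2, g3, g4⟩ <;> omega
  · rcases h with h | ⟨g1, g2, g3, g4⟩
    · omega
    · exact absurd ⟨g1, g3⟩ h6

/-- random tiles of the strip have random images -/
lemma dn_E (N : Dn G xl H xa ρ p) {x y : ℤ} (hE : lt (x, y) ∈ G.E) (hS : lt (x, y) ∈ SD G p) :
    lt (x, y - 1) ∈ G.E ∧ lt (x, y - 1) ∉ G.Rt := by
  have h1 := N.nums
  have h2 := N.tp_lt x
  rw [mem_S] at hS
  rw [mem_Rt]
  rw [memE N.ok (by omega) (by omega) (by omega) (by omega)] at hE ⊢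
  rcases hE with h | ⟨h, h' | ⟨h', h''⟩⟩
  · exact ⟨Or.inl h, fun g => by omega⟩
  · exact ⟨Or.inr ⟨h, Or.inl (by omega)⟩, fun g => by omega⟩
  · exact ⟨Or.inr ⟨h, Or.inr ⟨h', h''⟩⟩, fun g => by omega⟩

/-- states of the outer tiles of the strip -/
lemma dn_W (N : Dn G xl H xa ρ p) {x y : ℤ} (hL : lt (x, y) ∈ G.Λ) (hE : lt (x, y) ∉ G.E)
    (hS : lt (x, y) ∈ SD G p) :
    (lt (x, y - 1) ∉ G.E ∨ lt (x, y - 1) ∈ G.Rt) ∧
      (lt (x, y - 1) ∈ G.KN G.Yd ∪ G.RtW ↔ lt (x, y) ∉ G.KW p.2) := by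
  classical
  have h1 := N.nums
  have h2 := N.tp_lt x
  have hYF := N.ok.YF1
  have hS' := hS
  rw [mem_S] at hS
  have hL' := N.dn_mem hL hS'
  have hmL := hL
  rw [memL N.ok (by omega) (by omega) (by omega) (by omega)] at hmL
  have hmE := hE
  rw [memE N.ok (by omega) (by omega) (by omega) (by omega)] at hmE
  push Not at hmE
  obtain ⟨m1, m2⟩ := hmE
  -- state in world 1
  have k1 : lt (x, y) ∈ G.KW p.2 ↔ Xor (lt (x, y) ∈ G.W0) (x = G.xw ∧ y < G.Yc) := by
    rw [mem_KW, cx_lt, cy_lt]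
    have g1 : (lt (x, y) ∈ G.Λ ∧ lt (x, y) ∉ G.E ∧ x = G.xw ∧ p.2 < y ∧ y < G.Yc) ↔
        (x = G.xw ∧ y < G.Yc) :=
      ⟨fun h => ⟨h.2.2.1, h.2.2.2.2⟩, fun h => ⟨hL, hE, h.1, hS.2.2.1, h.2⟩⟩
    show Xor _ (lt (x, y) ∈ G.Λ ∧ lt (x, y) ∉ G.E ∧ x = G.xw ∧ p.2 < y ∧ y < G.Yc) ↔ _
    rw [g1]
  rcases lt_or_eq_of_le hS.2.1 with hx | hx
  · -- the tooth
    have m3 := m2 hx
    have hxt : x < G.xt := by
      by_contra hcon
      have hP : G.P = true := by
        by_contra hP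
        have := N.ok.xtw' (by simpa using hP)
        omega
      exact absurd (m3.2 hP) (by omega)
    have c1 : lt (x, y) ∈ G.W0 ↔ G.kT = true := N.ok.cT x y m1 hxt m3.1 (by omega) hL
    have s1 : lt (x, y) ∈ G.KW p.2 ↔ G.kT = true := by
      rw [k1, c1]
      exact xor_f (by omega)
    by_cases hy : y = G.Yc
    · -- the bottom of the tooth goes to `Rt`
      have hRt : lt (x, y - 1) ∈ G.Rt := by
        rw [mem_Rt, memE N.ok (by omega) (by omega) (by omega) (by omega)]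
        exact ⟨Or.inr ⟨hx, Or.inl (by omega)⟩, by omega, m1, hxt⟩
      have hE' : lt (x, y - 1) ∈ G.E := (mem_Rt.1 hRt).1
      refine ⟨Or.inr hRt, ?_⟩
      have e1 : up (lt (x, y - 1)) = lt (x, y) := by rw [up_lt']; congr 2; ring
      have s2 : lt (x, y - 1) ∈ G.RtW ↔ lt (x, y) ∈ G.KN G.Yd := by
        unfold Pic.RtW
        rw [mem_filter, e1]
        exact ⟨fun h => h.2, fun h => ⟨hRt, h⟩⟩
      have s3 : lt (x, y) ∈ G.KN G.Yd ↔ ¬ G.kT = true := by
        rw [mem_KN, cx_lt, cy_lt, c1]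
        exact xor_t ⟨hL, hE, m1, hx.le, by omega, hS.2.2.2⟩
      rw [mem_union, s2, s3, s1]
      exact or_iff_right (KN_E N.ok (t := G.Yd) hE')
    · -- higher rows
      have hE' : lt (x, y - 1) ∉ G.E := (N.ok.gt x (y - 1) m1 hxt (by omega) (by omega)).1
      refine ⟨Or.inl hE', ?_⟩
      have c2 : lt (x, y - 1) ∈ G.W0 ↔ G.kT = true :=
        N.ok.cT x (y - 1) m1 hxt (by omega) (by omega) hL'
      have s3 : lt (x, y - 1) ∈ G.KN G.Yd ↔ ¬ G.kT = true := by
        rw [mem_KN, cx_lt, cy_lt, c2]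
        exact xor_t ⟨hL', hE', m1, hx.le, by show G.Yc ≤ y - 1; omega,
          by show y - 1 ≤ G.tp G.Yd x; omega⟩
      have s4 : lt (x, y - 1) ∉ G.RtW := by
        unfold Pic.RtW
        rw [mem_filter]
        intro h
        exact hE' (mem_Rt.1 h.1).1
      rw [mem_union, s3, s1]
      exact or_iff_left s4
  · -- the right wall
    subst hx
    have hE' : lt (G.xw, y - 1) ∉ G.E := (N.ok.gw (y - 1) (by omega) (by omega)).1
    refine ⟨Or.inl hE', ?_⟩
    have c1 := N.ok.cW y (by omega) (by omega) hL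
    have c2 := N.ok.cW (y - 1) (by omega) (by omega) hL'
    have s4 : lt (G.xw, y - 1) ∉ G.RtW := by
      unfold Pic.RtW
      rw [mem_filter]
      intro h
      exact hE' (mem_Rt.1 h.1).1
    have s1 : lt (G.xw, y) ∈ G.KW p.2 ↔ ¬ G.kW = true := by
      rw [k1, c1]
      by_cases hy : y < G.Yc
      · have g : G.xw = G.xw ∧ y < G.Yc := ⟨rfl, hy⟩
        rw [xor_t g, iff_true_right hy]
      · have g : ¬ (G.xw = G.xw ∧ y < G.Yc) := fun h => hy h.2
        rw [xor_f g, iff_false_right hy]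
    have s3 : lt (G.xw, y - 1) ∈ G.KN G.Yd ↔ G.kW = true := by
      rw [mem_KN, cx_lt, cy_lt, c2]
      by_cases hy : y - 1 < G.Yc
      · have g : ¬ (lt (G.xw, y - 1) ∈ G.Λ ∧ lt (G.xw, y - 1) ∉ G.E ∧ G.tog G.Yd G.xw (y - 1)) := by
          rintro ⟨-, -, -, -, g1, -⟩
          omega
        exact (xor_f g).trans (iff_true_right hy)
      · have g : lt (G.xw, y - 1) ∈ G.Λ ∧ lt (G.xw, y - 1) ∉ G.E ∧ G.tog G.Yd G.xw (y - 1) :=
          ⟨hL', hE', by omega, le_rfl, by omega, by omega⟩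
        refine (xor_t g).trans ?_
        rw [iff_false_right hy, not_not]
    rw [mem_union, s3, s1, not_not]
    exact or_iff_left s4

/-- states of the outer tiles off the strip -/
lemma pl_W (N : Dn G xl H xa ρ p) {x y : ℤ} (hL : lt (x, y) ∈ G.Λ) (hE : lt (x, y) ∉ G.E)
    (hS : lt (x, y) ∉ SD G p) (hD : lt (x, y) ∉ (G.WW p).D) :
    (lt (x, y) ∈ G.KN G.Yd ∪ G.RtW ↔ lt (x, y) ∈ G.KW p.2) := by
  classical
  have h1 := N.nums
  have h2 := N.tp_lt x
  have s4 : lt (x, y) ∉ G.RtW := by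
    unfold Pic.RtW
    rw [mem_filter]
    intro h
    exact hE (mem_Rt.1 h.1).1
  rw [mem_S] at hS
  have s1 : lt (x, y) ∈ G.KW p.2 ↔ lt (x, y) ∈ G.W0 := by
    rw [mem_KW, cx_lt, cy_lt]
    have g : ¬ (lt (x, y) ∈ G.Λ ∧ lt (x, y) ∉ G.E ∧ x = G.xw ∧ p.2 < y ∧ y < G.Yc) := by
      rintro ⟨-, -, g1, g2, g3⟩
      exact hS ⟨by omega, by omega, g2, by omega⟩
    exact xor_f g
  have s3 : lt (x, y) ∈ G.KN G.Yd ↔ lt (x, y) ∈ G.W0 := by
    rw [mem_KN, cx_lt, cy_lt]
    have g : ¬ (lt (x, y) ∈ G.Λ ∧ lt (x, y) ∉ G.E ∧ G.tog G.Yd x y) := by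
      rintro ⟨-, -, g1, g2, g3, g4⟩
      exact hS ⟨by omega, g2, by omega, g4⟩
    exact xor_f g
  rw [mem_union, s3, s1]
  exact or_iff_left s4

/-- plates of the images -/
lemma pl_mvd (N : Dn G xl H xa ρ p) {x y : ℤ} (hE : lt (x, y) ∈ G.E) (hB : lt (x, y) ∉ Bk G xa ρ)
    (hD : lt (x, y) ∉ (G.WW p).D) : ∃ y', mvd (SD G p) (lt (x, y)) = lt (x, y') ∧
      G.plL x y' = G.pl x y := by
  have h1 := N.nums
  have h2 := N.tp_lt x
  rw [mem_D1] at hD
  unfold mvd
  split_ifs with hS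
  · rw [mem_S] at hS
    refine ⟨y - 1, dn_lt x y, ?_⟩
    have e1 : y - 1 + 1 = y := by ring
    unfold Pic.plL
    rw [e1]
    by_cases hx : x < G.xe
    · have htp : G.tp G.Yd x = G.Yd := by
        rcases tp_cases (G := G) G.Yd x with ⟨-, h⟩ | ⟨h4, -, h⟩ | ⟨h4, -, h⟩
        · exact h
        · omega
        · omega
      have hth := N.ok.th x (by omega) hx
      have h13 : G.Yd = G.Yc + G.h := rfl
      rw [htp] at hS
      split_ifs with h3
      · rfl
      · rw [N.ok.pc x (y - 1) (by omega) hx (by omega) (by omega),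
          N.ok.pc x y (by omega) hx (by omega) (by omega)]
        by_cases h4 : G.Yc - G.T x ≤ y
        · rw [if_pos (by omega), if_pos (by omega)]
        · rw [if_neg (by omega), if_neg (by omega)]
    · rw [if_neg (by omega), N.ok.pn x (y - 1) (by omega) (by omega) (by omega) (by omega),
        N.ok.pn x y (by omega) (by omega) (by omega) (by omega)]
  · refine ⟨y, rfl, ?_⟩
    rw [mem_S] at hS
    unfold Pic.plL
    rw [if_neg]
    rintro ⟨g1, g2, g3⟩
    have hp := N.pT x g1 g2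
    have hth := N.ok.th x (by omega) g2
    have hp1 := N.p1'
    exact hS ⟨g1, by omega, by omega, by omega⟩

/-- labels of the first world outside the block which are not deleted -/
noncomputable def O1 (G : Pic κ) (xa ρ : ℤ) (p : ℤ × ℤ) : Finset (ℤ × ℤ) := by
  classical
  exact G.E.filter fun e => e ∉ Bk G xa ρ ∧ e ∉ (G.WW p).D

lemma mem_O1 {e : ℤ × ℤ} : e ∈ O1 G xa ρ p ↔ e ∈ G.E ∧ e ∉ Bk G xa ρ ∧ e ∉ (G.WW p).D := by
  classical
  unfold O1
  rw [mem_filter]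

lemma mvd_inj (N : Dn G xl H xa ρ p) : Set.InjOn (mvd (SD G p)) (O1 G xa ρ p : Set (ℤ × ℤ)) := by
  have h1 := N.nums
  have key : ∀ e ∈ O1 G xa ρ p, ∀ e' ∈ O1 G xa ρ p, e ∈ SD G p → e' ∉ SD G p → dn e ≠ e' := by
    intro e he e' he' hS hS' heq
    rw [mem_O1] at he he'
    have ho := N.ok.odd e (N.ok.sub he.1)
    obtain ⟨x, y, rfl⟩ : ∃ x y, e = lt (x, y) := ⟨cx e, cy e, (lt_cc ho).symm⟩
    rw [dn_lt] at heq
    subst heq
    rw [mem_S] at hS hS'
    have hp1 := N.p1'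
    have : y - 1 = p.2 := by
      by_contra hne
      exact hS' ⟨hS.1, hS.2.1, by omega, by omega⟩
    exact he'.2.2 (mem_D1.2 ⟨this, by omega, hS.2.1⟩)
  intro e he e' he' heq
  unfold mvd at heq
  split_ifs at heq with h2 h3 h3
  · exact Pool.Agent.H45.W.dn_inj heq
  · exact absurd heq (key e he e' he' h2 h3)
  · exact absurd heq.symm (key e' he' e he h3 h2)
  · exact heq

/-- the block of a label of the second world -/
lemma bb_lt (q : ℤ → ℤ → Option κ) (x y : ℤ) : bb q (lt (x, y)) =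
    match q x y with
    | none => Sum.inl (lt (x, y))
    | some k => Sum.inr k := by
  unfold bb
  rw [cx_lt, cy_lt]
  rfl

/-- **Bookkeeping of the labels.** -/
theorem lm [DecidableEq κ] (N : Dn G xl H xa ρ p) :
    LMove (G.WW p) G.WL (mvd (SD G p)) (SD G p) (O1 G xa ρ p) ((O1 G xa ρ p).image (mvd (SD G p))) where
  s1 e he := (mem_O1.1 he).1
  s2 := by
    intro e he
    obtain ⟨l, hl, rfl⟩ := mem_image.1 he
    have hl' := mem_O1.1 hl
    have ho := N.ok.odd l (N.ok.sub hl'.1)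
    obtain ⟨x, y, rfl⟩ : ∃ x y, l = lt (x, y) := ⟨cx l, cy l, (lt_cc ho).symm⟩
    show _ ∈ G.E \ G.Rt
    rw [mem_sdiff]
    unfold mvd
    split_ifs with hS
    · rw [dn_lt]; exact N.dn_E hl'.1 hS
    · refine ⟨hl'.1, fun hR => ?_⟩
      have h1 := N.nums
      have h2 := N.tp_lt x
      rw [mem_Rt] at hR
      rw [mem_S] at hS
      exact hS ⟨by omega, by omega, by omega, by omega⟩
  im := rfl
  inj := N.mvd_inj
  blk := by
    intro l hl l' hl'
    have g := mem_O1.1 hl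
    have g' := mem_O1.1 hl'
    have ho := N.ok.odd l (N.ok.sub g.1)
    have ho' := N.ok.odd l' (N.ok.sub g'.1)
    obtain ⟨x, y, rfl⟩ : ∃ x y, l = lt (x, y) := ⟨cx l, cy l, (lt_cc ho).symm⟩
    obtain ⟨x', y', rfl⟩ : ∃ x y, l' = lt (x, y) := ⟨cx l', cy l', (lt_cc ho').symm⟩
    obtain ⟨z, hz, hz'⟩ := N.pl_mvd g.1 g.2.1 g.2.2
    obtain ⟨t, ht, ht'⟩ := N.pl_mvd g'.1 g'.2.1 g'.2.2
    show bb G.pl _ = bb G.pl _ ↔ bb G.plL _ = bb G.plL _
    rw [hz, ht, bb_lt, bb_lt, bb_lt, bb_lt, hz', ht']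
    cases h1 : G.pl x y with
    | none =>
      cases h2 : G.pl x' y' with
      | none =>
        simp only [Sum.inl.injEq]
        constructor
        · intro h; rw [← hz, ← ht, h]
        · intro h
          rw [← hz, ← ht] at h
          exact N.mvd_inj hl hl' h
      | some k => simp
    | some k =>
      cases h2 : G.pl x' y' with
      | none => simp
      | some k' => simp
  par := by
    intro l hl l' hl' hb hf
    have g := mem_O1.1 hl
    have g' := mem_O1.1 hl'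
    have ho := N.ok.odd l (N.ok.sub g.1)
    have ho' := N.ok.odd l' (N.ok.sub g'.1)
    obtain ⟨x, y, rfl⟩ : ∃ x y, l = lt (x, y) := ⟨cx l, cy l, (lt_cc ho).symm⟩
    obtain ⟨x', y', rfl⟩ : ∃ x y, l' = lt (x, y) := ⟨cx l', cy l', (lt_cc ho').symm⟩
    -- a label of a plate is never flipped
    cases h1 : G.pl x y with
    | some k =>
      exfalso
      have h2 := N.nums
      have h3 := N.tp_lt x
      have hf : lt (x, y) ∈ O1 G xa ρ p ∧ Xor (lt (x, y) ∈ SD G p) (Xor (lt (x, y) ∈ (G.WW p).F)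
          (mvd (SD G p) (lt (x, y)) ∈ G.WL.F)) := by
        classical
        unfold fl at hf
        rw [mem_filter] at hf
        exact hf
      have hF : lt (x, y) ∉ (G.WW p).F := by show _ ∉ (∅ : Finset (ℤ × ℤ)); simp
      have hx := hf.2
      have hD := g.2.2
      rw [mem_D1] at hD
      by_cases hS : lt (x, y) ∈ SD G p
      · have hm : mvd (SD G p) (lt (x, y)) = lt (x, y - 1) := by
          unfold mvd; rw [if_pos hS, dn_lt]
        have hFL : lt (x, y - 1) ∈ G.WL.F := by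
          show _ ∈ G.FL
          rw [mem_FL]
          rw [mem_S] at hS
          have hxe : x < G.xe := by
            by_contra hcon
            have := N.ok.pn x y (by omega) hS.2.1 (by omega) (by omega)
            rw [this] at h1
            exact absurd h1 (by simp)
          have htp : G.tp G.Yd x = G.Yd := by
            rcases tp_cases (G := G) G.Yd x with ⟨-, h⟩ | ⟨h4, -, h⟩ | ⟨h4, -, h⟩
            · exact h
            · omega
            · omega
          have h4 := N.ok.pc x y (by omega) hxe (by omega) (by omega)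
          rw [h1] at h4
          have h5 : G.Yc - G.T x ≤ y ∧ y < G.Yc + G.T x := by
            by_contra hcon
            rw [if_neg hcon] at h4
            exact absurd h4 (by simp)
          refine ⟨N.ok.gl x (y - 1) (by omega) hxe (by omega) (by omega), hS.1, hxe, by omega, by omega⟩
        rw [hm, xor_t' hS, xor_f' hF] at hx
        exact hx hFL
      · have hm : mvd (SD G p) (lt (x, y)) = lt (x, y) := by
          unfold mvd; rw [if_neg hS]
        have hFL : lt (x, y) ∉ G.WL.F := by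
          show _ ∉ G.FL
          rw [mem_FL]
          rintro ⟨-, g1, g2, g3, g4⟩
          rw [mem_S] at hS
          have hp := N.pT x g1 g2
          have hp1 := N.p1'
          have htp : G.tp G.Yd x = G.Yd := by
            rcases tp_cases (G := G) G.Yd x with ⟨-, h⟩ | ⟨h4, -, h⟩ | ⟨h4, -, h⟩
            · exact h
            · omega
            · omega
          exact hS ⟨g1, by omega, by omega, by omega⟩
        rw [hm, xor_f' hS, xor_f' hF] at hx
        exact hFL hx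
    | none =>
      have : lt (x, y) = lt (x', y') := by
        have hb' : bb G.pl (lt (x, y)) = bb G.pl (lt (x', y')) := hb
        rw [bb_lt, bb_lt, h1] at hb'
        cases h2 : G.pl x' y' with
        | none => rw [h2] at hb'; simpa using hb'
        | some k => rw [h2] at hb'; simp at hb'
      rw [← this]
      exact hf
  w1 l hl := KW_E N.ok (mem_O1.1 hl).1
  w2 l hl := by
    obtain ⟨e, he, rfl⟩ := mem_image.1 hl
    have g := mem_O1.1 he
    have ho := N.ok.odd e (N.ok.sub g.1)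
    obtain ⟨x, y, rfl⟩ : ∃ x y, e = lt (x, y) := ⟨cx e, cy e, (lt_cc ho).symm⟩
    show _ ∉ G.KN G.Yd ∪ G.RtW
    have hR : ∀ q, q ∉ G.Rt → q ∉ G.RtW := by
      classical
      intro q hq h
      unfold Pic.RtW at h
      exact hq (mem_filter.1 h).1
    have key : mvd (SD G p) (lt (x, y)) ∈ G.E ∧ mvd (SD G p) (lt (x, y)) ∉ G.Rt := by
      unfold mvd
      split_ifs with hS
      · rw [dn_lt]; exact N.dn_E g.1 hS
      · refine ⟨g.1, fun hR => ?_⟩
        have h1 := N.nums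
        have h2 := N.tp_lt x
        rw [mem_Rt] at hR
        rw [mem_S] at hS
        exact hS ⟨by omega, by omega, by omega, by omega⟩
    rw [mem_union]
    rintro (h | h)
    · exact KN_E N.ok key.1 h
    · exact hR _ key.2 h

/-- **45's down move for corresponding configurations.** -/
theorem move [DecidableEq κ] (N : Dn G xl H xa ρ p) {ω1 ω2 : Finset (ℤ × ℤ)}
    (hC : Cor (G.WW p) G.WL (mvd (SD G p)) (SD G p) (O1 G xa ρ p)
      ((O1 G xa ρ p).image (mvd (SD G p))) ω1 ω2) :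
    DownMove (G.WW p).Λ G.WL.Λ (G.WW p).D G.WL.D ((G.WW p).st ω1) (G.WL.st ω2) (Bk G xa ρ)
      (SD G p) where
  odd e he := N.ok.odd e he
  plain e he hB hS hD := by
    have ho := N.ok.odd e he
    obtain ⟨x, y, rfl⟩ : ∃ x y, e = lt (x, y) := ⟨cx e, cy e, (lt_cc ho).symm⟩
    refine ⟨he, fun h => hS (N.D2_S h), ?_⟩
    by_cases hE : lt (x, y) ∈ G.E
    · have hO : lt (x, y) ∈ O1 G xa ρ p := mem_O1.2 ⟨hE, hB, hD⟩
      have := N.lm.state hC hO
      have hm : mvd (SD G p) (lt (x, y)) = lt (x, y) := by unfold mvd; rw [if_neg hS]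
      rw [hm, xor_f hS] at this
      exact this
    · have e1 : lt (x, y) ∈ (G.WW p).st ω1 ↔ lt (x, y) ∈ G.KW p.2 :=
        WD.mem_st' (A := G.WW p) (fun h => hE (hC.1 h)) (by show _ ∉ (∅ : Finset (ℤ × ℤ)); simp)
      have e2 : lt (x, y) ∈ G.WL.st ω2 ↔ lt (x, y) ∈ G.KN G.Yd ∪ G.RtW := by
        refine WD.mem_st' (A := G.WL) (fun h => hE ?_) (fun h => hE ?_)
        · exact (mem_sdiff.1 (hC.2.1 h)).1
        · exact (mem_FL.1 h).1
      rw [e1, e2]
      exact N.pl_W he hE hS hD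
  strip e he hB hS := by
    have ho := N.ok.odd e he
    obtain ⟨x, y, rfl⟩ : ∃ x y, e = lt (x, y) := ⟨cx e, cy e, (lt_cc ho).symm⟩
    have h1 := N.nums
    have hD : lt (x, y) ∉ (G.WW p).D := by
      rw [mem_D1]
      have hS' := hS
      rw [mem_S] at hS'
      omega
    rw [dn_lt]
    refine ⟨hD, N.dn_mem he hS, N.dn_D hS, ?_⟩
    by_cases hE : lt (x, y) ∈ G.E
    · have hO : lt (x, y) ∈ O1 G xa ρ p := mem_O1.2 ⟨hE, hB, hD⟩
      have := N.lm.state hC hO
      have hm : mvd (SD G p) (lt (x, y)) = lt (x, y - 1) := by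
        unfold mvd; rw [if_pos hS, dn_lt]
      rw [hm, xor_t hS] at this
      exact this
    · have e1 : lt (x, y) ∈ (G.WW p).st ω1 ↔ lt (x, y) ∈ G.KW p.2 :=
        WD.mem_st' (A := G.WW p) (fun h => hE (hC.1 h)) (by show _ ∉ (∅ : Finset (ℤ × ℤ)); simp)
      obtain ⟨g1, g2⟩ := N.dn_W he hE hS
      have e2 : lt (x, y - 1) ∈ G.WL.st ω2 ↔ lt (x, y - 1) ∈ G.KN G.Yd ∪ G.RtW := by
        refine WD.mem_st' (A := G.WL) (fun h => ?_) (fun h => ?_)
        · have := mem_sdiff.1 (hC.2.1 h)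
          rcases g1 with g1 | g1
          · exact g1 this.1
          · exact this.2 g1
        · have h3 := mem_FL.1 h
          rcases g1 with g1 | g1
          · exact g1 h3.1
          · have := mem_Rt.1 g1
            omega
      rw [e1, e2]
      exact g2
  del e he hB hD := by
    left
    have ho := N.ok.odd e he
    obtain ⟨x, y, rfl⟩ : ∃ x y, e = lt (x, y) := ⟨cx e, cy e, (lt_cc ho).symm⟩
    have h1 := N.nums
    have h2 := N.tp_lt x
    rw [mem_D1] at hD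
    rw [mem_Bk] at hB
    have hp2 := N.p2
    have hp1 := N.p1
    have hYr := N.Yr
    have hx : G.xs ≤ x := by
      by_contra hcon
      exact hB ⟨by omega, by omega, by omega, by omega⟩
    rw [up_lt', mem_S, mem_Bk]
    refine ⟨⟨hx, hD.2.2, by omega, by omega⟩, ?_, by omega⟩
    show lt (x, y + 1) ∈ G.Λ
    rw [memL N.ok (by omega) (by omega) (by omega) (by omega)]
    exact Or.inr (Or.inl (by omega))
  sh1 e he hB hS e' he' hB' hS' hD' c hc hc' := by
    have ho := N.ok.odd e he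
    have ho' := N.ok.odd e' he'
    have h1 := N.nums
    have h3 := N.ok.YF1
    have h4 := N.ok.YF2
    have hYr := N.Yr
    have hp2 := N.p2
    have hp1 := N.p1
    have hxla := N.xla
    have hp1' := N.p1'
    have hsh := shared ho ho' hc hc'
    obtain ⟨x, y, rfl⟩ : ∃ x y, e = lt (x, y) := ⟨cx e, cy e, (lt_cc ho).symm⟩
    rw [ea_lt, we_lt, up_lt', dn_lt] at hsh
    have hS1 := hS
    rw [mem_S] at hS1
    have ht := N.tp_lt x
    rcases hsh with rfl | ⟨hcc, rfl⟩ | ⟨hcc, rfl⟩ | ⟨hcc, rfl⟩ | ⟨hcc, rfl⟩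
    · exact absurd hS hS'
    · -- east
      exfalso
      rw [mem_S] at hS'
      have he2 : lt (x + 1, y) ∈ G.Λ := he'
      by_cases hxw : x = G.xw
      · exact N.ok.go y (by omega) (by omega) (hxw ▸ he2)
      rw [memL N.ok (by omega) (by omega) (by omega) (by omega)] at he2
      apply hS'
      refine ⟨by omega, by omega, by omega, ?_⟩
      rcases tp_cases (G := G) G.Yd x with ⟨g1, g2⟩ | ⟨g1, g3, g2⟩ | ⟨g1, g3, g2⟩ <;>
        rcases tp_cases (G := G) G.Yd (x + 1) with ⟨k1, k2⟩ | ⟨k1, k3, k2⟩ | ⟨k1, k3, k2⟩ <;>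
        rw [g2] at hS1 <;> rw [k2]
      · omega
      · omega
      · rcases he2 with h | h | h | h
        · omega
        · exact h
        · omega
        · exact absurd h k3
      · omega
      · omega
      · exact absurd ⟨g3.1, by omega⟩ k3
      · omega
      · omega
      · omega
    · -- west
      exfalso
      rw [mem_S] at hS'
      have he2 : lt (x - 1, y) ∈ G.Λ := he'
      by_cases hxs : x = G.xs
      · apply hB'
        rw [mem_Bk]
        have htp : G.tp G.Yd x = G.Yd := by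
          rcases tp_cases (G := G) G.Yd x with ⟨-, h⟩ | ⟨h4, -, h⟩ | ⟨h4, -, h⟩
          · exact h
          · omega
          · omega
        exact ⟨by omega, by omega, by omega, by omega⟩
      rw [memL N.ok (by omega) (by omega) (by omega) (by omega)] at he2
      apply hS'
      refine ⟨by omega, by omega, by omega, ?_⟩
      rcases tp_cases (G := G) G.Yd x with ⟨g1, g2⟩ | ⟨g1, g3, g2⟩ | ⟨g1, g3, g2⟩ <;>
        rcases tp_cases (G := G) G.Yd (x - 1) with ⟨k1, k2⟩ | ⟨k1, k3, k2⟩ | ⟨k1, k3, k2⟩ <;>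
        rw [g2] at hS1 <;> rw [k2]
      · omega
      · omega
      · omega
      · omega
      · omega
      · rcases he2 with h | h | h | h
        · omega
        · exact h
        · omega
        · exact absurd h k3
      · omega
      · omega
      · omega
    · -- north
      refine ⟨hcc, he, ?_⟩
      rw [mem_S] at hS'
      have he2 : lt (x, y + 1) ∈ G.Λ := he'
      have hy : y = G.tp G.Yd x := by
        by_contra hne
        exact hS' ⟨hS1.1, hS1.2.1, by omega, by omega⟩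
      rw [mem_D2]
      rw [memL N.ok (by omega) (by omega) (by omega) (by omega)] at he2
      rcases tp_cases (G := G) G.Yd x with ⟨g1, g2⟩ | ⟨g1, g3, g2⟩ | ⟨g1, g3, g2⟩ <;> rw [g2] at hy
      · left; exact ⟨hy, hS1.1, g1⟩
      · right; exact ⟨g3.1, hy, g3.2, hS1.2.1⟩
      · exfalso
        rcases he2 with h | h | h | h
        · omega
        · omega
        · omega
        · exact g3 h
    · -- south
      exfalso
      rw [mem_S] at hS'
      have hy : y - 1 = p.2 := by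
        by_contra hne
        exact hS' ⟨hS1.1, hS1.2.1, by omega, by omega⟩
      exact hD' (mem_D1.2 ⟨hy, by omega, hS1.2.1⟩)
  sh2 e he hB hS e' he' hB' hD' c hc hc' := by
    have ho := N.ok.odd e he
    have ho' := N.ok.odd e' he'
    have h1 := N.nums
    have hsh := shared ho ho' hc hc'
    obtain ⟨x, y, rfl⟩ : ∃ x y, e = lt (x, y) := ⟨cx e, cy e, (lt_cc ho).symm⟩
    rw [ea_lt, we_lt, up_lt', dn_lt] at hsh
    have hS1 := hS
    rw [mem_S] at hS1
    rcases hsh with rfl | ⟨hcc, rfl⟩ | ⟨hcc, rfl⟩ | ⟨hcc, rfl⟩ | ⟨hcc, rfl⟩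
    · rw [mem_D1] at hD'; omega
    · rw [mem_D1] at hD'; omega
    · rw [mem_D1] at hD'; omega
    · rw [mem_D1] at hD'; omega
    · have e1 : dn (lt (x, y)) = lt (x, y - 1) := dn_lt x y
      have e2 : up (lt (x, y - 1)) = lt (x, y) := by rw [up_lt']; congr 2; ring
      refine ⟨?_, by rw [e2]; exact hS⟩
      rw [← e1, eN_dn]
      exact hcc

/-- **The field `simu` of `Half`.** -/
theorem simu [DecidableEq κ] (N : Dn G xl H xa ρ p) {ω1 ω2 : Finset (ℤ × ℤ)}
    (hC : Cor (G.WW p) G.WL (mvd (SD G p)) (SD G p) (O1 G xa ρ p)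
      ((O1 G xa ρ p).image (mvd (SD G p))) ω1 ω2) :
    ∃ G1o, Simu ((G.WW p).G ω1) G1o (KB (Bk G xa ρ)) (G.WL.G ω2)
      (SRd (G.WW p).Λ (G.WW p).D (Bk G xa ρ) (SD G p)) :=
  ⟨_, simu_dn (N.move hC)⟩

end Dn

end Pool.Agent.H13.W
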