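import Mathlib
import Pool.Agent.H82.W.VHalfD
import Pool.Agent.H22.W.VcPic

set_option autoImplicit false
set_option linter.unusedVariables false
open Finset

/-! # StChd, V10: the far ends of the four worlds of a picture

22's marks `m` = convex corners of the room `RT G`, far end = alive side `m.al`. Up move: the far ends of `WN p`
and of `WU` are the same sides, related by `SR`. Down move: the far ends of `WW p` and of `WL` are the same, related
by `SRd`, unless the mark is at `(xw, Yc)` (only for `P = false`); there the far end `c` of `WW p` is related to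
`dn c`, and `dn c` is joined to the far end of `WL` through the tiles `(xw - 1, Yc)`, `(xw, Yc)`. -/

namespace Pool.Agent.H13.W

open Pool.Agent.H33.Q1 (lt tt ct lt_odd tt_lt lt_tt lt_inj)
open Pool.Agent.H45.W (SRd)
open Pool.Agent.H82.W (WD val)
open Pool.Agent.H78.W
open Pool.Agent.H19.W (cx cy cx_lt cy_lt lt_cc)
open Pool.Agent.H58.W (PB PB_congr)
open Pool.Agent.H22.W.Vc (Mark Ld Tc mem_Ld RT)

variable {κ : Type*} {G : Pic κ} {xl H xa ρ : ℤ} {p : ℤ × ℤ} {m : Mark}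

/-- a convex corner of the picture -/
structure MkOk (G : Pic κ) (m : Mark) : Prop where
  hL : ∀ e, e ∈ G.Λ ↔ e ∈ Ld (RT G)
  cv : Mark.Cvx (RT G) m

namespace MkOk

/-- the row of the diagonal tile is outside -/
lemma row (hm : MkOk G m) {x : ℤ} (h1 : m.u - 2 ≤ x) (h2 : x ≤ m.u + 2) : lt (x, m.v) ∉ G.E := by
  have := hm.cv.near (a := x) (b := m.v) (by omega) (by omega) (by omega) (by omega)
  intro h
  have := (this.1 h).2
  simp at this

/-- the column of the diagonal tile is outside -/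
lemma col (hm : MkOk G m) {y : ℤ} (h1 : m.v - 2 ≤ y) (h2 : y ≤ m.v + 2) : lt (m.u, y) ∉ G.E := by
  have := hm.cv.near (a := m.u) (b := y) (by omega) (by omega) (by omega) (by omega)
  intro h
  have := (this.1 h).1
  simp at this

lemma room (hm : MkOk G m) : lt (m.u + m.sx, m.v + m.sy) ∈ G.E := hm.cv.room

lemma mem (hm : MkOk G m) {x : ℤ} (hx : x = m.u ∨ x = m.u + m.sx) : lt (x, m.v) ∈ G.Λ := by
  rw [hm.hL, mem_Ld]
  rcases hx with rfl | rfl
  · exact hm.cv.tc_dg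
  · exact hm.cv.tc_hn

lemma rng (hm : MkOk G m) {x : ℤ} (hx : x = m.u ∨ x = m.u + m.sx) : m.u - 1 ≤ x ∧ x ≤ m.u + 1 := by
  have k1 := hm.cv.1
  omega

/-- the sides of a mark -/
lemma side (hm : MkOk G m) {c : ℤ × ℤ} (hc : c = m.X1 ∨ c = m.X2) :
    ∃ x, (x = m.u ∨ x = m.u + m.sx) ∧ Sd (lt (x, m.v)) c := by
  rcases hc with rfl | rfl
  · refine ⟨m.u, Or.inl rfl, ?_⟩
    unfold Mark.X1 Mark.dg
    split_ifs
    · exact Or.inr (Or.inr (Or.inl rfl))
    · exact Or.inr (Or.inr (Or.inr rfl))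
  · refine ⟨m.u + m.sx, Or.inr rfl, ?_⟩
    unfold Mark.X2 Mark.hn
    split_ifs
    · exact Or.inr (Or.inr (Or.inl rfl))
    · exact Or.inr (Or.inr (Or.inr rfl))

end MkOk

lemma al_cases' (w : Finset (ℤ × ℤ)) (m : Mark) : m.al w = m.X1 ∨ m.al w = m.X2 :=
  Pool.Agent.H22.W.Vc.al_cases m

/-- the alive side only depends on the state of `hn` -/
lemma al_congr {w w' : Finset (ℤ × ℤ)} (h : m.hn ∈ w ↔ m.hn ∈ w') : m.al w = m.al w' := by
  unfold Mark.al
  simp only [h]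

/-! ### The states of the layer tiles of a mark in the four worlds -/

lemma st_N {e ω : _} (he : e ∉ G.E) (hω : ω ⊆ G.E) : e ∈ (G.WN p).st ω ↔ e ∈ G.KN p.2 :=
  Pool.Agent.H82.W.WD.mem_st' (fun h => he (hω h)) (by show e ∉ (∅ : Finset (ℤ × ℤ)); simp)

lemma st_W {e ω : _} (he : e ∉ G.E) (hω : ω ⊆ G.E) : e ∈ (G.WW p).st ω ↔ e ∈ G.KW p.2 :=
  Pool.Agent.H82.W.WD.mem_st' (fun h => he (hω h)) (by show e ∉ (∅ : Finset (ℤ × ℤ)); simp)

lemma st_Uo {e ω : _} (he : e ∉ G.E) (hω : ω ⊆ G.E) : e ∈ G.WU.st ω ↔ e ∈ G.KN G.Yd :=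
  Pool.Agent.H82.W.WD.mem_st' (fun h => he (hω h)) (by
    show e ∉ G.FU
    unfold Pic.FU
    rw [mem_filter]
    exact fun h => he h.1)

lemma st_Lo {e ω : _} (he : e ∉ G.E) (hω : ω ⊆ G.E \ G.Rt) : e ∈ G.WL.st ω ↔ e ∈ G.KN G.Yd := by
  have h1 : e ∉ ω := fun h => he (mem_sdiff.1 (hω h)).1
  have h2 : e ∉ G.WL.F := by
    show e ∉ G.FL
    unfold Pic.FL
    rw [mem_filter]
    exact fun h => he h.1
  rw [Pool.Agent.H82.W.WD.mem_st' h1 h2]
  show e ∈ G.KN G.Yd ∪ G.RtW ↔ _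
  rw [mem_union]
  constructor
  · rintro (h | h)
    · exact h
    · exfalso
      unfold Pic.RtW Pic.Rt at h
      rw [mem_filter, mem_filter] at h
      exact he h.1.1
  · exact Or.inl

lemma MkOk.hnE (hm : MkOk G m) : m.hn ∉ G.E := by
  have := hm.rng (Or.inr rfl)
  exact hm.row (by omega) (by omega)

lemma al_N (hm : MkOk G m) {ω : Finset (ℤ × ℤ)} (hω : ω ⊆ G.E) :
    m.al ((G.WN p).st ω) = m.al (G.KN p.2) := al_congr (st_N hm.hnE hω)

lemma al_W (hm : MkOk G m) {ω : Finset (ℤ × ℤ)} (hω : ω ⊆ G.E) :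
    m.al ((G.WW p).st ω) = m.al (G.KW p.2) := al_congr (st_W hm.hnE hω)

lemma al_U (hm : MkOk G m) {ω : Finset (ℤ × ℤ)} (hω : ω ⊆ G.E) :
    m.al (G.WU.st ω) = m.al (G.KN G.Yd) := al_congr (st_Uo hm.hnE hω)

lemma al_L (hm : MkOk G m) {ω : Finset (ℤ × ℤ)} (hω : ω ⊆ G.E \ G.Rt) :
    m.al (G.WL.st ω) = m.al (G.KN G.Yd) := al_congr (st_Lo hm.hnE hω)

/-! ### The up move -/

section up
variable {xb ya yb : ℤ}

/-- **The sides of a mark do not move (up move).** -/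
theorem sr_mark (U : VUp G xl H xa xb ya yb p) (hm : MkOk G m) (hxl : xl ≤ xa) (hya : G.Yc - H ≤ ya)
    (hyb : yb ≤ G.Yc + H) {c : ℤ × ℤ} (hc : c = m.X1 ∨ c = m.X2) :
    SR (G.WN p).Λ (G.WN p).D (Pool.Agent.H78.W.Bk xa xb ya yb) (VUp.S G xb p) c c := by
  obtain ⟨x, hx, hs⟩ := hm.side hc
  have hr := hm.rng hx
  have hG := U.ok
  have hYd : G.Yd = G.Yc + G.h := rfl
  have hh := hG.hh
  have a1 := U.xab
  have a2 := U.xlb
  have a3 := U.xas
  have a4 := U.xap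
  have a5 := U.xsb
  have a6 := U.xpb
  have a7 := U.xbe
  have a8 := U.r1
  have a9 := U.r2
  have b1 := hG.xet
  have b2 := hG.xtw
  have b3 := hG.xtw2
  have b4 := hG.YF1
  have b5 := hG.YF2
  have e0 : lt (x, m.v) ∉ G.E := hm.row (by omega) (by omega)
  have e1 : lt (x - 1, m.v) ∉ G.E := hm.row (by omega) (by omega)
  have e2 : lt (x + 1, m.v) ∉ G.E := hm.row (by omega) (by omega)
  refine Or.inl ⟨rfl, Or.inl ⟨lt (x, m.v), hm.mem hx, ?_, ?_, ?_, hs⟩⟩
  · rintro ⟨⟨g1, g2⟩, g3, g4⟩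
    rw [cx_lt] at g1 g2
    rw [cy_lt] at g3 g4
    exact e0 (hG.gl _ _ (by omega) (by omega) (by omega) (by omega))
  · rintro ⟨⟨g1, g2⟩, g3, g4⟩
    rw [cx_lt] at g1 g2
    rw [cy_lt] at g3 g4
    have : xl < G.xe := by have := hG.xls; have := hG.xse; omega
    exact e1 (hG.gl _ _ (by
      by_contra hcon
      exact e0 (hG.gl _ _ (by omega) (by omega) (by omega) (by omega))) (by omega) (by omega) (by omega))
  · rintro ⟨-, ⟨g1, g2, g3⟩ | ⟨g0, g1, g2, g3⟩⟩
    · rw [cx_lt] at g2 g3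
      rw [cy_lt] at g1
      have : xl < G.xe := by have := hG.xls; have := hG.xse; omega
      exact e1 (hG.gl _ _ (by
        by_contra hcon
        exact e0 (hG.gl _ _ (by omega) (by omega) (by omega) (by omega))) (by omega) (by omega) (by omega))
    · rw [cx_lt] at g2 g3
      rw [cy_lt] at g1
      have b3' := b3 g0
      rcases lt_or_ge x G.xt with g4 | g4
      · exact e2 (hG.gp g0 _ _ (by omega) (by omega) (by omega) (by omega))
      · exact e1 (hG.gp g0 _ _ (by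
          by_contra hcon
          exact e0 (hG.gp g0 _ _ (by omega) (by omega) (by omega) (by omega))) (by omega) (by omega)
            (by omega))

/-- **The far ends of `WN p` and `WU` are the same.** -/
theorem al_up (hG : G.Ok xl H) (a8 : G.Yd < p.2) (a9 : p.2 < G.Yc + H) (hm : MkOk G m) :
    m.al (G.KN p.2) = m.al (G.KN G.Yd) := by
  have hr := hm.rng (x := m.u + m.sx) (Or.inr rfl)
  have hYd : G.Yd = G.Yc + G.h := rfl
  have hh := hG.hh
  have b1 := hG.xls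
  have b2 := hG.xse
  refine al_congr ?_
  unfold Mark.hn
  rw [mem_KN, mem_KN, cx_lt, cy_lt]
  have e1 : lt (m.u + m.sx - 1, m.v) ∉ G.E := hm.row (by omega) (by omega)
  have key : lt (m.u + m.sx, m.v) ∈ G.Λ → lt (m.u + m.sx, m.v) ∉ G.E →
      (G.tog p.2 (m.u + m.sx) m.v ↔ G.tog G.Yd (m.u + m.sx) m.v) := by
    intro _ _
    unfold Pic.tog
    by_cases hx : m.u + m.sx = G.xe
    · have hv : G.Yc ≤ m.v → ¬ m.v < G.Yc + H := fun h1 h2 =>
        e1 (hG.gl _ _ (by omega) (by omega) (by omega) h2)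
      have t1 : G.tp p.2 (m.u + m.sx) = p.2 := by unfold Pic.tp; rw [if_pos hx.le]
      have t2 : G.tp G.Yd (m.u + m.sx) = G.Yd := by unfold Pic.tp; rw [if_pos hx.le]
      rw [t1, t2]
      constructor
      · rintro ⟨h1, h2, h3, h4⟩
        exact absurd (by omega) (hv h3)
      · rintro ⟨h1, h2, h3, h4⟩
        exact absurd (by omega) (hv h3)
    · by_cases hx' : m.u + m.sx ≤ G.xe
      · constructor
        · rintro ⟨h1, -⟩; omega
        · rintro ⟨h1, -⟩; omega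
      · have t : G.tp p.2 (m.u + m.sx) = G.tp G.Yd (m.u + m.sx) := by
          unfold Pic.tp; rw [if_neg hx', if_neg hx']
        rw [t]
  have k2 : (lt (m.u + m.sx, m.v) ∈ G.Λ ∧ lt (m.u + m.sx, m.v) ∉ G.E ∧ G.tog p.2 (m.u + m.sx) m.v) ↔
      (lt (m.u + m.sx, m.v) ∈ G.Λ ∧ lt (m.u + m.sx, m.v) ∉ G.E ∧ G.tog G.Yd (m.u + m.sx) m.v) := by
    constructor
    · rintro ⟨h1, h2, h3⟩; exact ⟨h1, h2, (key h1 h2).1 h3⟩
    · rintro ⟨h1, h2, h3⟩; exact ⟨h1, h2, (key h1 h2).2 h3⟩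
  rw [k2]

end up

/-! ### The down move -/

/-- the far end of `WW p` does not depend on `p` -/
theorem al_KW (hG : G.Ok xl H) (h1 : G.Yc - H ≤ p.2) (hm : MkOk G m) : m.al (G.KW p.2) = m.al G.W0 := by
  have hr := hm.rng (x := m.u + m.sx) (Or.inr rfl)
  have e1 : lt (m.u + m.sx - 1, m.v) ∉ G.E := hm.row (by omega) (by omega)
  have b1 := hG.xtw
  have b2 := hG.xet
  refine al_congr ?_
  unfold Mark.hn
  rw [mem_KW, cx_lt, cy_lt, xor_f]
  rintro ⟨-, -, g1, g2, g3⟩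
  exact e1 (hG.gb _ _ (by omega) (by omega) (by omega) (by omega))

/-- **A mark meets the strip only at `(xw, Yc)`.** -/
theorem offS (N : Dn G xl H xa ρ p) (hm : MkOk G m) {x : ℤ} (hx : x = m.u ∨ x = m.u + m.sx)
    (hS : lt (x, m.v) ∈ SD G p) : G.P = false ∧ m.u = G.xw ∧ m.v = G.Yc := by
  obtain ⟨n1, n2, n3, n4, n5, n6, n7, n8, n9⟩ := N.nums
  have hG := N.ok
  have hr := hm.rng hx
  have k1 := hm.cv.1
  have k2 := hm.cv.2.1
  obtain ⟨t1, t2⟩ := N.tp_lt x
  rw [Dn.mem_S] at hS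
  obtain ⟨s1, s2, s3, s4⟩ := hS
  have e0 : lt (x, m.v) ∉ G.E := hm.row (by omega) (by omega)
  have e1 : lt (x - 1, m.v) ∉ G.E := hm.row (by omega) (by omega)
  have e2 : lt (x + 1, m.v) ∉ G.E := hm.row (by omega) (by omega)
  have hxe : G.xe ≤ x := by
    by_contra hcon
    exact e0 (hG.gl _ _ (by omega) (by omega) (by omega) (by omega))
  have hxe' : x ≠ G.xe := by
    rintro rfl
    exact e1 (hG.gl _ _ (by omega) (by omega) (by omega) (by omega))
  have hxe2 : G.xe < x := by omega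
  have hv : G.Yc ≤ m.v := by
    by_contra hcon
    rcases lt_or_ge x G.xw with g | g
    · exact e0 (hG.gb _ _ hxe g (by omega) (by omega))
    · exact e1 (hG.gb _ _ (by omega) (by omega) (by omega) (by omega))
  -- the room behind the tooth
  have hP : ¬ (G.P = true ∧ G.xt - 1 ≤ x) := by
    rintro ⟨g0, g1⟩
    have b3' := hG.xtw2 g0
    rcases lt_or_ge x G.xt with g4 | g4
    · exact e2 (hG.gp g0 _ _ (by omega) (by omega) (by omega) (by omega))
    · rcases lt_or_ge x G.xw with g5 | g5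
      · exact e0 (hG.gp g0 _ _ g4 g5 (by omega) (by omega))
      · exact e1 (hG.gp g0 _ _ (by omega) (by omega) (by omega) (by omega))
  have htp : G.tp G.Yd x = G.Yc := by
    rcases tp_cases (G := G) G.Yd x with ⟨h, -⟩ | ⟨-, h, -⟩ | ⟨-, -, h⟩
    · omega
    · exact absurd h hP
    · exact h
  have hvY : m.v = G.Yc := by omega
  -- the column of the diagonal tile
  have hc : lt (m.u, m.v - 1) ∉ G.E := hm.col (by omega) (by omega)
  have huw : G.xw ≤ m.u := by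
    by_contra hcon
    exact hc (hG.gb _ _ (by omega) (by omega) (by omega) (by omega))
  have hu : m.u = G.xw := by
    rcases hx with rfl | h
    · omega
    · by_contra hcon
      have hsx : m.u = x + 1 ∧ m.sx = -1 := by omega
      have hxw : x = G.xw := by omega
      have hroom := hm.room
      rw [hsx.2] at hroom
      have h3 : m.u + -1 = G.xw := by omega
      rw [h3] at hroom
      rcases k2 with g | g <;> rw [g] at hroom
      · exact (hG.gw _ (by omega) (by omega)).1 hroom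
      · exact (hG.gw _ (by omega) (by omega)).1 hroom
  refine ⟨?_, hu, hvY⟩
  by_contra hcon
  have hPt : G.P = true := by
    cases h : G.P
    · exact absurd h hcon
    · rfl
  have b3' := hG.xtw2 hPt
  exact hP ⟨hPt, by omega⟩

/-- tiles of a mark are not in the block and not deleted (down move) -/
lemma offB (N : Dn G xl H xa ρ p) (hm : MkOk G m) {x : ℤ} (hx : x = m.u ∨ x = m.u + m.sx) :
    lt (x, m.v) ∉ Bk G xa ρ ∧ lt (x, m.v) ∉ (G.WW p).D := by
  obtain ⟨n1, n2, n3, n4, n5, n6, n7, n8, n9⟩ := N.nums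
  have hG := N.ok
  have hr := hm.rng hx
  have k1 := N.p1
  have k2 := N.p1'
  have k3 := N.xla
  have k4 := N.rH
  have e0 : lt (x, m.v) ∉ G.E := hm.row (by omega) (by omega)
  have e1 : lt (x - 1, m.v) ∉ G.E := hm.row (by omega) (by omega)
  constructor
  · rw [Dn.mem_Bk]
    rintro ⟨g1, g2, g3, g4⟩
    exact e0 (hG.gl _ _ (by omega) (by omega) (by omega) (by omega))
  · rw [Dn.mem_D1]
    rintro ⟨g1, g2, g3⟩
    rcases lt_or_ge x G.xe with g | g
    · exact e0 (hG.gl _ _ (by omega) g (by omega) (by omega))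
    · rcases lt_or_ge x G.xw with g' | g'
      · exact e0 (hG.gb _ _ g g' (by omega) (by omega))
      · exact e1 (hG.gb _ _ (by omega) (by omega) (by omega) (by omega))

/-- **The sides of a mark do not move (down move)**, unless it is at `(xw, Yc)`. -/
theorem srd_mark (N : Dn G xl H xa ρ p) (hm : MkOk G m) (hn : ¬ (m.u = G.xw ∧ m.v = G.Yc)) {c : ℤ × ℤ}
    (hc : c = m.X1 ∨ c = m.X2) : SRd (G.WW p).Λ (G.WW p).D (Bk G xa ρ) (SD G p) c c := by
  obtain ⟨x, hx, hs⟩ := hm.side hc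
  obtain ⟨h1, h2⟩ := offB N hm hx
  exact Or.inl ⟨rfl, Or.inl ⟨lt (x, m.v), hm.mem hx, h1, fun h => hn (offS N hm hx h).2, h2, hs⟩⟩

/-- the far ends of `WW p` and `WL` are the same, unless the mark is at `(xw, Yc)` -/
theorem al_dn (N : Dn G xl H xa ρ p) (hm : MkOk G m) (hn : ¬ (m.u = G.xw ∧ m.v = G.Yc)) :
    m.al (G.KW p.2) = m.al (G.KN G.Yd) := by
  obtain ⟨h1, h2⟩ := offB N hm (Or.inr rfl)
  have h3 : lt (m.u + m.sx, m.v) ∉ SD G p := fun h => hn (offS N hm (Or.inr rfl) h).2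
  have h4 := N.pl_W (hm.mem (Or.inr rfl)) hm.hnE h3 h2
  refine al_congr ?_
  unfold Mark.hn
  rw [← h4, mem_union]
  constructor
  · rintro (h | h)
    · exact h
    · exfalso
      unfold Pic.RtW Pic.Rt at h
      rw [mem_filter, mem_filter] at h
      exact hm.hnE h.1.1
  · exact Or.inl

/-! ### The mark at `(xw, Yc)` -/

section special
variable (N : Dn G xl H xa ρ p) (hm : MkOk G m) (hu : m.u = G.xw) (hv : m.v = G.Yc)
include N hm hu hv

/-- the directions of this mark, and no room behind the tooth -/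
lemma sp_dir : m.sx = -1 ∧ m.sy = -1 ∧ G.P = false ∧ G.xt = G.xw := by
  obtain ⟨n1, n2, n3, n4, n5, n6, n7, n8, n9⟩ := N.nums
  have hG := N.ok
  have k1 := hm.cv.1
  have k2 := hm.cv.2.1
  have hroom := hm.room
  have hP : G.P = false := by
    by_contra hcon
    have hPt : G.P = true := by
      cases h : G.P
      · exact absurd h hcon
      · rfl
    have b3' := hG.xtw2 hPt
    exact hm.row (x := G.xw - 1) (by omega) (by omega)
      (by rw [hv]; exact hG.gp hPt _ _ (by omega) (by omega) le_rfl (by omega))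
  have hxt := hG.xtw' hP
  have hsx : m.sx = -1 := by
    rcases k1 with g | g
    · exfalso
      rw [g, hu, hv] at hroom
      rcases k2 with g' | g' <;> rw [g'] at hroom
      · exact hG.go _ (by omega) (by omega) (hG.sub hroom)
      · exact hG.go _ (by omega) (by omega) (hG.sub hroom)
    · exact g
  refine ⟨hsx, ?_, hP, hxt⟩
  rcases k2 with g' | g'
  · exfalso
    rw [g', hsx, hu, hv] at hroom
    exact (hG.gt _ _ (by omega) (by omega) (by omega) (by omega)).1 hroom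
  · exact g'

lemma sp_S {x : ℤ} (hx : x = m.u ∨ x = m.u + m.sx) : lt (x, m.v) ∈ SD G p := by
  obtain ⟨n1, n2, n3, n4, n5, n6, n7, n8, n9⟩ := N.nums
  obtain ⟨d1, d2, d3, d4⟩ := sp_dir N hm hu hv
  rw [Dn.mem_S, hv]
  have := (N.tp_lt x).1
  rw [d1] at hx
  refine ⟨by omega, by omega, by omega, this⟩

/-- **The sides of this mark go one row down.** -/
theorem srd_sp {c : ℤ × ℤ} (hc : c = m.X1 ∨ c = m.X2) :
    SRd (G.WW p).Λ (G.WW p).D (Bk G xa ρ) (SD G p) c (dn c) := by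
  obtain ⟨x, hx, hs⟩ := hm.side hc
  exact Or.inr ⟨rfl, lt (x, m.v), hm.mem hx, (offB N hm hx).1, sp_S N hm hu hv hx, hs⟩

/-- states of the two tiles -/
lemma sp_st {ω : Finset (ℤ × ℤ)} (hω : ω ⊆ G.E \ G.Rt) :
    (m.hn ∈ G.KW p.2 ↔ G.kT = true) ∧ (m.hn ∈ G.KN G.Yd ↔ ¬ G.kT = true) ∧
    (m.hn ∈ G.WL.st ω ↔ ¬ G.kT = true) ∧ (m.dg ∈ G.WL.st ω ↔ G.kW = true) := by
  obtain ⟨n1, n2, n3, n4, n5, n6, n7, n8, n9⟩ := N.nums
  obtain ⟨d1, d2, d3, d4⟩ := sp_dir N hm hu hv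
  have hG := N.ok
  have tp : ∀ x, G.xe < x → G.tp G.Yd x = G.Yc := by
    intro x hx
    rcases tp_cases (G := G) G.Yd x with ⟨h, -⟩ | ⟨-, h, -⟩ | ⟨-, -, h⟩
    · omega
    · rw [d3] at h; exact absurd h.1 (by simp)
    · exact h
  have hnE := hm.hnE
  have hnL := hm.mem (x := m.u + m.sx) (Or.inr rfl)
  have dgE : m.dg ∉ G.E := hm.row (by omega) (by omega)
  have dgL := hm.mem (x := m.u) (Or.inl rfl)
  have e1 : m.hn = lt (G.xw - 1, G.Yc) := by
    unfold Mark.hn; rw [d1, hu, hv]; rfl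
  have e2 : m.dg = lt (G.xw, G.Yc) := by
    unfold Mark.dg; rw [hu, hv]
  have e3 : lt (m.u + m.sx, m.v) = lt (G.xw - 1, G.Yc) := e1
  have e4 : lt (m.u, m.v) = lt (G.xw, G.Yc) := e2
  rw [e3] at hnL
  rw [e4] at dgL
  rw [e1] at hnE
  rw [e2] at dgE
  have cT := hG.cT (G.xw - 1) G.Yc (by omega) (by omega) le_rfl (by omega) hnL
  have cW := hG.cW G.Yc (by omega) (by omega) dgL
  have q1 : lt (G.xw - 1, G.Yc) ∈ G.KN G.Yd ↔ ¬ G.kT = true := by
    rw [mem_KN, cx_lt, cy_lt, xor_t ⟨hnL, hnE, by omega, by omega, le_rfl, (tp _ (by omega)).ge⟩, cT]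
  have q2 : lt (G.xw, G.Yc) ∈ G.KN G.Yd ↔ G.kW = true := by
    rw [mem_KN, cx_lt, cy_lt, xor_t ⟨dgL, dgE, by omega, by omega, le_rfl, (tp _ (by omega)).ge⟩, cW]
    simp
  refine ⟨?_, ?_, ?_, ?_⟩
  · rw [e1, mem_KW, cx_lt, cy_lt, xor_f (by rintro ⟨-, -, h, -⟩; omega), cT]
  · rw [e1, q1]
  · rw [e1, st_Lo hnE hω, q1]
  · rw [e2, st_Lo dgE hω, q2]

/-- **In `WL` the image of the far end of `WW p` is joined to the far end of `WL`.** -/
theorem sp_reach (hk : G.kW = G.kT) {ω : Finset (ℤ × ℤ)} (hω : ω ⊆ G.E \ G.Rt) :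
    (G.WL.G ω).Reachable (dn (m.al (G.KW p.2))) (m.al (G.KN G.Yd)) := by
  obtain ⟨n1, n2, n3, n4, n5, n6, n7, n8, n9⟩ := N.nums
  obtain ⟨d1, d2, d3, d4⟩ := sp_dir N hm hu hv
  obtain ⟨s1, s2, s3, s4⟩ := sp_st N hm hu hv hω
  have hG := N.ok
  have e1 : m.hn = lt (G.xw - 1, G.Yc) := by
    unfold Mark.hn; rw [d1, hu, hv]; rfl
  have e2 : m.dg = lt (G.xw, G.Yc) := by
    unfold Mark.dg; rw [hu, hv]
  have hnL : m.hn ∈ G.Λ := hm.mem (x := m.u + m.sx) (Or.inr rfl)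
  have dgL : m.dg ∈ G.Λ := hm.mem (x := m.u) (Or.inl rfl)
  have X1e : m.X1 = eN m.dg := by unfold Mark.X1; rw [if_neg (by omega)]
  have X2e : m.X2 = eN m.hn := by unfold Mark.X2; rw [if_neg (by omega)]
  have sh : eE m.hn = eW m.dg := by
    rw [e1, e2]
    unfold eE eW lt
    ext
    · simp only; ring
    · simp only; ring
  have dN : ∀ e : ℤ × ℤ, dn (eN e) = eS e := by
    intro e
    unfold dn eN eS
    ext
    · rfl
    · simp only; ring
  have D1 : m.hn ∉ G.WL.D := by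
    rw [e1, Dn.mem_D2, d3]
    rintro (⟨h, -⟩ | ⟨h, -⟩)
    · omega
    · exact absurd h (by simp)
  have D2 : m.dg ∉ G.WL.D := by
    rw [e2, Dn.mem_D2, d3]
    rintro (⟨h, -⟩ | ⟨h, -⟩)
    · omega
    · exact absurd h (by simp)
  have o1 : (m.hn.1 + m.hn.2) % 2 = 1 := by rw [e1]; exact lt_odd _
  have o2 : (m.dg.1 + m.dg.2) % 2 = 1 := by rw [e2]; exact lt_odd _
  obtain ⟨a, ha⟩ := hG.dxw
  obtain ⟨b, hb⟩ := hG.dYc
  have par : (G.xw - G.Yc) % 2 = 0 := by
    have : G.xw - G.Yc = 2 * (G.h * a - G.h * b) := by rw [ha, hb]; ring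
    omega
  have pij : (m.pi - m.pj) % 2 = 0 := by
    unfold Mark.pi Mark.pj
    rw [if_neg (by omega), if_neg (by omega), hu, hv]
    exact par
  have p1 : m.hn.1 % 2 = 1 := by rw [e1]; unfold lt; simp only; omega
  have p2 : m.dg.1 % 2 = 0 := by rw [e2]; unfold lt; simp only; omega
  obtain ⟨h1, h1'⟩ := Pool.Agent.H45.W.tile_state (w := G.WL.st ω) D1 o1
  obtain ⟨h2, h2'⟩ := Pool.Agent.H45.W.tile_state (w := G.WL.st ω) D2 o2
  unfold Mark.al
  by_cases hT : G.kT = true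
  · have c1 : ¬ (m.hn ∈ G.KW p.2 ↔ (m.pi - m.pj) % 2 = 1) := by
      intro h; have := h.1 (s1.2 hT); omega
    have c2 : (m.hn ∈ G.KN G.Yd ↔ (m.pi - m.pj) % 2 = 1) :=
      ⟨fun h => absurd hT (s2.1 h), fun h => by omega⟩
    rw [if_neg c1, if_pos c2, X1e, X2e, dN]
    have t1 := h1' ⟨fun h => absurd hT (s3.1 h), fun h => by omega⟩
    have t2 := h2' ⟨fun _ => p2, fun _ => s4.2 (by rw [hk]; exact hT)⟩
    have a1 : (G.WL.G ω).Adj (eS m.hn) (eE m.hn) := ⟨m.hn, hnL, t1.2⟩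
    have a2 : (G.WL.G ω).Adj (eW m.dg) (eN m.dg) := ⟨m.dg, dgL, t2.1⟩
    rw [sh] at a1
    exact a1.reachable.trans a2.reachable
  · have c1 : (m.hn ∈ G.KW p.2 ↔ (m.pi - m.pj) % 2 = 1) :=
      ⟨fun h => absurd (s1.1 h) hT, fun h => by omega⟩
    have c2 : ¬ (m.hn ∈ G.KN G.Yd ↔ (m.pi - m.pj) % 2 = 1) := by
      intro h; have := h.1 (s2.2 hT); omega
    rw [if_pos c1, if_neg c2, X1e, X2e, dN]
    have t1 := h1 ⟨fun _ => p1, fun _ => s3.2 hT⟩
    have t2 := h2 ⟨fun h => absurd (s4.1 h) (by rw [hk]; exact hT), fun h => by omega⟩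
    have a1 : (G.WL.G ω).Adj (eN m.hn) (eE m.hn) := ⟨m.hn, hnL, t1.2⟩
    have a2 : (G.WL.G ω).Adj (eW m.dg) (eS m.dg) := ⟨m.dg, dgL, t2.1⟩
    rw [sh] at a1
    exact a2.symm.reachable.trans a1.symm.reachable

end special

end Pool.Agent.H13.W
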