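import Mathlib
import Pool.Agent.H13.W.VMark
import Pool.Agent.H82.W.VTop
import Pool.Agent.H2.W.OrlE

set_option autoImplicit false
set_option linter.unusedVariables false
open Finset

/-! # StChd, V10: the far ends of a picture (`EndOk` of VTop)

`endOk_of` : for a picture `G` with 22's colours (`PicC`), `y j` = alive side of the mark `j` in the narrow worlds,
`yW j` = alive side in the wide world. -/

namespace Pool.Agent.H13.W

open Pool.Agent.H33.Q1 (lt tt ct lt_odd tt_lt lt_tt lt_inj)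
open Pool.Agent.H75.Perc hiding WL CT hh PB
open Pool.Agent.H75.TwoArm
open Pool.Agent.H51.W (PWin pv pv_sum pv_dif)
open Pool.Agent.H45.W (SRd)
open Pool.Agent.H82.W (WD val EndOk)
open Pool.Agent.H78.W
open Pool.Agent.H92.W (OutC)
open Pool.Agent.H19.W (cx cy cx_lt cy_lt lt_cc)
open Pool.Agent.H58.W (PB PB_congr)
open Pool.Agent.H22.W.Vc (Mark Ld Tc mem_Ld RT PicC VH vhW vhN vhU vhL)

variable {κ : Type*} {G : Pic κ} {xl H : ℤ} {p : ℤ × ℤ} {m : Mark}

/-- a corner of the room is not in the band of the chord -/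
lemma far_box (O : G.Ok xl H) (hm : MkOk G m) :
    m.u < xl ∨ G.xe ≤ m.u ∨ m.v < G.Yc - H ∨ G.Yc + H ≤ m.v := by
  by_contra hcon
  push Not at hcon
  obtain ⟨h1, h2, h3, h4⟩ := hcon
  exact hm.row (x := m.u) (by omega) (by omega) (O.gl _ _ h1 h2 h3 h4)

/-- coordinates of the sides of a mark -/
lemma X_coord (hm : MkOk G m) {c : ℤ × ℤ} (hc : c = m.X1 ∨ c = m.X2) :
    ∃ x, (m.u - 1 ≤ x ∧ x ≤ m.u + 1) ∧ ((c.1 = x - m.v ∧ c.2 = x + m.v + 2) ∨
      (c.1 = x - m.v + 1 ∧ c.2 = x + m.v + 1)) := by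
  have k1 := hm.cv.1
  rcases hc with rfl | rfl
  · refine ⟨m.u, by omega, ?_⟩
    unfold Mark.X1 Mark.dg eS eN lt
    split_ifs
    · right; exact ⟨rfl, rfl⟩
    · left; constructor
      · rfl
      · simp only; ring
  · refine ⟨m.u + m.sx, by omega, ?_⟩
    unfold Mark.X2 Mark.hn eS eN lt
    split_ifs
    · right; exact ⟨rfl, rfl⟩
    · left; constructor
      · rfl
      · simp only; ring

/-- **The marks are far from the end of the canonical string.** -/
theorem far_mark (O : G.Ok xl H) (hm : MkOk G m) {r : ℕ} (hr : 2 ≤ r) (hw : PWin G xl H r) {c : ℤ × ℤ}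
    (hc : c = m.X1 ∨ c = m.X2) :
    8 * (r : ℤ) + 2 < |(fi c).1 - (pv G).1| ∨ 8 * (r : ℤ) + 2 < |(fi c).2 - (pv G).2| := by
  have h1 := pv_sum O
  have h2 := pv_dif O
  have h3 := hw.lef
  have h4 := hw.rig
  have h5 := hw.top
  have h6 : (2 : ℤ) ≤ r := by exact_mod_cast hr
  obtain ⟨x, hx, hcc⟩ := X_coord hm hc
  have h7 := far_box O hm
  by_contra hcon
  rw [not_or, not_lt, not_lt, abs_le, abs_le] at hcon
  unfold fi at hcon
  simp only at hcon
  obtain ⟨⟨a1, a2⟩, a3, a4⟩ := hcon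
  rcases hcc with ⟨e1, e2⟩ | ⟨e1, e2⟩ <;> rw [e1] at a1 a2 <;> rw [e2] at a3 a4 <;> omega

/-- the sides of a mark are loose -/
theorem out_mark (hm : MkOk G m) {D : Set (ℤ × ℤ)} {c : ℤ × ℤ} (hc : c = m.X1 ∨ c = m.X2) :
    OutC (G.Λ : Set (ℤ × ℤ)) D c := by
  have k2 := hm.cv.2.1
  have f1 := hm.cv.far_dg
  have f2 := hm.cv.far_hn
  have g1 : ∀ y, ¬ Tc (RT G) m.u y → lt (m.u, y) ∉ (G.Λ : Set (ℤ × ℤ)) := fun y h h' =>
    h (mem_Ld.1 ((hm.hL _).1 h'))
  have g2 : ∀ y, ¬ Tc (RT G) (m.u + m.sx) y → lt (m.u + m.sx, y) ∉ (G.Λ : Set (ℤ × ℤ)) := fun y h h' =>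
    h (mem_Ld.1 ((hm.hL _).1 h'))
  rcases hc with rfl | rfl
  · unfold Mark.X1 Mark.dg
    split_ifs with h
    · refine Pool.Agent.H2.W.Run.outC_S (lt_odd _) ?_
      rw [dn_lt]
      rw [h] at f1
      exact g1 _ f1
    · refine Pool.Agent.H2.W.Run.outC_N (lt_odd _) ?_
      rw [up_lt']
      have h' : m.sy = -1 := by omega
      rw [h', sub_neg_eq_add] at f1
      exact g1 _ f1
  · unfold Mark.X2 Mark.hn
    split_ifs with h
    · refine Pool.Agent.H2.W.Run.outC_S (lt_odd _) ?_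
      rw [dn_lt]
      rw [h] at f2
      exact g2 _ f2
    · refine Pool.Agent.H2.W.Run.outC_N (lt_odd _) ?_
      rw [up_lt']
      have h' : m.sy = -1 := by omega
      rw [h', sub_neg_eq_add] at f2
      exact g2 _ f2

/-- the colours of a mark at `(xw, Yc)` -/
theorem kW_kT {M : Set Mark} (O : G.Ok xl H) (K : PicC G M) (hM : m ∈ M) {xa ρ : ℤ}
    (N : Dn G xl H xa ρ p) (hm : MkOk G m) (hu : m.u = G.xw) (hv : m.v = G.Yc) : G.kW = G.kT := by
  obtain ⟨n1, n2, n3, n4, n5, n6, n7, n8, n9⟩ := N.nums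
  obtain ⟨d1, d2, d3, d4⟩ := sp_dir N hm hu hv
  have h1 := K.hC.mkc m hM
  have dgL := hm.mem (x := m.u) (Or.inl rfl)
  have hnL := hm.mem (x := m.u + m.sx) (Or.inr rfl)
  rw [d1, hu, hv] at h1
  rw [hu, hv] at dgL
  rw [d1, hu, hv] at hnL
  rw [O.cW G.Yc (by omega) (by omega) dgL, O.cT (G.xw + -1) G.Yc (by omega) (by omega) le_rfl (by omega)
    hnL] at h1
  cases h2 : G.kW <;> cases h3 : G.kT <;> simp [h2, h3] at h1 ⊢

section
variable {mk : Fin 3 → Mark}

lemma mkOk_of {M : Set Mark} (K : PicC G M) {m : Mark} (hM : m ∈ M) : MkOk G m where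
  hL e := by
    have := K.hΛ
    rw [← mem_coe, this]
  cv := K.hC.mc m hM

/-- **The far ends of a picture.** -/
theorem endOk_of {κ : Type} [DecidableEq κ] {G : Pic κ} (O : G.Ok xl H) (K : PicC G (Set.range mk))
    (hi : Function.Injective mk) (h2 : 2 ≤ G.h) (hx : xl < G.xs) :
    EndOk G xl H (fun j => (mk j).al (G.KN G.Yd)) (fun j => (mk j).al G.W0) := by
  have hm : ∀ j, MkOk G (mk j) := fun j => mkOk_of K ⟨j, rfl⟩
  have hYd : G.Yd = G.Yc + G.h := rfl
  have hxs := O.xse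
  have hxe := O.xet
  have hxt := O.xtw
  have b4 := O.YF1
  have b5 := O.YF2
  have hΛ := K.hΛ
  have hG : ∀ (A : WD ((ℤ × ℤ) ⊕ κ)) (ω : Finset (ℤ × ℤ)), A.Λ = (G.Λ : Set (ℤ × ℤ)) →
      A.G ω = SG (Ld (RT G)) A.D (A.st ω) := by
    intro A ω h
    unfold WD.G
    rw [h, hΛ]
  constructor
  case far =>
    intro r hr hw i
    exact far_mark O (hm i) hr hw (al_cases' _ _)
  case out =>
    intro i
    exact out_mark (hm i) (al_cases' _ _)
  case up =>
    intro xa xb ya yb p U h3 h4 h5 i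
    exact sr_mark U (hm i) h3 h4.le h5.le (al_cases' _ _)
  case exN =>
    intro p h3 h4 h5 h6 ω hω
    obtain ⟨j, hj⟩ := (vhN O K (p := p) hω h3 (by omega) (by omega) (by omega)).ex3
    refine ⟨j, ?_⟩
    rw [al_N (hm j) hω, al_up O h5 (by omega) (hm j)] at hj
    rw [hG _ _ rfl]
    exact hj
  case unN =>
    intro p h3 h4 h5 h6 ω hω i j hi' hj'
    have V := vhN O K (p := p) hω h3 (by omega) (by omega) (by omega)
    rw [hG _ _ rfl] at hi' hj'
    refine V.un3 hi (i := i) (j := j) ?_ ?_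
    · rw [al_N (hm i) hω, al_up O h5 (by omega) (hm i)]; exact hi'
    · rw [al_N (hm j) hω, al_up O h5 (by omega) (hm j)]; exact hj'
  case exW =>
    intro p h3 h4 h5 h6 ω hω
    obtain ⟨j, hj⟩ := (vhW O K (p := p) hω h3 (by omega) (by omega) (by omega)).ex3
    refine ⟨j, ?_⟩
    rw [al_W (hm j) hω, al_KW O (by omega) (hm j)] at hj
    rw [hG _ _ rfl]
    exact hj
  case unW =>
    intro p h3 h4 h5 h6 ω hω i j hi' hj'
    have V := vhW O K (p := p) hω h3 (by omega) (by omega) (by omega)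
    rw [hG _ _ rfl] at hi' hj'
    refine V.un3 hi (i := i) (j := j) ?_ ?_
    · rw [al_W (hm i) hω, al_KW O (by omega) (hm i)]; exact hi'
    · rw [al_W (hm j) hω, al_KW O (by omega) (hm j)]; exact hj'
  case exU =>
    intro ω hω
    obtain ⟨j, hj⟩ := (vhU O K hω hx).ex3
    refine ⟨j, ?_⟩
    rw [al_U (hm j) hω] at hj
    rw [hG _ _ rfl]
    exact hj
  case unU =>
    intro ω hω i j hi' hj'
    have V := vhU O K hω hx
    rw [hG _ _ rfl] at hi' hj'
    refine V.un3 hi (i := i) (j := j) ?_ ?_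
    · rw [al_U (hm i) hω]; exact hi'
    · rw [al_U (hm j) hω]; exact hj'
  case exL =>
    intro ω hω
    obtain ⟨j, hj⟩ := (vhL O K hω hx).ex3
    refine ⟨j, ?_⟩
    rw [al_L (hm j) hω] at hj
    rw [hG _ _ rfl]
    exact hj
  case unL =>
    intro ω hω i j hi' hj'
    have V := vhL O K hω hx
    rw [hG _ _ rfl] at hi' hj'
    refine V.un3 hi (i := i) (j := j) ?_ ?_
    · rw [al_L (hm i) hω]; exact hi'
    · rw [al_L (hm j) hω]; exact hj'
  case dn =>
    intro xa ρ p N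
    classical
    have hp : G.Yc - H ≤ p.2 := N.nums.2.1
    refine ⟨fun j => if (mk j).u = G.xw ∧ (mk j).v = G.Yc then dn ((mk j).al G.W0) else
      (mk j).al (G.KN G.Yd), fun j => ?_, fun j => ?_, fun ω hω j => ?_⟩
    · simp only
      split_ifs with h
      · exact srd_sp N (hm j) h.1 h.2 (al_cases' _ _)
      · have e := al_dn N (hm j) h
        rw [al_KW O hp (hm j)] at e
        rw [e]
        exact srd_mark N (hm j) h (al_cases' _ _)
    · simp only
      split_ifs with h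
      · obtain ⟨x1, g1, f1⟩ := X_coord (hm j) (al_cases' G.W0 (mk j))
        obtain ⟨x2, g2, f2⟩ := X_coord (hm j) (al_cases' (G.KN G.Yd) (mk j))
        unfold fi dn
        simp only
        rw [abs_le, abs_le]
        rcases f1 with ⟨q1, q2⟩ | ⟨q1, q2⟩ <;> rcases f2 with ⟨q3, q4⟩ | ⟨q3, q4⟩ <;> rw [q1, q2, q3, q4] <;>
          refine ⟨⟨?_, ?_⟩, ?_, ?_⟩ <;> omega
      · rw [sub_self, sub_self, abs_zero]; exact ⟨by norm_num, by norm_num⟩
    · simp only
      split_ifs with h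
      · have e := sp_reach N (hm j) h.1 h.2 (kW_kT O K ⟨j, rfl⟩ N (hm j) h.1 h.2) hω
        rw [al_KW O hp (hm j)] at e
        exact ⟨fun h' => h'.trans e, fun h' => h'.trans e.symm⟩
      · exact Iff.rfl

end

end Pool.Agent.H13.W
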