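import Mathlib
import Pool.Agent.H22.W.VcPic
import Pool.Agent.H45.W.Sym

set_option autoImplicit false
set_option linter.unusedVariables false
open Finset

/-! # StChd: reflection `y ↦ -1 - y` of 22's rooms, marks and colours

`rT T` : reflected room, `Mark.rf` : reflected mark, `rC` : reflected cuts. `cvx_rf`, `Tc_rf`, `cl_rf` : the
hypotheses are kept (colours are not toggled). `X1_rf`, `X2_rf`, `al_rf` : sides and alive side. -/

namespace Pool.Agent.H13.W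

open Pool.Agent.H33.Q1 (lt lt_odd lt_inj)
open Pool.Agent.H45.W (sw sw_sw swS swF mem_swS mem_swF)
open Pool.Agent.H22.W.Vc (Mark Ld Tc mem_Ld Cl)

variable {T : ℤ → ℤ → Prop} {M : Set Mark} {c : ℤ → ℤ → Prop} {C : Set (ℤ × ℤ)} {m : Mark}

/-- reflected room -/
def rT (T : ℤ → ℤ → Prop) (x y : ℤ) : Prop := T x (-1 - y)

/-- reflected mark -/
def rm (m : Mark) : Mark := ⟨m.u, -1 - m.v, m.sx, -m.sy⟩

/-- reflected cuts -/
def rC (C : Set (ℤ × ℤ)) : Set (ℤ × ℤ) := {q | (q.1, -2 - q.2) ∈ C}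

/-- reflected marks -/
def rM (M : Set Mark) : Set Mark := {m | rm m ∈ M}

lemma rm_rm (m : Mark) : rm (rm m) = m := by
  obtain ⟨u, v, sx, sy⟩ := m
  unfold rm
  simp only [Mark.mk.injEq, true_and]
  constructor
  · ring
  · ring

lemma rm_inj : Function.Injective rm := fun a b h => by rw [← rm_rm a, h, rm_rm]

lemma rT_rT : rT (rT T) = T := by
  funext x y
  unfold rT
  rw [show -1 - (-1 - y) = y by ring]

lemma rC_rC : rC (rC C) = C := by
  ext ⟨x, y⟩
  show (x, -2 - (-2 - y)) ∈ C ↔ _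
  rw [show -2 - (-2 - y) = y by ring]

lemma rM_rM : rM (rM M) = M := by
  ext m
  show rm (rm m) ∈ M ↔ _
  rw [rm_rm]

lemma rM_range {ι : Type*} (mk : ι → Mark) : rM (Set.range mk) = Set.range fun i => rm (mk i) := by
  ext m
  show rm m ∈ Set.range mk ↔ _
  constructor
  · rintro ⟨i, hi⟩
    exact ⟨i, by simp only; rw [hi, rm_rm]⟩
  · rintro ⟨i, rfl⟩
    exact ⟨i, (rm_rm _).symm⟩

lemma sw_lt (x y : ℤ) : sw (lt (x, y)) = lt (x, -1 - y) := by
  unfold sw lt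
  ext
  · simp only; ring
  · simp only; ring

lemma sw_eN (e : ℤ × ℤ) : sw (eN e) = eS (sw e) := rfl
lemma sw_eS (e : ℤ × ℤ) : sw (eS e) = eN (sw e) := rfl
lemma sw_eW (e : ℤ × ℤ) : sw (eW e) = eW (sw e) := rfl
lemma sw_eE (e : ℤ × ℤ) : sw (eE e) = eE (sw e) := rfl

/-- **Convex corners.** -/
theorem cvx_rf (h : Mark.Cvx T m) : Mark.Cvx (rT T) (rm m) := by
  obtain ⟨h1, h2, h3⟩ := h
  refine ⟨h1, ?_, fun a b a1 a2 b1 b2 => ?_⟩
  · show -m.sy = 1 ∨ -m.sy = -1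
    omega
  · show T (m.u + m.sx * a) (-1 - (-1 - m.v + -m.sy * b)) ↔ _
    rw [show -1 - (-1 - m.v + -m.sy * b) = m.v + m.sy * b by ring]
    exact h3 a b a1 a2 b1 b2

lemma cvx_rf' : Mark.Cvx (rT T) (rm m) ↔ Mark.Cvx T m := by
  constructor
  · intro h
    have := cvx_rf h
    rwa [rT_rT, rm_rm] at this
  · exact cvx_rf

lemma Tc_rf {x y : ℤ} : Tc (rT T) x y ↔ Tc T x (-1 - y) := by
  constructor
  · rintro ⟨a, b, h1, h2, h3⟩
    exact ⟨a, -1 - b, h1, by omega, h3⟩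
  · rintro ⟨a, b, h1, h2, h3⟩
    refine ⟨a, -1 - b, h1, by omega, ?_⟩
    unfold rT
    rwa [show -1 - (-1 - b) = b by ring]

lemma Ld_rf {e : ℤ × ℤ} : e ∈ Ld (rT T) ↔ sw e ∈ Ld T := by
  constructor
  · rintro ⟨x, y, rfl, h⟩
    exact ⟨x, -1 - y, sw_lt x y, Tc_rf.1 h⟩
  · rintro ⟨x, y, he, h⟩
    refine ⟨x, -1 - y, ?_, ?_⟩
    · rw [← sw_lt, ← he, sw_sw]
    · rw [Tc_rf, show -1 - (-1 - y) = y by ring]
      exact h

/-- **Colours.** -/
theorem cl_rf (H : Cl T M c C) : Cl (rT T) (rM M) (fun x y => c x (-1 - y)) (rC C) where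
  cvx := by
    intro u v sx sy h1 h2 h3 h4 h5 h6
    unfold rT at h3 h4 h5 h6
    have := H.cvx u (-1 - v) sx (-sy) h1 (by omega)
      (by rwa [show -1 - (v + sy) = -1 - v + -sy by ring] at h3) h4
      (by rwa [show -1 - (v + sy) = -1 - v + -sy by ring] at h5) h6
    have := cvx_rf this
    have e : rm ⟨u, -1 - v, sx, -sy⟩ = (⟨u, v, sx, sy⟩ : Mark) := by
      unfold rm
      simp only [Mark.mk.injEq, true_and]
      constructor
      · ring
      · ring
    rwa [e] at this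
  mc := by
    intro m hm
    have := cvx_rf (H.mc _ hm)
    rwa [rm_rm] at this
  colV := by
    intro x y s hs h1 h2 h3
    unfold rT at h1 h2 h3
    have e1 : -1 - (y + 1) = -2 - y := by ring
    have e2 : -2 - y + 1 = -1 - y := by ring
    rw [e1] at h2 h3
    have := H.colV x (-2 - y) s hs h2 (by rw [e2]; exact h1) (by rw [e2]; exact h3.symm)
    rw [e2] at this
    show (c x (-1 - y) ↔ c x (-1 - (y + 1))) ↔ (x, -2 - y) ∉ C
    rw [e1, ← this]
    exact ⟨Iff.symm, Iff.symm⟩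
  colH := by
    intro x y s hs h1 h2 h3 h4
    unfold rT at h1 h2 h3 h4
    have e1 : -1 - (y + s) = -1 - y + -s := by ring
    rw [e1] at h3 h4
    exact H.colH x (-1 - y) (-s) (by omega) h1 h2 h3 h4
  cvH := by
    intro m hm hM
    have h1 : Mark.Cvx T (rm m) := by
      have := cvx_rf hm
      rwa [rT_rT] at this
    exact H.cvH (rm m) h1 hM
  mkc := fun m hM => H.mkc (rm m) hM

/-! ### Sides -/

lemma dg_rf : (rm m).dg = sw m.dg := by
  unfold Mark.dg rm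
  rw [sw_lt]

lemma hn_rf : (rm m).hn = sw m.hn := by
  unfold Mark.hn rm
  rw [sw_lt]

lemma X1_rf (h : m.sy = 1 ∨ m.sy = -1) : (rm m).X1 = sw m.X1 := by
  unfold Mark.X1
  rw [dg_rf]
  have e : (rm m).sy = -m.sy := rfl
  rw [e]
  rcases h with h | h
  · rw [if_neg (by omega), if_pos h, sw_eS]
  · rw [if_pos (by omega), if_neg (by omega), sw_eN]

lemma X2_rf (h : m.sy = 1 ∨ m.sy = -1) : (rm m).X2 = sw m.X2 := by
  unfold Mark.X2
  rw [hn_rf]
  have e : (rm m).sy = -m.sy := rfl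
  rw [e]
  rcases h with h | h
  · rw [if_neg (by omega), if_pos h, sw_eS]
  · rw [if_pos (by omega), if_neg (by omega), sw_eN]

/-- **The alive side.** -/
theorem al_rf (h : m.sy = 1 ∨ m.sy = -1) (w : Finset (ℤ × ℤ)) : (rm m).al (swF w) = sw (m.al w) := by
  have e1 : (rm m).pi = m.pi := rfl
  have e2 : (rm m).pj = -m.pj := by
    unfold Mark.pj rm
    simp only
    rcases h with h | h
    · rw [if_neg (by omega), if_pos h]; ring
    · rw [if_pos (by omega), if_neg (by omega)]; ring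
  have e3 : ((rm m).hn ∈ swF w ↔ ((rm m).pi - (rm m).pj) % 2 = 1) ↔ (m.hn ∈ w ↔ (m.pi - m.pj) % 2 = 1) := by
    rw [mem_swF, hn_rf, sw_sw, e1, e2]
    have : (m.pi - -m.pj) % 2 = 1 ↔ (m.pi - m.pj) % 2 = 1 := by omega
    rw [this]
  unfold Mark.al
  by_cases h3 : (m.hn ∈ w ↔ (m.pi - m.pj) % 2 = 1)
  · rw [if_pos h3, if_pos (e3.2 h3), X1_rf h]
  · rw [if_neg h3, if_neg (fun h' => h3 (e3.1 h')), X2_rf h]

end Pool.Agent.H13.W
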