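import Mathlib
import Pool.Agent.H13.W.VEnd
import Pool.Agent.H13.W.VRef
import Pool.Agent.H82.W.VInst

set_option autoImplicit false
set_option linter.unusedVariables false
open Finset

/-! # StChd, V10: 22's colours for 78's picture of a chord, and `EndOk` (point (E) of 82)

`ShC T X v mk` : shape level, original orientation: the colours of the tile room `T` with one cut at `(X, v)` and the
marks `mk`. `mkG sg mk` : the marks of the picture. `picC_of`, `endOk_pic`, `endOk_GI`. -/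

namespace Pool.Agent.H13.W

open Pool.Agent.H33.Q1 (lt tt ct TL lt_odd tt_lt lt_tt lt_inj lt_mem_TL)
open Pool.Agent.H21.FM (Shape)
open Pool.Agent.Q1.M4 (Cell)
open Pool.Agent.H19.W (LamC WC lt_cc)
open Pool.Agent.H45.W (sw sw_sw swS swF mem_swS mem_swF)
open Pool.Agent.H22.W.Vc (Mark Ld Tc mem_Ld Cl RT PicC)
open Pool.Agent.H78.W
open Pool.Agent.H68.W (Cf)
open Pool.Agent.H50.W (rf)
open Pool.Agent.H74.W
open Pool.Agent.H82.W (EndOk GI GI_eq gi_D k0)
open Filter Metric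

/-- tile room of a polygon -/
def TQ (Q : Finset Cell) (n : ℤ) (x y : ℤ) : Prop := ct n (x, y) ∈ Q

/-- **Shape level**: all touching tiles, colours `W` with one cut `(X, v)`, marks `mk`. -/
structure ShC (Q : Finset Cell) (n : ℤ) (W : Finset (ℤ × ℤ)) (X v : ℤ) (mk : Fin 3 → Mark) : Prop where
  hΛ : (LamC Q n : Set (ℤ × ℤ)) = Ld (TQ Q n)
  hC : Cl (TQ Q n) (Set.range mk) (fun x y => lt (x, y) ∈ W) {(X, v)}
  inj : Function.Injective mk

/-- the marks of the picture -/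
def mkG (sg : Bool) (mk : Fin 3 → Mark) (j : Fin 3) : Mark := if sg then mk j else rm (mk j)

lemma mkG_inj {sg : Bool} {mk : Fin 3 → Mark} (h : Function.Injective mk) : Function.Injective (mkG sg mk) := by
  intro i j hij
  unfold mkG at hij
  cases sg
  · exact h (rm_inj (by simpa using hij))
  · exact h (by simpa using hij)

/-- open outer labels of 78's picture, before the reflection -/
noncomputable def W00 (S : Shape) (N M' h : ℕ) (hM : 0 < N * M') (sg : Bool) (bw Y0 : ℤ) :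
    Finset (ℤ × ℤ) :=
  WC (rf S (N * M') hM).P (2 * h) (fun i v =>
    Cf (rf S (N * M') hM) (teC (rf S (N * M') hM) sg (N * M') bw Y0) (v0C (2 * h * (N * M')) Y0) i v)

/-- the canonical string starts right of the column `X` -/
lemma gi_k0 {X : ℤ} {z0 : ℂ} {σ : ℝ} (h1 : (X : ℝ) < z0.re) (hσ : 0 < σ) :
    ∀ᶠ k : ℕ × ℕ in lK, (k.1 : ℤ) * X < k0 z0 σ k.1 := by
  refine Filter.Eventually.of_forall fun k => ?_
  have h3 : ((k.1 : ℝ) * (z0.re + σ)) < ⌊(k.1 : ℝ) * (z0.re + σ)⌋ + 1 := Int.lt_floor_add_one _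
  have h4 : (k.1 : ℝ) * X ≤ (k.1 : ℝ) * (z0.re + σ) :=
    mul_le_mul_of_nonneg_left (by linarith) (by positivity)
  have h5 : (((k.1 : ℤ) * X : ℤ) : ℝ) < ((k0 z0 σ k.1 : ℤ) : ℝ) := by
    unfold k0; push_cast; linarith
  exact_mod_cast h5

section
variable {S : Shape} {b : ℤ} {N M' h : ℕ} {hM : 0 < N * M'} {sg P : Bool} {be bt bw Y0 k0' : ℤ}
  {mk : Fin 3 → Mark}

/-- **22's `PicC` for 78's picture.** -/
theorem picC_of (hh : 0 < h)
    (H : ShC (rf S (N * M') hM).P.Q (2 * h) (W00 S N M' h hM sg bw Y0) (2 * h * (N * M') * bw)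
      (2 * h * (N * M') * Y0 - 1) mk) :
    PicC (pic S b N M' h hM sg P be bt bw Y0 k0') (Set.range (mkG sg mk)) := by
  have hn : (0 : ℤ) < 2 * h := by positivity
  set Q := (rf S (N * M') hM).P.Q with hQ
  set G := pic S b N M' h hM sg P be bt bw Y0 k0' with hG
  have hRT : RT G = if sg then TQ Q (2 * h) else rT (TQ Q (2 * h)) := by
    funext x y
    have e : RT G x y = (ct (2 * h) (x, ry sg y) ∈ Q) := by
      apply propext
      show lt (x, y) ∈ rlF sg (TL Q (2 * h)) ↔ _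
      rw [lt_mem_rlF, lt_mem_TL hn]
    rw [e]
    cases sg
    · rfl
    · rfl
  have hLam : (G.Λ : Set (ℤ × ℤ)) = Ld (RT G) := by
    ext e
    rw [mem_coe]
    show e ∈ rlF sg (LamC Q (2 * h)) ↔ _
    rw [mem_rlF, hRT, ← mem_coe, H.hΛ]
    cases sg
    · show sw e ∈ Ld (TQ Q (2 * h)) ↔ _
      simp only [Bool.false_eq_true, if_false]
      exact Ld_rf.symm
    · exact Iff.rfl
  refine ⟨hLam, ?_⟩
  rw [hRT]
  have hW : (fun x y : ℤ => lt (x, y) ∈ G.W0) = fun x y => lt (x, ry sg y) ∈ W00 S N M' h hM sg bw Y0 := by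
    funext x y
    apply propext
    show lt (x, y) ∈ rlF sg _ ↔ _
    rw [lt_mem_rlF]
    exact Iff.rfl
  rw [hW]
  have hxw : G.xw = 2 * h * (N * M') * bw := rfl
  have hYc : G.Yc = yc sg (2 * h * (N * M')) Y0 := rfl
  rw [hxw, hYc]
  cases sg
  · simp only [Bool.false_eq_true, if_false]
    have h1 := cl_rf H.hC
    have h2 : Set.range (mkG false mk) = rM (Set.range mk) := by
      rw [rM_range]; rfl
    have h3 : rC {((2 * h * (N * M') * bw : ℤ), (2 * h * (N * M') * Y0 - 1 : ℤ))} =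
        {((2 * h * (N * M') * bw : ℤ), yc false (2 * h * (N * M')) Y0 - 1)} := by
      ext ⟨x, y⟩
      show (x, -2 - y) ∈ ({((2 * h * (N * M') * bw : ℤ), (2 * h * (N * M') * Y0 - 1 : ℤ))} : Set (ℤ × ℤ)) ↔ _
      rw [Set.mem_singleton_iff, Set.mem_singleton_iff, Prod.mk.injEq, Prod.mk.injEq]
      unfold yc
      simp only [Bool.false_eq_true, if_false]
      constructor
      · rintro ⟨g1, g2⟩; exact ⟨g1, by linarith⟩
      · rintro ⟨g1, g2⟩; exact ⟨g1, by linarith⟩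
    rw [h2, ← h3]
    exact h1
  · exact H.hC

/-- **The far ends of 78's picture.** -/
theorem endOk_pic {aL a0 : ℤ} (D : PicD S aL b N M' h hM sg P a0 be bt bw Y0 k0') (hk : N * a0 < k0')
    (H : ShC (rf S (N * M') hM).P.Q (2 * h) (W00 S N M' h hM sg bw Y0) (2 * h * (N * M') * bw)
      (2 * h * (N * M') * Y0 - 1) mk) :
    EndOk (pic S b N M' h hM sg P be bt bw Y0 k0') (2 * h * (N * M') * a0) (2 * h * (3 * (N * M') / 4))
      (fun j => (mkG sg mk j).al ((pic S b N M' h hM sg P be bt bw Y0 k0').KN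
        (pic S b N M' h hM sg P be bt bw Y0 k0').Yd))
      (fun j => (mkG sg mk j).al (pic S b N M' h hM sg P be bt bw Y0 k0').W0) := by
  have hh := D.hh
  have hh0 : 0 < h := by omega
  refine endOk_of D.ok (picC_of hh0 H) (mkG_inj H.inj) hh ?_
  show (2 * h * (N * M') * a0 : ℤ) < 2 * h * M' * k0'
  have hM' : 0 < M' := Nat.pos_of_mul_pos_left hM
  have : (0 : ℤ) < 2 * h * M' := by positivity
  have := mul_lt_mul_of_pos_left hk this
  linarith

end

/-- **The far ends of 82's pictures of a chord** (point (E)). -/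
theorem endOk_GI {S : Shape} {b X Y be bt bw aL : ℤ} {sg P : Bool} {z0 : ℂ} {σ : ℝ}
    {mk : ℕ × ℕ → ℕ → Fin 3 → Mark} (C : Cc S.P.Q sg X be bt bw Y P) (hb : ∀ c ∈ chG S.P.Q, c.1 < b)
    (ha : ∀ c ∈ chG S.P.Q, aL ≤ c.1) (h1 : (X : ℝ) < z0.re) (hσ : 0 < σ) (h2 : z0.re + σ < X + 1)
    (H : ∀ᶠ k in lK, ∀ᶠ h : ℕ in atTop, ∀ hM : 0 < k.1 * k.2,
      ShC (rf S (k.1 * k.2) hM).P.Q (2 * h) (W00 S k.1 k.2 h hM sg bw Y) (2 * h * (k.1 * k.2) * bw)
        (2 * h * (k.1 * k.2) * Y - 1) (mk k h)) :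
    ∀ᶠ k in lK, ∀ᶠ h : ℕ in atTop, EndOk (GI S b sg P be bt bw Y z0 σ k h)
      (2 * h * ((k.1 * k.2 : ℕ) : ℤ) * X) (2 * h * ((3 * (k.1 * k.2) / 4 : ℕ) : ℤ))
      (fun j => (mkG sg (mk k h) j).al ((GI S b sg P be bt bw Y z0 σ k h).KN
        (GI S b sg P be bt bw Y z0 σ k h).Yd))
      (fun j => (mkG sg (mk k h) j).al (GI S b sg P be bt bw Y z0 σ k h).W0) := by
  filter_upwards [gi_D C hb ha h1 hσ h2, H, gi_k0 (X := X) h1 hσ] with k hk hH hk0
  obtain ⟨hM, hD⟩ := hk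
  filter_upwards [hH, eventually_ge_atTop 2] with h hH2 hh
  rw [GI_eq hM]
  have D := hD h hh
  have c1 : (((k.1 * k.2 : ℕ) : ℤ)) = (k.1 : ℤ) * k.2 := by push_cast; ring
  have c2 : ((3 * (k.1 * k.2) / 4 : ℕ) : ℤ) = 3 * ((k.1 : ℤ) * k.2) / 4 := by push_cast; ring_nf
  rw [c1, c2]
  exact endOk_pic D hk0 (hH2 hM)

end Pool.Agent.H13.W
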