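import Mathlib
import Pool.Agent.H13.W.VPicC
import Pool.Agent.H22.W.VcVC

set_option autoImplicit false
set_option linter.unusedVariables false
open Finset

/-! # StChd, V10: the alive sides of 78's picture of a chord

`mkK S k h` : the three marks of the fine shape; `al_mkG` : alive sides under the reflection; `alW_pic` : the alive
sides of the wall world are 19's `XA`. -/

namespace Pool.Agent.H13.W

open Pool.Agent.H33.Q1 (lt tt ct TL lt_odd tt_lt lt_tt lt_inj lt_mem_TL)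
open Pool.Agent.H21.FM (Shape)
open Pool.Agent.Q1.M4 (Cell)
open Pool.Agent.H19.W (LamC WC lt_cc XA mkI)
open Pool.Agent.H45.W (sw sw_sw swS swF mem_swS mem_swF)
open Pool.Agent.H22.W.Vc (Mark Ld Tc mem_Ld Cl RT PicC mks mkv al_mkv mks_cvx)
open Pool.Agent.H78.W
open Pool.Agent.H68.W (Cf)
open Pool.Agent.H50.W (rf)
open Pool.Agent.H74.W
open Pool.Agent.H82.W (EndOk GI GI_eq gi_D k0)
open Filter Metric

/-- the three marks of the fine shape -/
noncomputable def mkK (S : Shape) (k : ℕ × ℕ) (h : ℕ) : Fin 3 → Mark :=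
  if hM : 0 < k.1 * k.2 then mks (rf S (k.1 * k.2) hM) (2 * h) else mks S (2 * h)

lemma mkK_eq {S : Shape} {k : ℕ × ℕ} {h : ℕ} (hM : 0 < k.1 * k.2) :
    mkK S k h = mks (rf S (k.1 * k.2) hM) (2 * h) := dif_pos hM

/-- alive sides under the reflection -/
theorem al_mkG {sg : Bool} {mk : Fin 3 → Mark} {j : Fin 3} (hs : (mk j).sy = 1 ∨ (mk j).sy = -1)
    (w : Finset (ℤ × ℤ)) : (mkG sg mk j).al (rlF sg w) = rl sg ((mk j).al w) := by
  unfold mkG rlF rl
  cases sg
  · simp only [Bool.false_eq_true, if_false]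
    exact al_rf hs w
  · rfl

/-- the alive side only depends on the colour of the horizontal neighbour -/
lemma al_ext {m : Mark} {w w' : Finset (ℤ × ℤ)} (h : m.hn ∈ w ↔ m.hn ∈ w') : m.al w = m.al w' := by
  unfold Mark.al
  by_cases h1 : m.hn ∈ w
  · have h2 := h.1 h1
    simp [h1, h2]
  · have h2 : m.hn ∉ w' := fun h3 => h1 (h.2 h3)
    simp [h1, h2]

lemma mks_sy {S : Shape} {n : ℤ} (j : Fin 3) : (mks S n j).sy = 1 ∨ (mks S n j).sy = -1 := by
  have e : (mks S n j).sy = if S.k (mkI S j) % 4 = 1 ∨ S.k (mkI S j) % 4 = 2 then -1 else 1 := rfl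
  rw [e]
  split_ifs <;> simp

section
variable {S : Shape} {b : ℤ} {N M' h : ℕ} {hM : 0 < N * M'} {sg P : Bool} {be bt bw Y0 k0' : ℤ}

/-- **The alive sides of the wall world.** -/
theorem alW_pic (hh : 2 ≤ h)
    (H : ShC (rf S (N * M') hM).P.Q (2 * h) (W00 S N M' h hM sg bw Y0) (2 * h * (N * M') * bw)
      (2 * h * (N * M') * Y0 - 1) (mks (rf S (N * M') hM) (2 * h))) (j : Fin 3) :
    (mkG sg (mks (rf S (N * M') hM) (2 * h)) j).al (pic S b N M' h hM sg P be bt bw Y0 k0').W0 =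
      rl sg (XA (rf S (N * M') hM) h (fun i v =>
        Cf (rf S (N * M') hM) (teC (rf S (N * M') hM) sg (N * M') bw Y0) (v0C (2 * h * (N * M')) Y0) i v)
        (mkI (rf S (N * M') hM) j)) := by
  have h1 : (pic S b N M' h hM sg P be bt bw Y0 k0').W0 = rlF sg (W00 S N M' h hM sg bw Y0) := rfl
  rw [h1, al_mkG (mks_sy j)]
  congr 1
  exact al_mkv Iff.rfl (H.hC.mkc _ ⟨j, rfl⟩)

end

end Pool.Agent.H13.W
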