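import Mathlib
import Pool.Agent.H13.W.VE
import Pool.Agent.H22.W.VcSh

set_option autoImplicit false
set_option linter.unusedVariables false
open Finset

/-! # StChd: the first conjunct of 82's `EWN` -/

namespace Pool.Agent.H13.W

open Pool.Agent.H33.Q1 (lt tt ct TL lt_odd tt_lt lt_tt lt_inj lt_mem_TL)
open Pool.Agent.H21.FM (Shape)
open Pool.Agent.Q1.M4 (Cell)
open Pool.Agent.H19.W (LamC WC lt_cc XA mkI)
open Pool.Agent.H22.W.Vc (Mark mks shC)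
open Pool.Agent.H78.W
open Pool.Agent.H68.W (Cf)
open Pool.Agent.H50.W (rf)
open Pool.Agent.H74.W
open Pool.Agent.H82.W (EndOk GI GI_eq gi_D k0)
open Filter Metric

/-- far ends of the narrow room -/
noncomputable def yE (S : Shape) (b : ℤ) (sg P : Bool) (be bt bw Y : ℤ) (z0 : ℂ) (σ : ℝ) (k : ℕ × ℕ) (h : ℕ)
    (j : Fin 3) : ℤ × ℤ :=
  (mkG sg (mkK S k h) j).al ((GI S b sg P be bt bw Y z0 σ k h).KN (GI S b sg P be bt bw Y z0 σ k h).Yd)

/-- far ends of the wide room -/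
noncomputable def yWE (S : Shape) (b : ℤ) (sg P : Bool) (be bt bw Y : ℤ) (z0 : ℂ) (σ : ℝ) (k : ℕ × ℕ) (h : ℕ)
    (j : Fin 3) : ℤ × ℤ :=
  (mkG sg (mkK S k h) j).al (GI S b sg P be bt bw Y z0 σ k h).W0

/-- **(E).** -/
theorem ewn_E {S : Shape} {b X Y be bt bw aL : ℤ} {sg P : Bool} {z0 : ℂ} {σ : ℝ}
    (C : Cc S.P.Q sg X be bt bw Y P) (hb : ∀ c ∈ chG S.P.Q, c.1 < b) (ha : ∀ c ∈ chG S.P.Q, aL ≤ c.1)
    (h1 : (X : ℝ) < z0.re) (hσ : 0 < σ) (h2 : z0.re + σ < X + 1) :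
    ∀ᶠ k in lK, ∀ᶠ h : ℕ in atTop, EndOk (GI S b sg P be bt bw Y z0 σ k h)
      (2 * h * ((k.1 * k.2 : ℕ) : ℤ) * X) (2 * h * ((3 * (k.1 * k.2) / 4 : ℕ) : ℤ))
      (yE S b sg P be bt bw Y z0 σ k h) (yWE S b sg P be bt bw Y z0 σ k h) := by
  refine endOk_GI (mk := mkK S) C hb ha h1 hσ h2 ?_
  refine Filter.Eventually.of_forall fun k => ?_
  filter_upwards [eventually_ge_atTop 2] with h hh hM
  rw [mkK_eq hM]
  have := shC (N := k.1) (M' := k.2) (hM := hM) C hh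
  exact this

/-- the wall world: alive sides are 19's `XA` with the colours of the chord -/
theorem yWE_eq {S : Shape} {b X Y be bt bw : ℤ} {sg P : Bool} {z0 : ℂ} {σ : ℝ} {k : ℕ × ℕ} {h : ℕ}
    (C : Cc S.P.Q sg X be bt bw Y P) (hM : 0 < k.1 * k.2) (hh : 2 ≤ h) (j : Fin 3) :
    yWE S b sg P be bt bw Y z0 σ k h j =
      rl sg (XA (rf S (k.1 * k.2) hM) h (fun i v =>
        Cf (rf S (k.1 * k.2) hM) (teC (rf S (k.1 * k.2) hM) sg (k.1 * k.2) bw Y)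
          (v0C (2 * h * (k.1 * k.2)) Y) i v) (mkI (rf S (k.1 * k.2) hM) j)) := by
  unfold yWE
  rw [mkK_eq hM, GI_eq hM]
  exact alW_pic hh (shC (N := k.1) (M' := k.2) (hM := hM) C hh) j

end Pool.Agent.H13.W
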